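import Pool.Agent.H41.LR.Tr

/-!
# LR Val: the values of the limits over the special point (case (I))
-/

set_option autoImplicit false

open Topology Filter Metric MvPolynomial

noncomputable section

namespace Pool.Agent.H41.LR

open Pool.Agent.H62.LR (BaseD Tm)
open Pool.Agent.H87.LU (HP)
open Pool.Agent.H46.LR (OmitsAt OmitsSecAt FinAt Approx Algebraic MainN MainI)

theorem tlu_of_jc {𝒰 : Ultrafilter ℕ} {F : ℕ → ℂ → ℂ} {f : ℂ → ℂ} {Ω : Set ℂ} (hΩ : IsOpen Ω) (hf : ContinuousOn f Ω) (h : ∀ x ∈ Ω, Jc 𝒰 F f x) :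
    TendstoLocallyUniformlyOn F f (𝒰 : Filter ℕ) Ω := by
  rw [Metric.tendstoLocallyUniformlyOn_iff]
  intro ε hε x hx
  have h1 : ∀ᶠ q : ℕ × ℂ in (𝒰 : Filter ℕ) ×ˢ 𝓝 x, dist (F q.1 q.2) (f x) < ε / 2 := (h x hx).eventually (ball_mem_nhds _ (half_pos hε))
  have h2 : ∀ᶠ y in 𝓝 x, dist (f y) (f x) < ε / 2 := (hf.continuousAt (hΩ.mem_nhds hx)).eventually (ball_mem_nhds _ (half_pos hε))
  obtain ⟨pa, ha, pb, hb, h3⟩ := eventually_prod_iff.1 h1
  refine ⟨{y | pb y ∧ dist (f y) (f x) < ε / 2}, mem_nhdsWithin_of_mem_nhds (hb.and h2), ?_⟩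
  filter_upwards [ha] with n hn y hy
  have h4 := h3 hn hy.1
  rw [dist_comm] at h4
  calc dist (f y) (F n y) ≤ dist (f y) (f x) + dist (f x) (F n y) := dist_triangle _ _ _
    _ < ε / 2 + ε / 2 := add_lt_add hy.2 h4
    _ = ε := add_halves ε

theorem ex_finset {α : Type} {𝒰 : Ultrafilter ℕ} {S : Finset α} {P : α → ℕ → Prop} (h : ∀ᶠ n in (𝒰 : Filter ℕ), ∃ t ∈ S, P t n) :
    ∃ t ∈ S, ∀ᶠ n in (𝒰 : Filter ℕ), P t n := by
  have h2 : {n | ∃ t ∈ S, P t n} ∈ (𝒰 : Filter ℕ) := h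
  have h3 : {n | ∃ t ∈ S, P t n} = ⋃ t ∈ (S : Set α), {n | P t n} := by
    ext n
    simp only [Set.mem_iUnion, Set.mem_setOf_eq, exists_prop, Finset.mem_coe]
  rw [h3] at h2
  obtain ⟨t, ht, h4⟩ := (Ultrafilter.finite_biUnion_mem_iff S.finite_toSet).1 h2
  exact ⟨t, ht, h4⟩

/-- the value of the limit at the centre -/
theorem val_lim {𝒰 : Ultrafilter ℕ} {k : ℕ → ℂ → ℂ} {G : ℂ → ℂ} {z' : ℂ} {s : ℝ} (hs : 0 < s) (hG : DifferentiableOn ℂ G (ball z' s \ {z'}))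
    (hk : ∀ᶠ n in (𝒰 : Filter ℕ), DifferentiableOn ℂ (k n) (ball z' s)) (hJ : ∀ x ∈ ball z' s \ {z'}, Jc 𝒰 k G x) {z : ℕ → ℂ}
    (hz : Tendsto z 𝒰 (𝓝 z')) {a : ℂ} (ha : ∀ᶠ n in (𝒰 : Filter ℕ), k n (z n) = a) : Tendsto G (𝓝[≠] z') (𝓝 a) := by
  have hΩ : IsOpen (ball z' s \ {z'}) := isOpen_ball.sdiff isClosed_singleton
  have hs2 : 0 < s / 2 := half_pos hs
  have hsph : sphere z' (s / 2) ⊆ ball z' s \ {z'} := by
    intro w hw
    rw [mem_sphere_iff_norm] at hw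
    refine ⟨by rw [mem_ball_iff_norm]; linarith, fun h => ?_⟩
    rw [Set.mem_singleton_iff] at h
    rw [h, sub_self, norm_zero] at hw
    linarith
  have htlu := tlu_of_jc hΩ hG.continuousOn hJ
  have hunif : TendstoUniformlyOn k G (𝒰 : Filter ℕ) (sphere z' (s / 2)) :=
    (tendstoLocallyUniformlyOn_iff_forall_isCompact hΩ).1 htlu _ hsph (isCompact_sphere _ _)
  obtain ⟨M, hM⟩ := (isCompact_sphere z' (s / 2)).exists_bound_of_continuousOn (hG.continuousOn.mono hsph)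
  have hbd : ∀ᶠ n in (𝒰 : Filter ℕ), ∀ w ∈ ball z' (s / 2), ‖k n w‖ ≤ M + 1 := by
    filter_upwards [(Metric.tendstoUniformlyOn_iff.1 hunif) 1 one_pos, hk] with n hn1 hn2 w hw
    have h1 : DiffContOnCl ℂ (k n) (ball z' (s / 2)) := by
      refine DifferentiableOn.diffContOnCl (hn2.mono ?_)
      rw [closure_ball z' hs2.ne']
      exact closedBall_subset_ball (by linarith)
    refine Complex.norm_le_of_forall_mem_frontier_norm_le isBounded_ball h1 ?_ (subset_closure hw)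
    intro x hx
    rw [frontier_ball z' hs2.ne'] at hx
    have h2 := hn1 x hx
    have h3 := hM x hx
    rw [dist_eq_norm, norm_sub_rev] at h2
    have h5 := norm_add_le (k n x - G x) (G x)
    rw [sub_add_cancel] at h5
    linarith
  have hsub : ball z' (s / 2) ⊆ ball z' s := ball_subset_ball (by linarith)
  obtain ⟨H, hH, hlim⟩ := Pool.Agent.H17.montel_ultrafilter 𝒰 (F := k) (a := z') (r := s / 2) (B := M + 1) (hk.mono fun n hn => hn.mono hsub) hbd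
  have hHG : ∀ w ∈ ball z' (s / 2), w ≠ z' → H w = G w := fun w hw hne =>
    tendsto_nhds_unique (hlim.tendsto_at hw) (hJ w ⟨hsub hw, hne⟩).at
  have hHc : ContinuousAt H z' := (hH.differentiableAt (ball_mem_nhds z' hs2)).continuousAt
  have hHa : H z' = a := by
    have h1 : Tendsto (fun n => k n (z n)) (𝒰 : Filter ℕ) (𝓝 (H z')) := by
      refine hlim.tendsto_comp hHc.continuousWithinAt (mem_ball_self hs2) ?_
      rw [isOpen_ball.nhdsWithin_eq (mem_ball_self hs2)]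
      exact hz
    exact tendsto_nhds_unique h1 (tendsto_const_nhds.congr' (ha.mono fun n hn => hn.symm))
  rw [← hHa]
  refine (hHc.tendsto.mono_left nhdsWithin_le_nhds).congr' ?_
  filter_upwards [self_mem_nhdsWithin, nhdsWithin_le_nhds (ball_mem_nhds z' hs2)] with w h1 h2
  exact hHG w h2 h1

/-- holomorphic functions close to a function with nonzero derivative are injective near the point -/
theorem inj_near {𝒰 : Ultrafilter ℕ} {h : ℕ → ℂ → ℂ} {h' : ℂ → ℂ} {z' : ℂ} (hh' : Differentiable ℂ h') (hd : deriv h' z' ≠ 0)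
    (hh : ∀ᶠ n in (𝒰 : Filter ℕ), DifferentiableOn ℂ (h n) (ball z' 1)) (hJ : ∀ x ∈ ball z' 1, Jc 𝒰 h h' x) :
    ∃ s : ℝ, 0 < s ∧ s ≤ 1 ∧ ∀ᶠ n in (𝒰 : Filter ℕ), Set.InjOn (h n) (ball z' s) := by
  have htlu := tlu_of_jc isOpen_ball hh'.continuous.continuousOn hJ
  have hder := htlu.deriv hh isOpen_ball
  have hdc : Continuous (deriv h') := (hh'.contDiff (n := 1)).continuous_deriv le_rfl
  have hJd : Jc 𝒰 (fun n => deriv (h n)) (deriv h') z' := jc_of_tlu isOpen_ball hdc.continuousOn hder (mem_ball_self one_pos)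
  set m : ℝ := ‖deriv h' z'‖ with hm
  have hm0 : 0 < m := norm_pos_iff.2 hd
  have h1 : ∀ᶠ q : ℕ × ℂ in (𝒰 : Filter ℕ) ×ˢ 𝓝 z', ‖deriv (h q.1) q.2 - deriv h' z'‖ < m / 2 := by
    have h2 := hJd.eventually (ball_mem_nhds _ (half_pos hm0))
    exact h2.mono fun q hq => by
      rw [← dist_eq_norm]
      exact hq
  obtain ⟨s, hs, h2⟩ := exists_ball (𝒰 := 𝒰) (P := fun n y => ‖deriv (h n) y - deriv h' z'‖ < m / 2) (x := z') h1
  refine ⟨min s 1, lt_min hs one_pos, min_le_right _ _, ?_⟩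
  filter_upwards [h2, hh] with n hn1 hn2
  intro x hx y hy hxy
  by_contra hne
  have hsub : ball z' (min s 1) ⊆ ball z' 1 := ball_subset_ball (min_le_right _ _)
  have h3 : ∀ w ∈ ball z' (min s 1), HasDerivWithinAt (fun w => h n w - deriv h' z' * w) (deriv (h n) w - deriv h' z') (ball z' (min s 1)) w := by
    intro w hw
    have h4 := ((hn2.differentiableAt (isOpen_ball.mem_nhds (hsub hw))).hasDerivAt).sub ((hasDerivAt_id w).const_mul (deriv h' z'))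
    rw [mul_one] at h4
    exact h4.hasDerivWithinAt
  have h5 := (convex_ball z' (min s 1)).norm_image_sub_le_of_norm_hasDerivWithin_le (C := m / 2) h3
    (fun w hw => (hn1 w (ball_subset_ball (min_le_left _ _) hw)).le) hx hy
  have h6 : h n y - deriv h' z' * y - (h n x - deriv h' z' * x) = deriv h' z' * (x - y) := by
    rw [hxy]
    ring
  rw [h6, norm_mul, ← hm, norm_sub_rev x y] at h5
  have h7 : 0 < ‖y - x‖ := norm_pos_iff.2 (sub_ne_zero.2 (Ne.symm hne))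
  nlinarith

/-- the property of the pairs -/
def KI (B₀ : Set ℂ) (c : ℂ) (S : Finset (ℂ × ℂ)) (ψ g : ℂ → ℂ) (z : ℂ) : Prop := OmitsAt B₀ ψ g z ∧ FinAt c S ψ g z

theorem KI_congr {B₀ : Set ℂ} {c : ℂ} {S : Finset (ℂ × ℂ)} (ψ g g' : ℂ → ℂ) (z : ℂ) (he : g =ᶠ[𝓝[≠] z] g') (h : KI B₀ c S ψ g z) : KI B₀ c S ψ g' z := by
  obtain ⟨h1, h2⟩ := h
  refine ⟨fun h3 => ?_, fun h3 => ?_⟩
  · obtain ⟨w, hw0, hw1, hw⟩ := h1 h3
    exact ⟨w, hw0, hw1, hw.congr' he⟩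
  · obtain ⟨s, hs, h4 | h4⟩ := h2 h3
    · exact ⟨s, hs, Or.inl ⟨h4.1, h4.2.congr' he⟩⟩
    · exact ⟨s, hs, Or.inr ⟨h4.1, h4.2.congr' he⟩⟩

/-- **The value over the special point.** -/
theorem val_I {B₀ B₁ : Set ℂ} (hB : B₁.Finite) (hsub : B₀ ⊆ B₁) {c : ℂ} (hcB : c ∈ B₁) {S : Finset (ℂ × ℂ)} {𝒰 : Ultrafilter ℕ} {φ g₀ : ℂ → ℂ} {z₀ : ℂ} {r : ℝ}
    {ψ g : ℕ → ℂ → ℂ} (hL : LimS 𝒰 (KI B₀ c S) φ g₀ z₀ r ψ g) (hφ : Differentiable ℂ φ) {G : ℂ → ℂ} (hG : DifferentiableOn ℂ G (Og φ B₁))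
    (hO : Om G (Og φ B₁)) (hGJ : ∀ x ∈ Og φ B₁, Jc 𝒰 g G x) {z' : ℂ} (hz' : Complex.exp (φ z') = c) (hd : deriv φ z' ≠ 0) :
    (∃ s ∈ S, s.2 ≠ 0 ∧ Tendsto G (𝓝[≠] z') (𝓝 (s.1 / s.2))) ∨ Tendsto (fun z => (G z)⁻¹) (𝓝[≠] z') (𝓝 0) := by
  -- the functions `exp ∘ ψ n`
  have hEd : Differentiable ℂ (fun z => Complex.exp (φ z)) := Complex.differentiable_exp.comp hφ
  have hEder : deriv (fun z => Complex.exp (φ z)) z' ≠ 0 := by
    rw [((hφ z').hasDerivAt.cexp).deriv]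
    exact mul_ne_zero (Complex.exp_ne_zero _) hd
  have hR : ball z' 1 ⊆ ball (0 : ℂ) (‖z'‖ + 1) := by
    refine ball_subset_ball' ?_
    rw [dist_zero_right]
    linarith
  have hEn : ∀ᶠ n in (𝒰 : Filter ℕ), DifferentiableOn ℂ (fun z => Complex.exp (ψ n z)) (ball z' 1) := by
    filter_upwards [hL.diff (‖z'‖ + 1)] with n hn
    exact (hn.mono hR).cexp
  have hEJ : ∀ x ∈ ball z' 1, Jc 𝒰 (fun n z => Complex.exp (ψ n z)) (fun z => Complex.exp (φ z)) x := fun x _ => hL.jc_exp hφ.continuous x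
  obtain ⟨s₁, hs₁, hs₁1, hinj⟩ := inj_near hEd hEder hEn hEJ
  -- near the point the only bad value is `c`
  have hbad : ∀ᶠ q : ℕ × ℂ in (𝒰 : Filter ℕ) ×ˢ 𝓝 z', Complex.exp (ψ q.1 q.2) ∉ B₁ \ {c} := by
    refine (hL.jc_exp hφ.continuous z').eventually ((hB.subset Set.sdiff_subset).isClosed.isOpen_compl.mem_nhds ?_)
    show Complex.exp (φ z') ∉ B₁ \ {c}
    rw [hz']
    exact fun h => h.2 rfl
  obtain ⟨s₂, hs₂, hbad'⟩ := exists_ball (𝒰 := 𝒰) (P := fun n y => Complex.exp (ψ n y) ∉ B₁ \ {c}) (x := z') hbad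
  have hiso : ∃ s₃ : ℝ, 0 < s₃ ∧ ∀ w ∈ ball z' s₃ \ {z'}, w ∈ Og φ B₁ := by
    have h1 : ∀ᶠ w in 𝓝[≠] z', Complex.exp (φ w) ≠ c := by
      have h2 := (hEd z').hasDerivAt.eventually_ne (c := c) hEder
      exact h2
    have h3 : ∀ᶠ w in 𝓝[≠] z', Complex.exp (φ w) ∉ B₁ \ {c} := by
      refine nhdsWithin_le_nhds (hEd.continuous.continuousAt.eventually ((hB.subset Set.sdiff_subset).isClosed.isOpen_compl.mem_nhds ?_))
      show Complex.exp (φ z') ∉ B₁ \ {c}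
      rw [hz']
      exact fun h => h.2 rfl
    obtain ⟨s₃, hs₃, h4⟩ := Metric.mem_nhdsWithin_iff.1 (h1.and h3)
    refine ⟨s₃, hs₃, fun w hw h5 => ?_⟩
    have h6 := h4 ⟨hw.1, hw.2⟩
    exact h6.2 ⟨h5, h6.1⟩
  obtain ⟨s₃, hs₃, hiso⟩ := hiso
  set s : ℝ := min (min s₁ s₂) s₃ with hs
  have hs0 : 0 < s := lt_min (lt_min hs₁ hs₂) hs₃
  have hss₁ : ball z' s ⊆ ball z' s₁ := ball_subset_ball ((min_le_left _ _).trans (min_le_left _ _))
  have hss₂ : ball z' s ⊆ ball z' s₂ := ball_subset_ball ((min_le_left _ _).trans (min_le_right _ _))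
  have hss₃ : ball z' s ⊆ ball z' s₃ := ball_subset_ball (min_le_right _ _)
  have hsR : ball z' s ⊆ ball (0 : ℂ) (‖z'‖ + 1) := (hss₁.trans (ball_subset_ball hs₁1)).trans hR
  have hpun : ∀ w ∈ ball z' s \ {z'}, w ∈ Og φ B₁ := fun w hw => hiso w ⟨hss₃ hw.1, hw.2⟩
  -- zeros of `exp ∘ ψ n - c` near `z'`
  have hzero : ∀ t : ℝ, 0 < t → ∀ᶠ n in (𝒰 : Filter ℕ), ∃ w ∈ ball z' t, Complex.exp (ψ n w) = c := by
    intro t ht
    by_contra hcon
    rw [← Ultrafilter.eventually_not] at hcon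
    have hEvD : EvD 𝒰 (fun n z => Complex.exp (ψ n z) - c) (ball z' s) := by
      intro x hx
      by_cases hxz : x = z'
      · refine ⟨min t s, lt_min ht hs0, ?_⟩
        filter_upwards [hcon, hEn] with n hn1 hn2
        rw [hxz]
        refine ⟨(hn2.mono ((ball_subset_ball (min_le_right _ _)).trans (hss₁.trans (ball_subset_ball hs₁1)))).sub_const c, fun w hw h1 => hn1 ?_⟩
        exact ⟨w, ball_subset_ball (min_le_left _ _) hw, sub_eq_zero.1 h1⟩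
      · have h1 : ∀ᶠ q : ℕ × ℂ in (𝒰 : Filter ℕ) ×ˢ 𝓝 x, Complex.exp (ψ q.1 q.2) ≠ c := by
          refine (hL.jc_exp hφ.continuous x).eventually (isOpen_ne.mem_nhds ?_)
          intro h2
          have h3 : Complex.exp (φ x) = c := h2
          apply hpun x ⟨hx, hxz⟩
          rw [h3]
          exact hcB
        obtain ⟨u, hu, h2⟩ := exists_ball (𝒰 := 𝒰) (P := fun n y => Complex.exp (ψ n y) ≠ c) (x := x) h1
        obtain ⟨v, hv, hvs⟩ := Metric.isOpen_iff.1 isOpen_ball x hx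
        refine ⟨min u v, lt_min hu hv, ?_⟩
        filter_upwards [h2, hEn] with n hn1 hn2
        refine ⟨(hn2.mono (((ball_subset_ball (min_le_right _ _)).trans hvs).trans (hss₁.trans (ball_subset_ball hs₁1)))).sub_const c, fun w hw h3 => ?_⟩
        exact hn1 w (ball_subset_ball (min_le_left _ _) hw) (sub_eq_zero.1 h3)
    have hJc : ∀ x ∈ ball z' s, Jc 𝒰 (fun n z => Complex.exp (ψ n z) - c) (fun z => Complex.exp (φ z) - c) x := fun x _ =>
      Tendsto.sub_const (hL.jc_exp hφ.continuous x) c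
    rcases hurJ isOpen_ball (convex_ball z' s).isPreconnected (hEd.sub_const c).differentiableOn hJc hEvD with h1 | h1
    · -- a second point
      have h2 : z' + ((s / 2 : ℝ) : ℂ) ∈ ball z' s \ {z'} := by
        have h3 : ‖z' + ((s / 2 : ℝ) : ℂ) - z'‖ = s / 2 := by
          rw [add_sub_cancel_left, Complex.norm_real, Real.norm_eq_abs, abs_of_pos (half_pos hs0)]
        refine ⟨by rw [mem_ball_iff_norm, h3]; linarith, fun h4 => ?_⟩
        rw [Set.mem_singleton_iff] at h4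
        rw [h4, sub_self, norm_zero] at h3
        linarith
      apply hpun _ h2
      have h3 := h1 _ h2.1
      show Complex.exp (φ _) ∈ B₁
      rw [sub_eq_zero.1 h3]
      exact hcB
    · exact h1 z' (mem_ball_self hs0) (by rw [hz', sub_self])
  classical
  -- the zeros
  set z : ℕ → ℂ := fun n => if h : ∃ w ∈ ball z' s, Complex.exp (ψ n w) = c then h.choose else z' with hzdef
  have hz1 : ∀ᶠ n in (𝒰 : Filter ℕ), z n ∈ ball z' s ∧ Complex.exp (ψ n (z n)) = c := by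
    filter_upwards [hzero s hs0] with n hn
    have h1 : z n = hn.choose := dif_pos hn
    rw [h1]
    exact hn.choose_spec
  have hzt : Tendsto z 𝒰 (𝓝 z') := by
    rw [Metric.tendsto_nhds]
    intro ε hε
    filter_upwards [hzero (min ε s) (lt_min hε hs0), hz1, hinj] with n hn1 hn2 hn3
    obtain ⟨w, hw, hwc⟩ := hn1
    have h1 : z n = w := hn3 (hss₁ hn2.1) (hss₁ (ball_subset_ball (min_le_right _ _) hw)) (by
      show Complex.exp (ψ n (z n)) = Complex.exp (ψ n w)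
      rw [hn2.2, hwc])
    rw [h1]
    exact ball_subset_ball (min_le_left _ _) hw
  -- off `z n` the function `g n` is good
  have hgood : ∀ᶠ n in (𝒰 : Filter ℕ), ∀ w ∈ ball z' s, w ≠ z n → AnalyticAt ℂ (g n) w ∧ g n w ≠ 0 := by
    filter_upwards [hz1, hinj, hbad', hL.nf (‖z'‖ + 1), hL.prop (‖z'‖ + 1)] with n hn1 hn2 hn3 hn4 hn5 w hw hwz
    have h1 : Complex.exp (ψ n w) ∉ B₁ := by
      intro h2
      apply hwz
      refine hn2 (hss₁ hw) (hss₁ hn1.1) ?_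
      show Complex.exp (ψ n w) = Complex.exp (ψ n (z n))
      rw [hn1.2]
      by_contra h3
      exact hn3 w (hss₂ hw) ⟨h2, h3⟩
    obtain ⟨v, hv0, hv1, hv⟩ := (hn5 w (hsR hw)).1 (fun h2 => h1 (hsub h2))
    obtain ⟨h5, h6⟩ := nf_value (hn4 w (hsR hw)) hv
    rw [h6]
    exact ⟨h5, hv0⟩
  -- the value at `z n`
  have hval : ∀ᶠ n in (𝒰 : Filter ℕ), ∃ t ∈ S, (t.2 ≠ 0 ∧ AnalyticAt ℂ (g n) (z n) ∧ g n (z n) = t.1 / t.2) ∨
      (AnalyticAt ℂ (fun x => (g n x)⁻¹) (z n) ∧ (g n (z n))⁻¹ = 0) := by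
    filter_upwards [hz1, hL.nf (‖z'‖ + 1), hL.prop (‖z'‖ + 1)] with n hn1 hn4 hn5
    obtain ⟨t, ht, h1 | h1⟩ := (hn5 _ (hsR hn1.1)).2 hn1.2
    · exact ⟨t, ht, Or.inl ⟨h1.1, nf_value (hn4 _ (hsR hn1.1)) h1.2⟩⟩
    · exact ⟨t, ht, Or.inr (nf_pole (hn4 _ (hsR hn1.1)) h1.2)⟩
  by_cases hcase : ∀ᶠ n in (𝒰 : Filter ℕ), ∃ t ∈ S, t.2 ≠ 0 ∧ AnalyticAt ℂ (g n) (z n) ∧ g n (z n) = t.1 / t.2
  · left
    -- one `t` for most `n`
    obtain ⟨t, ht, h1⟩ := ex_finset hcase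
    obtain ⟨n₀, hn₀⟩ := h1.exists
    refine ⟨t, ht, hn₀.1, ?_⟩
    refine val_lim hs0 (hG.mono hpun) ?_ (fun x hx => hGJ x (hpun x hx)) hzt (h1.mono fun n hn => hn.2.2)
    filter_upwards [hgood, h1] with n hn1 hn2 w hw
    by_cases hwz : w = z n
    · rw [hwz]
      exact hn2.2.1.differentiableAt.differentiableWithinAt
    · exact (hn1 w hw hwz).1.differentiableAt.differentiableWithinAt
  · right
    rw [← Ultrafilter.eventually_not] at hcase
    refine val_lim (k := fun n x => (g n x)⁻¹) hs0 ((hO.diff_inv hG).mono hpun) ?_ ?_ hzt (a := 0) ?_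
    · filter_upwards [hgood, hcase, hval] with n hn1 hn2 hn3 w hw
      obtain ⟨t, ht, h1 | h1⟩ := hn3
      · exact absurd ⟨t, ht, h1⟩ hn2
      · by_cases hwz : w = z n
        · rw [hwz]
          exact h1.1.differentiableAt.differentiableWithinAt
        · exact ((hn1 w hw hwz).1.inv (hn1 w hw hwz).2).differentiableAt.differentiableWithinAt
    · intro x hx
      exact Tendsto.inv₀ (hGJ x (hpun x hx)) (hO x (hpun x hx)).1
    · filter_upwards [hcase, hval] with n hn2 hn3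
      obtain ⟨t, ht, h1 | h1⟩ := hn3
      · exact absurd ⟨t, ht, h1⟩ hn2
      · exact h1.2

end Pool.Agent.H41.LR
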