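import Pool.Agent.H41.LR.MainN
import Pool.Agent.H41.LR.Val

/-!
# LR MainI: case (I)
-/

set_option autoImplicit false

open Topology Filter Metric MvPolynomial

noncomputable section

namespace Pool.Agent.H41.LR

open Pool.Agent.H62.LR (BaseD Tm)
open Pool.Agent.H87.LU (HP)
open Pool.Agent.H46.LR (OmitsAt OmitsSecAt FinAt Approx Algebraic MainN MainI)

/-- all relations -/
theorem allRelI (hout : Output) {c : ℂ} (hc : c ≠ 0) (S : Finset (ℂ × ℂ)) {B₀ : Set ℂ} (hB₀ : B₀.Finite) :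
    ∃ (B₁ : Set ℂ) (Ψ : Set (MvPolynomial (Fin 2) ℂ)), B₁.Finite ∧ B₀ ⊆ B₁ ∧ c ∈ B₁ ∧ Ψ.Finite ∧ (0 : MvPolynomial (Fin 2) ℂ) ∉ Ψ ∧
      ∀ (ρ : ℝ) (f : ℂ → ℂ), (∀ ζ ∈ HP 1 ρ, MeromorphicAt f ζ) → (∀ ζ ∈ HP 1 ρ, ζ ∉ Bp B₁ → AnalyticAt ℂ f ζ ∧ f ζ ≠ 0 ∧ f ζ ≠ 1) →
        (∀ ζ ∈ HP 1 ρ, Complex.exp ζ = c → ∀ a, Tendsto f (𝓝[≠] ζ) (𝓝 a) → ∃ s ∈ S, s.2 ≠ 0 ∧ a = s.1 / s.2) →
        ∃ Φ ∈ Ψ, ∀ z ∈ HP 1 ρ, z ∉ Bp B₁ → eval ![Complex.exp z, f z] Φ = 0 := by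
  obtain ⟨A, hA⟩ : ∃ A : Set ℂ, A = {0, 1} ∪ (fun s : ℂ × ℂ => s.1 / s.2) '' (S : Set (ℂ × ℂ)) := ⟨_, rfl⟩
  have hAf : A.Finite := by
    rw [hA]
    exact ((Set.finite_singleton _).insert _).union (S.finite_toSet.image _)
  have hA0 : (0 : ℂ) ∈ A := by
    rw [hA]
    exact Or.inl (Or.inl rfl)
  have hA1 : (1 : ℂ) ∈ A := by
    rw [hA]
    exact Or.inl (Or.inr rfl)
  have hB : (B₀ ∪ {c}).Finite := hB₀.union (Set.finite_singleton c)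
  have hcB : c ∈ B₀ ∪ {c} := Or.inr rfl
  obtain ⟨δ, W, hbase⟩ := baseI hB hcB hAf hA0 hA1
  have hne : (Bp {c}).Nonempty := ⟨Complex.log c, by
    show Complex.exp (Complex.log c) ∈ ({c} : Set ℂ)
    rw [Complex.exp_log hc]
    exact rfl⟩
  obtain ⟨Ψ, hΨ, hΨ0, hrel⟩ := exists_finRel hbase (hout _ _ _ _ _ _ hbase (Or.inr ⟨rfl, hne⟩))
  refine ⟨B₀ ∪ {c}, Ψ, hB, Set.subset_union_left, hcB, hΨ, hΨ0, fun ρ f hf1 hf2 hf3 => hrel ρ f ⟨hf1, fun ζ hζ hζB => ?_, fun b hb hbC a ha => ?_⟩⟩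
  · obtain ⟨h1, h2, h3⟩ := hf2 ζ hζ hζB
    exact ⟨h1, h2, h3, fun L hL => absurd hL (Set.notMem_empty L)⟩
  · obtain ⟨s, hs, -, h1⟩ := hf3 b hb hbC a ha
    rw [hA]
    exact Or.inr ⟨s, hs, h1.symm⟩

/-- the limits are algebraic -/
theorem limI {B₀ B₁ : Set ℂ} (hB : B₁.Finite) (hsub : B₀ ⊆ B₁) {c₁ : ℂ} (hcB : c₁ ∈ B₁) {S : Finset (ℂ × ℂ)} {Ψ : Set (MvPolynomial (Fin 2) ℂ)}
    (hrel : ∀ (ρ : ℝ) (f : ℂ → ℂ), (∀ ζ ∈ HP 1 ρ, MeromorphicAt f ζ) → (∀ ζ ∈ HP 1 ρ, ζ ∉ Bp B₁ → AnalyticAt ℂ f ζ ∧ f ζ ≠ 0 ∧ f ζ ≠ 1) →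
        (∀ ζ ∈ HP 1 ρ, Complex.exp ζ = c₁ → ∀ a, Tendsto f (𝓝[≠] ζ) (𝓝 a) → ∃ s ∈ S, s.2 ≠ 0 ∧ a = s.1 / s.2) →
        ∃ Φ ∈ Ψ, ∀ z ∈ HP 1 ρ, z ∉ Bp B₁ → eval ![Complex.exp z, f z] Φ = 0)
    {φ g₀ : ℂ → ℂ} {z₀ : ℂ} {r : ℝ} (hr : 0 < r) (hg₀ : DifferentiableOn ℂ g₀ (ball z₀ r)) (happ : Approx (KI B₀ c₁ S) φ g₀ z₀ r)
    {a b c : ℂ} (hab : a ≠ 0 ∨ b ≠ 0) (hφ : ∀ z, φ z = a * z ^ 2 + b * z + c) :
    (∀ z ∈ ball z₀ r, eval ![Complex.exp (φ z), g₀ z] (X 1) = 0) ∨ (∀ z ∈ ball z₀ r, eval ![Complex.exp (φ z), g₀ z] (X 1 - 1) = 0) ∨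
      ∃ Φ ∈ Ψ, ∀ z ∈ ball z₀ r, eval ![Complex.exp (φ z), g₀ z] Φ = 0 := by
  have hφe : φ = fun z => a * z ^ 2 + b * z + c := funext hφ
  have hφd : Differentiable ℂ φ := by
    rw [hφe]
    fun_prop
  have hcount := countable_Og (c := c) hab hφ hB
  have hpre : IsPreconnected (Og φ B₁) := by
    have h1 := preconn_of_countable hcount
    rwa [compl_compl] at h1
  have hden : Dense (Og φ B₁) := by
    have h1 := dense_of_countable hcount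
    rwa [compl_compl] at h1
  obtain ⟨ψ, g, hL⟩ := exists_limS KI_congr happ
  obtain ⟨G, hG, hGJ, hGg, hcase⟩ := hL.exists_G schottky hB (fun ψ g z h1 h2 => h1.1 fun h3 => h2 (hsub h3)) hφd.continuous hr hg₀ hpre hden
  have fin : ∀ Φ : MvPolynomial (Fin 2) ℂ, (∀ z ∈ Og φ B₁, eval ![Complex.exp (φ z), G z] Φ = 0) → ∀ z ∈ ball z₀ r, eval ![Complex.exp (φ z), g₀ z] Φ = 0 := by
    intro Φ h1
    refine rel_ball hφd.continuous hg₀ hden Φ fun z hz hzO => ?_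
    rw [← hGg z hz hzO]
    exact h1 z hzO
  rcases hcase with hOm | h0 | h1
  · obtain ⟨ρ, χ, hχ, hinv⟩ := exists_branch (c := c) hab
    have hinv' : ∀ ζ ∈ HP 1 ρ, φ (χ ζ) = ζ := fun ζ hζ => by rw [hφ]; exact hinv ζ hζ
    obtain ⟨hm1, hm2⟩ := branch_mem hφd.continuous hB hG hOm hχ hinv'
    obtain ⟨Φ, hΦ, h2⟩ := hrel ρ (fun ζ => G (χ ζ)) hm1 hm2 (by
      intro ζ hζ hζc a' ha'
      have hχc : ContinuousAt χ ζ := (hχ.differentiableAt ((isOpen_HP1 ρ).mem_nhds hζ)).continuousAt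
      have hχt : Tendsto χ (𝓝[≠] ζ) (𝓝[≠] (χ ζ)) := by
        refine tendsto_nhdsWithin_iff.2 ⟨hχc.tendsto.mono_left nhdsWithin_le_nhds, ?_⟩
        filter_upwards [self_mem_nhdsWithin, nhdsWithin_le_nhds ((isOpen_HP1 ρ).mem_nhds hζ)] with w h3 h4 h5
        apply h3
        have h6 : χ w = χ ζ := h5
        show w = ζ
        rw [← hinv' w h4, h6, hinv' ζ hζ]
      have hder : deriv φ (χ ζ) ≠ 0 := by
        intro h3
        have h4 : HasDerivAt (fun w => φ (χ w)) (deriv φ (χ ζ) * deriv χ ζ) ζ :=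
          ((hφd (χ ζ)).hasDerivAt).comp ζ ((hχ.differentiableAt ((isOpen_HP1 ρ).mem_nhds hζ)).hasDerivAt)
        have h5 : HasDerivAt (fun w => φ (χ w)) 1 ζ := by
          refine (hasDerivAt_id ζ).congr_of_eventuallyEq ?_
          filter_upwards [(isOpen_HP1 ρ).mem_nhds hζ] with w hw
          exact hinv' w hw
        have h6 := h4.unique h5
        rw [h3, zero_mul] at h6
        exact zero_ne_one h6
      rcases val_I hB hsub hcB hL hφd hG hOm hGJ (z' := χ ζ) (by rw [hinv' ζ hζ]; exact hζc) hder with ⟨s, hs, hs2, h3⟩ | h3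
      · exact ⟨s, hs, hs2, tendsto_nhds_unique ha' (h3.comp hχt)⟩
      · exfalso
        have h4 : Tendsto (fun w => (G (χ w))⁻¹) (𝓝[≠] ζ) (𝓝 0) := h3.comp hχt
        have h5 : Tendsto (fun w => G (χ w) * (G (χ w))⁻¹) (𝓝[≠] ζ) (𝓝 (a' * 0)) := ha'.mul h4
        rw [mul_zero] at h5
        have h6 : ∀ᶠ w in 𝓝[≠] ζ, G (χ w) * (G (χ w))⁻¹ = 1 := by
          have h7 : ∀ᶠ w in 𝓝[≠] ζ, w ∉ Bp B₁ := by
            obtain ⟨δ, hδ, -, hsep⟩ := exists_sep hB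
            have hζB : Complex.exp ζ ∈ B₁ := by
              rw [hζc]
              exact hcB
            filter_upwards [self_mem_nhdsWithin, nhdsWithin_le_nhds (ball_mem_nhds ζ hδ)] with w h8 h9 h10
            have h11 := hsep w ζ h10 hζB h8
            rw [mem_ball_iff_norm] at h9
            linarith
          filter_upwards [h7, nhdsWithin_le_nhds ((isOpen_HP1 ρ).mem_nhds hζ)] with w h8 h9
          exact mul_inv_cancel₀ (hm2 w h9 h8).2.1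
        exact zero_ne_one (tendsto_nhds_unique h5 (tendsto_const_nhds.congr' (h6.mono fun w hw => hw.symm))))
    obtain ⟨ζ₀, hζ₀, hζ₀B⟩ := exists_good hB ρ
    right
    right
    exact ⟨Φ, hΦ, fin Φ (transfer hφd hB hG hpre hχ hinv' Φ hζ₀ hζ₀B h2)⟩
  · left
    refine fin (X 1) fun z hz => ?_
    rw [eval_X]
    exact h0 z hz
  · right
    left
    refine fin (X 1 - 1) fun z hz => ?_
    rw [map_sub, eval_X, map_one]
    show G z - 1 = 0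
    rw [h1 z hz, sub_self]

/-- **Case (I).** -/
theorem mainI_of (hout : Output) : MainI := by
  intro B₀ c₁ S hB₀ hc₁ _
  obtain ⟨B₁, Ψ, hB, hsub, hcB, hΨ, hΨ0, hrel⟩ := allRelI hout hc₁ S hB₀
  obtain ⟨k, F, hF⟩ := exists_enum hΨ
  refine ⟨k + 2, Fin.append F ![X 1, X 1 - 1], ?_, ?_⟩
  · intro i
    refine Fin.addCases (fun j => ?_) (fun j => ?_) i
    · rw [Fin.append_left]
      intro h
      apply hΨ0
      rw [← h, ← hF]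
      exact Set.mem_range_self j
    · rw [Fin.append_right]
      fin_cases j
      · exact X1_ne
      · exact X1_sub_ne
  · intro φ g₀ z₀ r hr hg₀ happ
    constructor
    · intro a b c hab hφ
      rcases limI hB hsub hcB hrel hr hg₀ happ hab hφ with h | h | ⟨Φ, hΦ, h⟩
      · refine ⟨Fin.natAdd k 0, ?_⟩
        rw [Fin.append_right]
        exact h
      · refine ⟨Fin.natAdd k 1, ?_⟩
        rw [Fin.append_right]
        exact h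
      · rw [← hF] at hΦ
        obtain ⟨i, rfl⟩ := hΦ
        refine ⟨Fin.castAdd 2 i, ?_⟩
        rw [Fin.append_left]
        exact h
    · intro c hc hφ
      exact const_case hB₀ (K := KI B₀ c₁ S) KI_congr (fun ψ g z h => h.1) hr hg₀ happ hc hφ

end Pool.Agent.H41.LR
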