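import Mathlib

/-!
# LR Gr: growth of `log |P (exp z)|`; separation of the bad points
-/

set_option autoImplicit false

open Topology Filter Metric Polynomial

noncomputable section

namespace Pool.Agent.H41.LR

theorem log_bound {x c : ℝ} (h1 : Real.exp (-c) ≤ x) (h2 : x ≤ Real.exp c) : |Real.log x| ≤ c := by
  have hx : 0 < x := (Real.exp_pos _).trans_le h1
  rw [abs_le]
  constructor
  · have h3 := Real.log_le_log (Real.exp_pos _) h1
    rwa [Real.log_exp] at h3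
  · have h3 := Real.log_le_log hx h2
    rwa [Real.log_exp] at h3

/-- one linear factor -/
theorem lin_grow (r : ℂ) {W₀ : ℝ} (hW₀ : 0 ≤ W₀) (hr : r ≠ 0 → |Real.log ‖r‖| + 1 ≤ W₀) {z : ℂ} (hz : W₀ ≤ |z.re|) :
    |Real.log ‖Complex.exp z - r‖| ≤ (W₀ + 2) * (1 + ‖z‖) := by
  have hzr : |z.re| ≤ ‖z‖ := Complex.abs_re_le_norm z
  have hz0 : 0 ≤ ‖z‖ := norm_nonneg z
  by_cases h0 : r = 0
  · rw [h0, sub_zero, Complex.norm_exp, Real.log_exp]
    nlinarith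
  have hr' := hr h0
  have hr0 : 0 < ‖r‖ := norm_pos_iff.2 h0
  set l : ℝ := Real.log ‖r‖ with hl
  have hlr : ‖r‖ = Real.exp l := (Real.exp_log hr0).symm
  have he2 : (2 : ℝ) ≤ Real.exp 1 := by
    have := Real.add_one_le_exp (1 : ℝ)
    linarith
  have hem : Real.exp (-1) ≤ 1 / 2 := by
    rw [Real.exp_neg, one_div]
    exact inv_anti₀ two_pos he2
  have hup : ‖Complex.exp z - r‖ ≤ ‖Complex.exp z‖ + ‖r‖ := norm_sub_le _ _
  have hlo1 : ‖Complex.exp z‖ - ‖r‖ ≤ ‖Complex.exp z - r‖ := norm_sub_norm_le _ _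
  have hlo2 : ‖r‖ - ‖Complex.exp z‖ ≤ ‖Complex.exp z - r‖ := by
    rw [norm_sub_rev]
    exact norm_sub_norm_le _ _
  rw [Complex.norm_exp, hlr] at hup hlo1 hlo2
  have hl1 := le_abs_self l
  have hl2 := neg_le_abs l
  have hcW : W₀ + 2 + |z.re| ≤ (W₀ + 2) * (1 + ‖z‖) := by nlinarith
  refine le_trans (log_bound ?_ ?_) hcW
  · -- lower bound
    rcases le_total 0 z.re with h1 | h1
    · rw [abs_of_nonneg h1] at hz ⊢
      -- `exp l ≤ exp (z.re - 1)`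
      have h2 : Real.exp l ≤ Real.exp (z.re - 1) := Real.exp_le_exp.2 (by linarith)
      have h3 : Real.exp (z.re - 1) = Real.exp z.re * Real.exp (-1) := by rw [← Real.exp_add]; ring_nf
      have h4 : 0 < Real.exp z.re := Real.exp_pos _
      have h5 : Real.exp z.re / 2 ≤ ‖Complex.exp z - r‖ := by nlinarith
      have h6 : Real.exp (-(W₀ + 2 + z.re)) ≤ Real.exp (z.re - 1) := Real.exp_le_exp.2 (by linarith)
      have h7 : Real.exp (z.re - 1) ≤ Real.exp z.re / 2 := by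
        rw [h3]
        nlinarith
      linarith
    · rw [abs_of_nonpos h1] at hz ⊢
      have h2 : Real.exp z.re ≤ Real.exp (l - 1) := Real.exp_le_exp.2 (by linarith)
      have h3 : Real.exp (l - 1) = Real.exp l * Real.exp (-1) := by rw [← Real.exp_add]; ring_nf
      have h4 : 0 < Real.exp l := Real.exp_pos _
      have h5 : Real.exp l / 2 ≤ ‖Complex.exp z - r‖ := by nlinarith
      have h6 : Real.exp (-(W₀ + 2 + -z.re)) ≤ Real.exp (l - 1) := Real.exp_le_exp.2 (by linarith)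
      have h7 : Real.exp (l - 1) ≤ Real.exp l / 2 := by
        rw [h3]
        nlinarith
      linarith
  · have hm : Real.exp z.re ≤ Real.exp (W₀ + 1 + |z.re|) := Real.exp_le_exp.2 (by linarith [le_abs_self z.re])
    have hm2 : Real.exp l ≤ Real.exp (W₀ + 1 + |z.re|) := Real.exp_le_exp.2 (by linarith [abs_nonneg z.re])
    have h3 : Real.exp (W₀ + 2 + |z.re|) = Real.exp (W₀ + 1 + |z.re|) * Real.exp 1 := by rw [← Real.exp_add]; ring_nf
    have h4 : 0 < Real.exp (W₀ + 1 + |z.re|) := Real.exp_pos _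
    rw [h3]
    nlinarith

/-- a polynomial -/
theorem poly_grow {W₀ : ℝ} (hW₀ : 0 ≤ W₀) (n : ℕ) : ∀ P : ℂ[X], P.natDegree = n → P ≠ 0 → (∀ r, P.IsRoot r → r ≠ 0 → |Real.log ‖r‖| + 1 ≤ W₀) →
    ∃ M : ℝ, 0 ≤ M ∧ ∀ z : ℂ, W₀ ≤ |z.re| → P.eval (Complex.exp z) ≠ 0 → |Real.log ‖P.eval (Complex.exp z)‖| ≤ M * (1 + ‖z‖) := by
  induction n with
  | zero =>
    intro P hP hP0 _
    rw [Polynomial.natDegree_eq_zero] at hP
    obtain ⟨a, rfl⟩ := hP
    refine ⟨|Real.log ‖a‖|, abs_nonneg _, fun z _ _ => ?_⟩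
    rw [eval_C]
    have h1 : 0 ≤ ‖z‖ := norm_nonneg z
    nlinarith [abs_nonneg (Real.log ‖a‖)]
  | succ n ih =>
    intro P hP hP0 hroot
    have hdeg : P.degree ≠ 0 := by
      rw [Polynomial.degree_eq_natDegree hP0, hP]
      exact_mod_cast n.succ_ne_zero
    obtain ⟨r, hr⟩ := IsAlgClosed.exists_root P hdeg
    obtain ⟨Q, hQ⟩ := Polynomial.dvd_iff_isRoot.2 hr
    have hQ0 : Q ≠ 0 := by
      intro h
      rw [h, mul_zero] at hQ
      exact hP0 hQ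
    have hQd : Q.natDegree = n := by
      have h1 : P.natDegree = 1 + Q.natDegree := by
        rw [hQ, Polynomial.natDegree_mul (Polynomial.X_sub_C_ne_zero r) hQ0, Polynomial.natDegree_X_sub_C]
      omega
    obtain ⟨M, hM, h1⟩ := ih Q hQd hQ0 (by
      intro s hs hs0
      refine hroot s ?_ hs0
      rw [hQ]
      exact Polynomial.IsRoot.def.2 (by rw [eval_mul, hs.eq_zero, mul_zero]))
    refine ⟨W₀ + 2 + M, by linarith, fun z hz hne => ?_⟩
    have h2 : P.eval (Complex.exp z) = (Complex.exp z - r) * Q.eval (Complex.exp z) := by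
      rw [hQ, eval_mul, eval_sub, eval_X, eval_C]
    rw [h2] at hne ⊢
    obtain ⟨h3, h4⟩ := mul_ne_zero_iff.1 hne
    rw [norm_mul, Real.log_mul (norm_ne_zero_iff.2 h3) (norm_ne_zero_iff.2 h4)]
    have h5 := lin_grow r hW₀ (fun h0 => hroot r hr h0) hz
    have h6 := h1 z hz h4
    calc |Real.log ‖Complex.exp z - r‖ + Real.log ‖Q.eval (Complex.exp z)‖| ≤ |Real.log ‖Complex.exp z - r‖| + |Real.log ‖Q.eval (Complex.exp z)‖| :=
          abs_add_le _ _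
      _ ≤ (W₀ + 2) * (1 + ‖z‖) + M * (1 + ‖z‖) := add_le_add h5 h6
      _ = (W₀ + 2 + M) * (1 + ‖z‖) := by ring

/-- separation of the bad points -/
theorem exists_sep {B₁ : Set ℂ} (hB : B₁.Finite) : ∃ δ : ℝ, 0 < δ ∧ δ ≤ 1 / 8 ∧ ∀ b b' : ℂ, Complex.exp b ∈ B₁ → Complex.exp b' ∈ B₁ → b ≠ b' → 8 * δ ≤ ‖b - b'‖ := by
  -- a bound and a separation constant of the finite set
  obtain ⟨M, hM0, hM⟩ : ∃ M : ℝ, 0 < M ∧ ∀ x ∈ B₁, ‖x‖ ≤ M := by
    obtain ⟨M, hM⟩ := hB.isBounded.exists_norm_le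
    exact ⟨|M| + 1, by positivity, fun x hx => (hM x hx).trans (by linarith [le_abs_self M])⟩
  obtain ⟨η, hη0, hη⟩ : ∃ η : ℝ, 0 < η ∧ ∀ x ∈ B₁, ∀ y ∈ B₁, x ≠ y → η ≤ ‖x - y‖ := by
    have h1 : ((fun q : ℂ × ℂ => ‖q.1 - q.2‖) '' {q | q.1 ∈ B₁ ∧ q.2 ∈ B₁ ∧ q.1 ≠ q.2}).Finite := by
      refine Set.Finite.image _ ((hB.prod hB).subset ?_)
      rintro q ⟨h1, h2, -⟩
      exact ⟨h1, h2⟩
    rcases ((fun q : ℂ × ℂ => ‖q.1 - q.2‖) '' {q | q.1 ∈ B₁ ∧ q.2 ∈ B₁ ∧ q.1 ≠ q.2}).eq_empty_or_nonempty with he | hn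
    · refine ⟨1, one_pos, fun x hx y hy hxy => ?_⟩
      exfalso
      have h2 : ‖x - y‖ ∈ ((fun q : ℂ × ℂ => ‖q.1 - q.2‖) '' {q | q.1 ∈ B₁ ∧ q.2 ∈ B₁ ∧ q.1 ≠ q.2}) := ⟨(x, y), ⟨hx, hy, hxy⟩, rfl⟩
      rw [he] at h2
      exact h2
    · obtain ⟨m, hm, hmin⟩ := h1.exists_minimal hn
      obtain ⟨q, ⟨hq1, hq2, hq3⟩, rfl⟩ := hm
      refine ⟨‖q.1 - q.2‖, norm_pos_iff.2 (sub_ne_zero.2 hq3), fun x hx y hy hxy => ?_⟩
      have h2 : ‖x - y‖ ∈ ((fun q : ℂ × ℂ => ‖q.1 - q.2‖) '' {q | q.1 ∈ B₁ ∧ q.2 ∈ B₁ ∧ q.1 ≠ q.2}) := ⟨(x, y), ⟨hx, hy, hxy⟩, rfl⟩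
      rcases le_total ‖q.1 - q.2‖ ‖x - y‖ with h3 | h3
      · exact h3
      · exact hmin h2 h3
  refine ⟨min (1 / 8) (η / (16 * M)), by positivity, min_le_left _ _, fun b b' hb hb' hne => ?_⟩
  have hδ1 : 8 * min (1 / 8) (η / (16 * M)) ≤ 1 := by
    have := min_le_left (1 / 8) (η / (16 * M))
    linarith
  have hδ2 : 8 * min (1 / 8) (η / (16 * M)) ≤ η / (2 * M) := by
    have h1 := min_le_right (1 / 8) (η / (16 * M))
    have h2 : 8 * (η / (16 * M)) = η / (2 * M) := by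
      field_simp
      ring
    linarith
  by_contra hlt
  push Not at hlt
  have h1 : ‖b - b'‖ ≤ 1 := by linarith
  by_cases he : Complex.exp b = Complex.exp b'
  · obtain ⟨n, hn⟩ := Complex.exp_eq_exp_iff_exists_int.1 he
    have hn0 : n ≠ 0 := by
      intro h0
      apply hne
      rw [hn, h0]
      simp
    have h2 : b - b' = n * (2 * Real.pi * Complex.I) := by
      rw [hn]
      ring
    have h3 : ‖b - b'‖ = |(n : ℝ)| * (2 * Real.pi) := by
      rw [h2, norm_mul, norm_mul, Complex.norm_I, mul_one, norm_mul, Complex.norm_real, Real.norm_eq_abs, abs_of_pos Real.pi_pos]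
      congr 1
      · rw [← Complex.ofReal_intCast, Complex.norm_real, Real.norm_eq_abs]
      · simp
    have h4 : (1 : ℝ) ≤ |(n : ℝ)| := by
      rw [← Int.cast_abs]
      exact_mod_cast Int.one_le_abs hn0
    have h5 := Real.pi_gt_three
    rw [h3] at h1
    nlinarith
  · have h2 := hη _ hb _ hb' he
    have h3 : Complex.exp b - Complex.exp b' = Complex.exp b' * (Complex.exp (b - b') - 1) := by
      rw [mul_sub, ← Complex.exp_add, add_sub_cancel, mul_one]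
    rw [h3, norm_mul] at h2
    have h4 := Complex.norm_exp_sub_one_le h1
    have h5 := hM _ hb'
    have h6 : ‖Complex.exp b'‖ * ‖Complex.exp (b - b') - 1‖ ≤ M * (2 * ‖b - b'‖) :=
      mul_le_mul h5 h4 (norm_nonneg _) hM0.le
    have h7 : ‖b - b'‖ < η / (2 * M) := by linarith
    rw [lt_div_iff₀ (by positivity)] at h7
    nlinarith

/-- real parts of the bad points -/
theorem exists_re {B₁ : Set ℂ} (hB : B₁.Finite) : ∃ W : ℝ, 0 < W ∧ ∀ b : ℂ, Complex.exp b ∈ B₁ → |b.re| ≤ W := by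
  have h1 : ((fun x : ℂ => |Real.log ‖x‖|) '' B₁).Finite := hB.image _
  obtain ⟨W, hW⟩ := h1.bddAbove
  refine ⟨|W| + 1, by positivity, fun b hb => ?_⟩
  have h2 := hW ⟨_, hb, rfl⟩
  have h3 : |Real.log ‖Complex.exp b‖| ≤ W := h2
  rw [Complex.norm_exp, Real.log_exp] at h3
  linarith [le_abs_self W]

end Pool.Agent.H41.LR
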