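import Pool.Agent.H62.LR.Defs
import Pool.Agent.H41.LR.Gr

/-!
# LR Bd: the hypotheses `BaseD` in the two cases
-/

set_option autoImplicit false

open Topology Filter Metric

noncomputable section

namespace Pool.Agent.H41.LR

open Pool.Agent.H62.LR (BaseD Tm)

/-- the bad points -/
def Bp (B₁ : Set ℂ) : Set ℂ := {z | Complex.exp z ∈ B₁}

/-- the section -/
def Ls (p q : Polynomial ℂ) (z : ℂ) : ℂ := p.eval (Complex.exp z) / q.eval (Complex.exp z)

theorem exp_add_per (z : ℂ) (l : ℤ) : Complex.exp (z + ((2 * Real.pi : ℝ) : ℂ) * l * Complex.I) = Complex.exp z := by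
  rw [Complex.exp_eq_exp_iff_exists_int]
  refine ⟨l, ?_⟩
  push_cast
  ring

theorem an_poly (p : Polynomial ℂ) (z : ℂ) : AnalyticAt ℂ (fun z => p.eval (Complex.exp z)) z := by
  have h1 : Differentiable ℂ fun z : ℂ => p.eval (Complex.exp z) := p.differentiable.comp Complex.differentiable_exp
  exact h1.analyticAt z

theorem exists_base {B₁ : Set ℂ} (hB : B₁.Finite) : ∃ δ W₀ : ℝ, 0 < δ ∧ δ ≤ 1 / 8 ∧ 0 < W₀ ∧ (∀ b ∈ Bp B₁, ∀ b' ∈ Bp B₁, b ≠ b' → 8 * δ ≤ ‖b - b'‖) ∧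
    ∀ b ∈ Bp B₁, |b.re| + 1 ≤ W₀ := by
  obtain ⟨δ, hδ, hδ1, h1⟩ := exists_sep hB
  obtain ⟨W, hW, h2⟩ := exists_re hB
  exact ⟨δ, W + 1, hδ, hδ1, by linarith, fun b hb b' hb' hne => h1 b b' hb hb' hne, fun b hb => by linarith [h2 b hb]⟩

theorem bp_inv {B₁ : Set ℂ} : ∀ b ∈ Bp B₁, ∀ l : ℤ, b + ((2 * Real.pi : ℝ) : ℂ) * l * Complex.I ∈ Bp B₁ := by
  intro b hb l
  show Complex.exp _ ∈ B₁
  rw [exp_add_per]
  exact hb

/-- case (N) -/
theorem baseN {p q : Polynomial ℂ} (hp : p ≠ 0) (hq : q ≠ 0) {B₁ : Set ℂ} (hB : B₁.Finite)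
    (hroot : ∀ x : ℂ, x ≠ 0 → (p.eval x = 0 ∨ q.eval x = 0 ∨ p.eval x = q.eval x) → x ∈ B₁) :
    ∃ δ W : ℝ, BaseD (2 * Real.pi) (Bp B₁) δ W {Ls p q} ∅ {0, 1} := by
  obtain ⟨δ, W₀, hδ, hδ1, hW₀, h1, h2⟩ := exists_base hB
  have hgood : ∀ z, z ∉ Bp B₁ → p.eval (Complex.exp z) ≠ 0 ∧ q.eval (Complex.exp z) ≠ 0 ∧ p.eval (Complex.exp z) ≠ q.eval (Complex.exp z) := by
    intro z hz
    have h3 : ¬ (p.eval (Complex.exp z) = 0 ∨ q.eval (Complex.exp z) = 0 ∨ p.eval (Complex.exp z) = q.eval (Complex.exp z)) :=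
      fun h4 => hz (hroot _ (Complex.exp_ne_zero z) h4)
    push Not at h3
    exact h3
  have hgrow : ∀ P : Polynomial ℂ, P ≠ 0 → (∀ x : ℂ, x ≠ 0 → P.eval x = 0 → x ∈ B₁) → ∃ M : ℝ, 0 ≤ M ∧ ∀ z : ℂ, W₀ ≤ |z.re| →
      P.eval (Complex.exp z) ≠ 0 → |Real.log ‖P.eval (Complex.exp z)‖| ≤ M * (1 + ‖z‖) := by
    intro P hP hPr
    refine poly_grow hW₀.le P.natDegree P rfl hP fun r hr hr0 => ?_
    have h3 : Complex.log r ∈ Bp B₁ := by
      show Complex.exp (Complex.log r) ∈ B₁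
      rw [Complex.exp_log hr0]
      exact hPr r hr0 hr
    have h4 := h2 _ h3
    rwa [Complex.log_re] at h4
  obtain ⟨M₁, hM₁, hg₁⟩ := hgrow p hp fun x hx h3 => hroot x hx (Or.inl h3)
  obtain ⟨M₂, hM₂, hg₂⟩ := hgrow q hq fun x hx h3 => hroot x hx (Or.inr (Or.inl h3))
  refine ⟨δ, W₀ + 1, ?_⟩
  refine
    { p_pos := by positivity
      δ_pos := hδ
      W_pos := by linarith
      B_inv := bp_inv
      B_sep := h1
      B_re := fun b hb => by linarith [h2 b hb]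
      sub := Set.subsingleton_singleton
      L_an := ?_
      L_mer := ?_
      L_per := ?_
      L_grow := ?_
      C_sub := Set.empty_subset _
      C_inv := fun b hb => absurd hb (Set.notMem_empty b)
      A_fin := (Set.finite_singleton _).insert _
      A_zero := Set.mem_insert _ _
      A_one := Set.mem_insert_of_mem _ (Set.mem_singleton _) }
  · intro L hL z hz
    rw [Set.mem_singleton_iff] at hL
    subst hL
    obtain ⟨h3, h4, h5⟩ := hgood z hz
    refine ⟨(an_poly p z).div (an_poly q z) h4, div_ne_zero h3 h4, ?_⟩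
    show p.eval (Complex.exp z) / q.eval (Complex.exp z) ≠ 1
    intro h6
    rw [div_eq_one_iff_eq h4] at h6
    exact h5 h6
  · intro L hL z
    rw [Set.mem_singleton_iff] at hL
    subst hL
    exact (an_poly p z).meromorphicAt.div (an_poly q z).meromorphicAt
  · intro L hL z
    rw [Set.mem_singleton_iff] at hL
    subst hL
    have h3 := exp_add_per z 1
    rw [Int.cast_one, mul_one] at h3
    show p.eval (Complex.exp (z + _)) / q.eval (Complex.exp (z + _)) = _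
    rw [h3]
    rfl
  · intro L hL
    rw [Set.mem_singleton_iff] at hL
    subst hL
    refine ⟨M₁ + M₂, by linarith, fun z hz => ?_⟩
    have hz' : W₀ ≤ |z.re| := by linarith
    have hzB : z ∉ Bp B₁ := by
      intro h3
      have h4 := h2 z h3
      linarith
    obtain ⟨h3, h4, -⟩ := hgood z hzB
    show |Real.log ‖p.eval (Complex.exp z) / q.eval (Complex.exp z)‖| ≤ _
    rw [norm_div, Real.log_div (norm_ne_zero_iff.2 h3) (norm_ne_zero_iff.2 h4)]
    calc |Real.log ‖p.eval (Complex.exp z)‖ - Real.log ‖q.eval (Complex.exp z)‖|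
        ≤ |Real.log ‖p.eval (Complex.exp z)‖| + |Real.log ‖q.eval (Complex.exp z)‖| := abs_sub _ _
      _ ≤ M₁ * (1 + ‖z‖) + M₂ * (1 + ‖z‖) := add_le_add (hg₁ z hz' h3) (hg₂ z hz' h4)
      _ = (M₁ + M₂) * (1 + ‖z‖) := by ring

/-- case (I) -/
theorem baseI {B₁ : Set ℂ} (hB : B₁.Finite) {c : ℂ} (hc : c ∈ B₁) {A : Set ℂ} (hA : A.Finite) (hA0 : (0 : ℂ) ∈ A) (hA1 : (1 : ℂ) ∈ A) :
    ∃ δ W : ℝ, BaseD (2 * Real.pi) (Bp B₁) δ W ∅ (Bp {c}) A := by
  obtain ⟨δ, W₀, hδ, hδ1, hW₀, h1, h2⟩ := exists_base hB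
  refine ⟨δ, W₀ + 1, ?_⟩
  exact
    { p_pos := by positivity
      δ_pos := hδ
      W_pos := by linarith
      B_inv := bp_inv
      B_sep := h1
      B_re := fun b hb => by linarith [h2 b hb]
      sub := Set.subsingleton_empty
      L_an := fun L hL => absurd hL (Set.notMem_empty L)
      L_mer := fun L hL => absurd hL (Set.notMem_empty L)
      L_per := fun L hL => absurd hL (Set.notMem_empty L)
      L_grow := fun L hL => absurd hL (Set.notMem_empty L)
      C_sub := by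
        intro z hz
        have h3 : Complex.exp z = c := hz
        show Complex.exp z ∈ B₁
        rw [h3]
        exact hc
      C_inv := bp_inv
      A_fin := hA
      A_zero := hA0
      A_one := hA1 }

end Pool.Agent.H41.LR
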