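import Pool.Agent.H87.LU.Defs

/-!
# LR Br: a branch of the inverse of a quadratic polynomial on a half plane; the complement of the bad points is connected
-/

set_option autoImplicit false

open Topology Filter Metric

noncomputable section

namespace Pool.Agent.H41.LR

open Pool.Agent.H87.LU (HP)

theorem isOpen_HP1 (ρ : ℝ) : IsOpen (HP 1 ρ) := by
  have h1 : HP 1 ρ = {z : ℂ | ρ < 1 * z.im} := rfl
  rw [h1]
  exact isOpen_lt continuous_const (continuous_const.mul Complex.continuous_im)

/-- a branch of the inverse function -/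
theorem exists_branch {a b c : ℂ} (hab : a ≠ 0 ∨ b ≠ 0) : ∃ (ρ : ℝ) (ψ : ℂ → ℂ), DifferentiableOn ℂ ψ (HP 1 ρ) ∧
    ∀ ζ ∈ HP 1 ρ, a * ψ ζ ^ 2 + b * ψ ζ + c = ζ := by
  by_cases ha : a = 0
  · subst ha
    have hb : b ≠ 0 := hab.resolve_left (fun h => h rfl)
    refine ⟨0, fun ζ => (ζ - c) / b, ((differentiable_id.sub_const c).div_const b).differentiableOn, fun ζ _ => ?_⟩
    show 0 * ((ζ - c) / b) ^ 2 + b * ((ζ - c) / b) + c = ζ
    rw [mul_div_cancel₀ _ hb]
    ring
  · obtain ⟨α, hα⟩ : ∃ α : ℂ, α * α = a := by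
      obtain ⟨α, hα⟩ := IsAlgClosed.exists_eq_mul_self a
      exact ⟨α, hα.symm⟩
    have hα0 : α ≠ 0 := by
      intro h
      rw [h, mul_zero] at hα
      exact ha hα.symm
    set d : ℂ := c - b ^ 2 / (4 * a) with hd
    have hsl : ∀ ζ ∈ HP 1 d.im, ζ - d ∈ Complex.slitPlane := by
      intro ζ hζ
      have h1 : d.im < 1 * ζ.im := hζ
      rw [Complex.mem_slitPlane_iff]
      right
      rw [Complex.sub_im]
      intro h2
      linarith
    refine ⟨d.im, fun ζ => -b / (2 * a) + Complex.exp (Complex.log (ζ - d) / 2) / α, ?_, ?_⟩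
    · intro ζ hζ
      have h1 : DifferentiableAt ℂ (fun ζ => Complex.log (ζ - d)) ζ := (differentiableAt_id.sub_const d).clog (hsl ζ hζ)
      exact (((h1.div_const 2).cexp.div_const α).const_add (-b / (2 * a))).differentiableWithinAt
    · intro ζ hζ
      set s : ℂ := Complex.exp (Complex.log (ζ - d) / 2) with hs
      have h2 : s * s = ζ - d := by
        rw [hs, ← Complex.exp_add, add_halves, Complex.exp_log (Complex.slitPlane_ne_zero (hsl ζ hζ))]
      show a * (-b / (2 * a) + s / α) ^ 2 + b * (-b / (2 * a) + s / α) + c = ζ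
      have h3 : a * (s / α) ^ 2 = s * s := by
        rw [← hα]
        field_simp
      have h4 : a * (-b / (2 * a) + s / α) ^ 2 + b * (-b / (2 * a) + s / α) + c = a * (s / α) ^ 2 + (c - b ^ 2 / (4 * a)) := by
        field_simp
        ring
      rw [h4, h3, h2, ← hd]
      ring

theorem countable_bad {B₀ : Set ℂ} (hB₀ : B₀.Finite) : {z : ℂ | Complex.exp z ∈ B₀}.Countable := by
  have h1 : {z : ℂ | Complex.exp z ∈ B₀} ⊆ ⋃ b ∈ B₀, ⋃ n : ℤ, {Complex.log b + n * (2 * Real.pi * Complex.I)} := by
    intro z hz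
    simp only [Set.mem_iUnion]
    refine ⟨Complex.exp z, hz, ?_⟩
    have h2 : Complex.exp z = Complex.exp (Complex.log (Complex.exp z)) := (Complex.exp_log (Complex.exp_ne_zero z)).symm
    obtain ⟨n, hn⟩ := Complex.exp_eq_exp_iff_exists_int.1 h2
    exact ⟨n, hn⟩
  refine Set.Countable.mono h1 (hB₀.countable.biUnion fun b _ => Set.countable_iUnion fun n => Set.countable_singleton _)

/-- the preimage of a countable set under a nonconstant polynomial of degree at most two is countable -/
theorem countable_quad {a b c : ℂ} (hab : a ≠ 0 ∨ b ≠ 0) {T : Set ℂ} (hT : T.Countable) : {z : ℂ | a * z ^ 2 + b * z + c ∈ T}.Countable := by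
  have h1 : {z : ℂ | a * z ^ 2 + b * z + c ∈ T} ⊆ ⋃ t ∈ T, {z : ℂ | a * z ^ 2 + b * z + c = t} := by
    intro z hz
    simp only [Set.mem_iUnion]
    exact ⟨_, hz, rfl⟩
  refine Set.Countable.mono h1 (hT.biUnion fun t _ => Set.Finite.countable ?_)
  set P : Polynomial ℂ := Polynomial.C a * Polynomial.X ^ 2 + Polynomial.C b * Polynomial.X + Polynomial.C (c - t) with hP
  have hP0 : P ≠ 0 := by
    intro h
    have h2 : P.coeff 2 = a := by
      rw [hP]
      simp [Polynomial.coeff_X, Polynomial.coeff_C]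
    have h3 : P.coeff 1 = b := by
      rw [hP]
      simp [Polynomial.coeff_X, Polynomial.coeff_C]
    rw [h, Polynomial.coeff_zero] at h2 h3
    rcases hab with h4 | h4
    · exact h4 h2.symm
    · exact h4 h3.symm
  refine (P.rootSet_finite ℂ).subset ?_
  intro z hz
  rw [Polynomial.mem_rootSet]
  refine ⟨hP0, ?_⟩
  rw [hP]
  simp only [map_add, map_mul, map_pow, Polynomial.aeval_C, Polynomial.aeval_X, Algebra.algebraMap_self, RingHom.id_apply, map_sub]
  have h2 : a * z ^ 2 + b * z + c = t := hz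
  linear_combination h2

/-- the complement of a countable closed set -/
theorem preconn_of_countable {T : Set ℂ} (hT : T.Countable) : IsPreconnected Tᶜ :=
  (hT.isPathConnected_compl_of_one_lt_rank (by rw [Complex.rank_real_complex]; norm_num)).isConnected.isPreconnected

theorem dense_of_countable {T : Set ℂ} (hT : T.Countable) : Dense Tᶜ := hT.dense_compl ℂ

end Pool.Agent.H41.LR
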