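import Mathlib

/-!
# LR Defs: Schottky's theorem as a hypothesis
-/

set_option autoImplicit false

open Topology Filter Metric

noncomputable section

namespace Pool.Agent.H41.LR

/-- `f` omits the values `0`, `1` on `U`. -/
def Om (f : ℂ → ℂ) (U : Set ℂ) : Prop := ∀ w ∈ U, f w ≠ 0 ∧ f w ≠ 1

/-- Schottky's theorem (as a statement). -/
def Schottky : Prop := ∀ M : ℝ, ∃ S : ℝ, ∀ (f : ℂ → ℂ) (z : ℂ) (r : ℝ), 0 < r → DifferentiableOn ℂ f (ball z r) → Om f (ball z r) →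
  ‖f z‖ ≤ M → ∀ w ∈ closedBall z (r / 2), ‖f w‖ ≤ S

theorem Om.mono {f : ℂ → ℂ} {U V : Set ℂ} (h : Om f U) (hV : V ⊆ U) : Om f V := fun w hw => h w (hV hw)

theorem Om.inv {f : ℂ → ℂ} {U : Set ℂ} (h : Om f U) : Om (fun w => (f w)⁻¹) U := by
  intro w hw
  obtain ⟨h1, h2⟩ := h w hw
  exact ⟨inv_ne_zero h1, fun h3 => h2 (inv_eq_one.1 h3)⟩

theorem Om.one_sub {f : ℂ → ℂ} {U : Set ℂ} (h : Om f U) : Om (fun w => 1 - f w) U := by
  intro w hw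
  obtain ⟨h1, h2⟩ := h w hw
  refine ⟨fun h3 => h2 (sub_eq_zero.1 h3).symm, fun h3 => h1 ?_⟩
  have h3' : 1 - f w = 1 := h3
  linear_combination -h3'

theorem Om.diff_inv {f : ℂ → ℂ} {U : Set ℂ} (h : Om f U) (hf : DifferentiableOn ℂ f U) : DifferentiableOn ℂ (fun w => (f w)⁻¹) U :=
  hf.inv fun w hw => (h w hw).1

end Pool.Agent.H41.LR
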