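import Mathlib

/-!
# LR Dep: algebraic dependence of `t ^ k` and `P (t) / Q (t)`
-/

set_option autoImplicit false

open Polynomial

noncomputable section

namespace Pool.Agent.H41.LR

/-- `t ^ k` and `P / Q` are algebraically dependent. -/
theorem exists_dep (P Q : ℂ[X]) {k : ℕ} (hk : 0 < k) : ∃ Φ : MvPolynomial (Fin 2) ℂ, Φ ≠ 0 ∧
    ∀ t : ℂ, Q.eval t ≠ 0 → MvPolynomial.eval ![t ^ k, P.eval t / Q.eval t] Φ = 0 := by
  classical
  set D : ℕ := max P.natDegree Q.natDegree with hD
  set A : ℕ := k * D + 1 with hA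
  set n : ℕ := k * A + k * D + 1 with hn
  -- the monomials
  let m : Fin (A + 1) × Fin (k + 1) → ℂ[X] := fun ij => X ^ (k * ij.1.1) * P ^ ij.2.1 * Q ^ (k - ij.2.1)
  have hm : ∀ ij, m ij ∈ degreeLT ℂ n := by
    intro ij
    rw [mem_degreeLT]
    refine (degree_le_natDegree).trans_lt ?_
    rw [Nat.cast_withBot, Nat.cast_withBot, WithBot.coe_lt_coe]
    have h1 : (m ij).natDegree ≤ k * ij.1.1 + ij.2.1 * P.natDegree + (k - ij.2.1) * Q.natDegree := by
      refine natDegree_mul_le.trans (add_le_add (natDegree_mul_le.trans (add_le_add ?_ natDegree_pow_le)) natDegree_pow_le)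
      rw [natDegree_X_pow]
    have h2 : ij.1.1 ≤ A := Nat.lt_succ_iff.1 ij.1.2
    have h3 : ij.2.1 ≤ k := Nat.lt_succ_iff.1 ij.2.2
    have h4 : ij.2.1 * P.natDegree + (k - ij.2.1) * Q.natDegree ≤ k * D := by
      calc ij.2.1 * P.natDegree + (k - ij.2.1) * Q.natDegree ≤ ij.2.1 * D + (k - ij.2.1) * D :=
            add_le_add (Nat.mul_le_mul_left _ (le_max_left _ _)) (Nat.mul_le_mul_left _ (le_max_right _ _))
        _ = k * D := by rw [← add_mul, Nat.add_sub_of_le h3]
    have h5 : k * ij.1.1 ≤ k * A := Nat.mul_le_mul_left _ h2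
    omega
  let L : (Fin (A + 1) × Fin (k + 1) → ℂ) →ₗ[ℂ] degreeLT ℂ n :=
    { toFun := fun c => ∑ ij, c ij • ⟨m ij, hm ij⟩
      map_add' := by
        intro c c'
        rw [← Finset.sum_add_distrib]
        exact Finset.sum_congr rfl fun ij _ => add_smul _ _ _
      map_smul' := by
        intro a c
        rw [RingHom.id_apply, Finset.smul_sum]
        exact Finset.sum_congr rfl fun ij _ => by rw [Pi.smul_apply, smul_smul, smul_eq_mul] }
  have hrank : Module.finrank ℂ (degreeLT ℂ n) = n := by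
    rw [LinearEquiv.finrank_eq (degreeLTEquiv ℂ n), Module.finrank_fin_fun]
  have hlt : Module.finrank ℂ (degreeLT ℂ n) < Module.finrank ℂ (Fin (A + 1) × Fin (k + 1) → ℂ) := by
    rw [hrank, Module.finrank_fintype_fun_eq_card, Fintype.card_prod, Fintype.card_fin, Fintype.card_fin]
    have h1 : (A + 1) * (k + 1) = A * k + A + k + 1 := by ring
    rw [h1, hn, mul_comm k A]
    omega
  have : FiniteDimensional ℂ (degreeLT ℂ n) := Module.Finite.equiv (degreeLTEquiv ℂ n).symm
  have hker : LinearMap.ker L ≠ ⊥ := LinearMap.ker_ne_bot_of_finrank_lt hlt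
  obtain ⟨c, hc, hc0⟩ := (Submodule.ne_bot_iff _).1 hker
  rw [LinearMap.mem_ker] at hc
  have hc' : ∑ ij, c ij • m ij = 0 := by
    have h1 := congrArg (Subtype.val) hc
    have h2 : ((∑ ij, c ij • (⟨m ij, hm ij⟩ : degreeLT ℂ n) : degreeLT ℂ n) : ℂ[X]) = 0 := h1
    rw [AddSubmonoidClass.coe_finsetSum] at h2
    exact h2
  -- the polynomial
  let e : Fin (A + 1) × Fin (k + 1) → (Fin 2 →₀ ℕ) := fun ij => Finsupp.single 0 ij.1.1 + Finsupp.single 1 ij.2.1
  have he : Function.Injective e := by
    intro x y hxy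
    have h0 := DFunLike.congr_fun hxy 0
    have h1 := DFunLike.congr_fun hxy 1
    simp only [e, Finsupp.coe_add, Pi.add_apply, Finsupp.single_eq_same] at h0 h1
    rw [Finsupp.single_eq_of_ne (by decide), Finsupp.single_eq_of_ne (by decide)] at h0 h1
    refine Prod.ext (Fin.ext ?_) (Fin.ext ?_)
    · simpa using h0
    · simpa using h1
  refine ⟨∑ ij, MvPolynomial.monomial (e ij) (c ij), ?_, ?_⟩
  · intro h0
    apply hc0
    funext ij
    have h1 := congrArg (MvPolynomial.coeff (e ij)) h0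
    rw [MvPolynomial.coeff_sum, MvPolynomial.coeff_zero, Finset.sum_eq_single ij] at h1
    · rwa [MvPolynomial.coeff_monomial, if_pos rfl] at h1
    · intro x _ hx
      rw [MvPolynomial.coeff_monomial, if_neg (fun h => hx (he h))]
    · intro h
      exact absurd (Finset.mem_univ _) h
  · intro t ht
    have h1 := congrArg (Polynomial.eval t) hc'
    rw [Polynomial.eval_finsetSum, Polynomial.eval_zero] at h1
    have h2 : MvPolynomial.eval ![t ^ k, P.eval t / Q.eval t] (∑ ij, MvPolynomial.monomial (e ij) (c ij)) * (Q.eval t) ^ k = 0 := by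
      rw [map_sum, Finset.sum_mul, ← h1]
      refine Finset.sum_congr rfl fun ij _ => ?_
      have h3 : ij.2.1 ≤ k := Nat.lt_succ_iff.1 ij.2.2
      obtain ⟨d, hd⟩ := Nat.exists_eq_add_of_le h3
      rw [MvPolynomial.eval_monomial, Polynomial.eval_smul, smul_eq_mul]
      simp only [m, e, Polynomial.eval_mul, Polynomial.eval_pow, Polynomial.eval_X]
      rw [Finsupp.prod_add_index' (by simp) (by intro a b c; exact pow_add _ _ _), Finsupp.prod_single_index (by simp),
        Finsupp.prod_single_index (by simp)]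
      simp only [Matrix.cons_val_zero, Matrix.cons_val_one, Matrix.cons_val_fin_one]
      have h4 : k - ij.2.1 = d := by omega
      have h5 : (Q.eval t) ^ k = (Q.eval t) ^ ij.2.1 * (Q.eval t) ^ d := by
        rw [← pow_add, ← hd]
      rw [h4, h5, div_pow, ← pow_mul]
      field_simp
    exact (mul_eq_zero.1 h2).resolve_right (pow_ne_zero _ ht)

end Pool.Agent.H41.LR
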