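import Pool.Agent.H41.LR.Mon
import Pool.Agent.H46.LR.OneDefs

/-!
# LR Lim: limits of pairs `(ψ n, g n)`
-/

set_option autoImplicit false

open Topology Filter Metric

noncomputable section

namespace Pool.Agent.H41.LR

open Pool.Agent.H46.LR (OmitsAt OmitsSecAt FinAt Approx)

/-- joint convergence at `x` -/
def Jc (𝒰 : Ultrafilter ℕ) (F : ℕ → ℂ → ℂ) (f : ℂ → ℂ) (x : ℂ) : Prop :=
  Tendsto (fun q : ℕ × ℂ => F q.1 q.2) ((𝒰 : Filter ℕ) ×ˢ 𝓝 x) (𝓝 (f x))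

theorem Jc.at {𝒰 : Ultrafilter ℕ} {F : ℕ → ℂ → ℂ} {f : ℂ → ℂ} {x : ℂ} (h : Jc 𝒰 F f x) : Tendsto (fun n => F n x) 𝒰 (𝓝 (f x)) := by
  have h1 : Tendsto (fun n : ℕ => (n, x)) (𝒰 : Filter ℕ) ((𝒰 : Filter ℕ) ×ˢ 𝓝 x) := tendsto_id.prodMk tendsto_const_nhds
  exact h.comp h1

theorem jc_of_tlu {𝒰 : Ultrafilter ℕ} {F : ℕ → ℂ → ℂ} {f : ℂ → ℂ} {Ω : Set ℂ} (hΩ : IsOpen Ω) (hf : ContinuousOn f Ω)
    (h : TendstoLocallyUniformlyOn F f (𝒰 : Filter ℕ) Ω) {x : ℂ} (hx : x ∈ Ω) : Jc 𝒰 F f x := by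
  unfold Jc
  rw [Metric.tendsto_nhds]
  intro ε hε
  obtain ⟨t, ht, h1⟩ := (Metric.tendstoLocallyUniformlyOn_iff.1 h) (ε / 2) (half_pos hε) x hx
  rw [hΩ.nhdsWithin_eq hx] at ht
  have h2 : ∀ᶠ y in 𝓝 x, dist (f y) (f x) < ε / 2 := (hf.continuousAt (hΩ.mem_nhds hx)).eventually (ball_mem_nhds _ (half_pos hε))
  have h3 : ∀ᶠ y in 𝓝 x, y ∈ t := ht
  filter_upwards [h1.prod_mk (h2.and h3)] with q hq
  have h4 := hq.1 q.2 hq.2.2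
  rw [dist_comm] at h4
  calc dist (F q.1 q.2) (f x) ≤ dist (F q.1 q.2) (f q.2) + dist (f q.2) (f x) := dist_triangle _ _ _
    _ < ε / 2 + ε / 2 := add_lt_add h4 hq.2.1
    _ = ε := add_halves ε

/-- **Hurwitz**, with joint convergence -/
theorem hurJ {𝒰 : Ultrafilter ℕ} {φ : ℕ → ℂ → ℂ} {ψ : ℂ → ℂ} {Ω : Set ℂ} (hΩ : IsOpen Ω) (hc : IsPreconnected Ω)
    (hψ : DifferentiableOn ℂ ψ Ω) (h : ∀ x ∈ Ω, Jc 𝒰 φ ψ x) (hE : EvD 𝒰 φ Ω) :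
    (∀ z ∈ Ω, ψ z = 0) ∨ ∀ z ∈ Ω, ψ z ≠ 0 := by
  have hloc : ∀ z ∈ Ω, ∃ r : ℝ, 0 < r ∧ ball z r ⊆ Ω ∧ ((∀ w ∈ ball z r, ψ w = 0) ∨ ∀ w ∈ ball z r, ψ w ≠ 0) := by
    intro z hz
    obtain ⟨r, hr, h1⟩ := hE z hz
    obtain ⟨s, hs, hsΩ⟩ := Metric.isOpen_iff.1 hΩ z hz
    have hsub : ball z (min r s) ⊆ ball z r := ball_subset_ball (min_le_left _ _)
    have hsub' : ball z (min r s) ⊆ Ω := (ball_subset_ball (min_le_right _ _)).trans hsΩ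
    refine ⟨min r s, lt_min hr hs, hsub', ?_⟩
    refine Pool.Agent.H62.Log.hurwitz 𝒰 (φ := φ) ?_ ?_ (hψ.mono hsub') ?_
    · exact h1.mono fun n hn => hn.1.mono hsub
    · exact h1.mono fun n hn w hw => hn.2 w (hsub hw)
    · intro w w₀ hw₀ hw
      have h2 : Tendsto (fun n : ℕ => (n, w n)) (𝒰 : Filter ℕ) ((𝒰 : Filter ℕ) ×ˢ 𝓝 w₀) := tendsto_id.prodMk hw
      exact (h w₀ (hsub' hw₀)).comp h2
  by_cases hex : ∃ z₀ ∈ Ω, ψ z₀ = 0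
  · obtain ⟨z₀, hz₀, h0⟩ := hex
    left
    refine all_of_clopen (A := {z | ψ z = 0}) hc ?_ ?_ hz₀ h0
    · intro z hz hzA
      obtain ⟨r, hr, -, h1 | h1⟩ := hloc z hz
      · exact mem_of_superset (ball_mem_nhds z hr) h1
      · exact absurd hzA (h1 z (mem_ball_self hr))
    · intro z hz hzA
      exact ((hψ.differentiableAt (hΩ.mem_nhds hz)).continuousAt).eventually_ne hzA
  · right
    push Not at hex
    exact hex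

/-- the value of the normal form -/
theorem nf_value {g : ℂ → ℂ} {z w : ℂ} (hg : MeromorphicNFAt g z) (h : Tendsto g (𝓝[≠] z) (𝓝 w)) : AnalyticAt ℂ g z ∧ g z = w := by
  have h1 := (tendsto_nhds_iff_meromorphicOrderAt_nonneg hg.meromorphicAt).1 ⟨w, h⟩
  have h2 := hg.meromorphicOrderAt_nonneg_iff_analyticAt.1 h1
  exact ⟨h2, tendsto_nhds_unique (h2.continuousAt.tendsto.mono_left nhdsWithin_le_nhds) h⟩

theorem nf_pole {g : ℂ → ℂ} {z : ℂ} (hg : MeromorphicNFAt g z) (h : Tendsto g (𝓝[≠] z) (Bornology.cobounded ℂ)) :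
    AnalyticAt ℂ (fun x => (g x)⁻¹) z ∧ (g z)⁻¹ = 0 := by
  have h1 : Tendsto (fun x => (g x)⁻¹) (𝓝[≠] z) (𝓝 0) := tendsto_inv₀_cobounded.comp h
  have h2 : MeromorphicNFAt (fun x => (g x)⁻¹) z := hg.inv
  exact nf_value h2 h1

/-- limits of pairs -/
structure LimS (𝒰 : Ultrafilter ℕ) (K : (ℂ → ℂ) → (ℂ → ℂ) → ℂ → Prop) (φ g₀ : ℂ → ℂ) (z₀ : ℂ) (r : ℝ) (ψ g : ℕ → ℂ → ℂ) : Prop where
  diff : ∀ R : ℝ, ∀ᶠ n in (𝒰 : Filter ℕ), DifferentiableOn ℂ (ψ n) (ball 0 R)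
  nf : ∀ R : ℝ, ∀ᶠ n in (𝒰 : Filter ℕ), ∀ z ∈ ball (0 : ℂ) R, MeromorphicNFAt (g n) z
  prop : ∀ R : ℝ, ∀ᶠ n in (𝒰 : Filter ℕ), ∀ z ∈ ball (0 : ℂ) R, K (ψ n) (g n) z
  conv : ∀ R ε : ℝ, 0 < ε → ∀ᶠ n in (𝒰 : Filter ℕ), ∀ z ∈ ball (0 : ℂ) R, ‖ψ n z - φ z‖ < ε
  conv₀ : ∀ z ∈ ball z₀ r, ∀ ε : ℝ, 0 < ε → ∀ᶠ n in (𝒰 : Filter ℕ), ∀ᶠ w in 𝓝[≠] z, ‖g n w - g₀ w‖ < ε

theorem exists_limS {K : (ℂ → ℂ) → (ℂ → ℂ) → ℂ → Prop} (hK : ∀ ψ g g' z, g =ᶠ[𝓝[≠] z] g' → K ψ g z → K ψ g' z) {φ g₀ : ℂ → ℂ} {z₀ : ℂ} {r : ℝ}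
    (h : Approx K φ g₀ z₀ r) : ∃ ψ g : ℕ → ℂ → ℂ, LimS (hyperfilter ℕ) K φ g₀ z₀ r ψ g := by
  have h1 : ∀ n : ℕ, ∃ ψ g : ℂ → ℂ, DifferentiableOn ℂ ψ (ball 0 ((n : ℝ) + 1)) ∧ MeromorphicOn g (ball 0 ((n : ℝ) + 1)) ∧
      (∀ z ∈ ball (0 : ℂ) ((n : ℝ) + 1), ‖ψ z - φ z‖ < ((n : ℝ) + 1)⁻¹) ∧ (∀ z ∈ ball z₀ r, ‖g z - g₀ z‖ < ((n : ℝ) + 1)⁻¹) ∧
      ∀ z ∈ ball (0 : ℂ) ((n : ℝ) + 1), K ψ g z := fun n => h ((n : ℝ) + 1) ((n : ℝ) + 1)⁻¹ (by positivity) (by positivity)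
  choose ψ g hψ hg hc hc₀ hKn using h1
  have hR : ∀ R : ℝ, ∀ᶠ n : ℕ in ((hyperfilter ℕ : Ultrafilter ℕ) : Filter ℕ), ball (0 : ℂ) R ⊆ ball 0 ((n : ℝ) + 1) := by
    intro R
    obtain ⟨N, hN⟩ := exists_nat_ge R
    have h4 : ∀ᶠ n in (cofinite : Filter ℕ), N ≤ n := by
      rw [Nat.cofinite_eq_atTop]
      exact eventually_ge_atTop N
    filter_upwards [h4.filter_mono hyperfilter_le_cofinite] with n hn
    refine ball_subset_ball ?_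
    have h5 : (N : ℝ) ≤ n := by exact_mod_cast hn
    linarith
  have hε : ∀ ε : ℝ, 0 < ε → ∀ᶠ n : ℕ in ((hyperfilter ℕ : Ultrafilter ℕ) : Filter ℕ), ((n : ℝ) + 1)⁻¹ < ε := by
    intro ε hε
    obtain ⟨N, hN⟩ := exists_nat_gt ε⁻¹
    have h4 : ∀ᶠ n in (cofinite : Filter ℕ), N ≤ n := by
      rw [Nat.cofinite_eq_atTop]
      exact eventually_ge_atTop N
    filter_upwards [h4.filter_mono hyperfilter_le_cofinite] with n hn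
    refine inv_lt_of_inv_lt₀ hε ?_
    have h5 : (N : ℝ) ≤ n := by exact_mod_cast hn
    linarith
  refine ⟨ψ, fun n => toMeromorphicNFOn (g n) (ball 0 ((n : ℝ) + 1)), ?_, ?_, ?_, ?_, ?_⟩
  · intro R
    filter_upwards [hR R] with n hn
    exact (hψ n).mono hn
  · intro R
    filter_upwards [hR R] with n hn z hz
    exact meromorphicNFOn_toMeromorphicNFOn (g n) (ball 0 ((n : ℝ) + 1)) (hn hz)
  · intro R
    filter_upwards [hR R] with n hn z hz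
    exact hK _ _ _ z ((hg n).toMeromorphicNFOn_eq_self_on_nhdsNE (hn hz)).symm (hKn n z (hn hz))
  · intro R ε he
    filter_upwards [hR R, hε ε he] with n hn hn' z hz
    exact (hc n z (hn hz)).trans hn'
  · intro z hz ε he
    filter_upwards [hR (‖z‖ + 1), hε ε he] with n hn hn'
    have h2 : z ∈ ball (0 : ℂ) ((n : ℝ) + 1) := hn (by rw [mem_ball_zero_iff]; linarith)
    have h3 : ∀ᶠ w in 𝓝[≠] z, w ∈ ball z₀ r := nhdsWithin_le_nhds (isOpen_ball.mem_nhds hz)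
    filter_upwards [(hg n).toMeromorphicNFOn_eq_self_on_nhdsNE h2, h3] with w hw hw'
    rw [hw]
    exact (hc₀ n w hw').trans hn'

variable {𝒰 : Ultrafilter ℕ} {K : (ℂ → ℂ) → (ℂ → ℂ) → ℂ → Prop} {φ g₀ : ℂ → ℂ} {z₀ : ℂ} {r : ℝ} {ψ g : ℕ → ℂ → ℂ}

theorem LimS.jc_ψ (h : LimS 𝒰 K φ g₀ z₀ r ψ g) (hφ : Continuous φ) (x : ℂ) : Jc 𝒰 ψ φ x := by
  unfold Jc
  rw [Metric.tendsto_nhds]
  intro ε hε
  have h1 := h.conv (‖x‖ + 1) (ε / 2) (half_pos hε)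
  have h2 : ∀ᶠ y in 𝓝 x, dist (φ y) (φ x) < ε / 2 := hφ.continuousAt.eventually (ball_mem_nhds _ (half_pos hε))
  have h3 : ∀ᶠ y in 𝓝 x, y ∈ ball (0 : ℂ) (‖x‖ + 1) := isOpen_ball.mem_nhds (by rw [mem_ball_zero_iff]; linarith)
  filter_upwards [h1.prod_mk (h2.and h3)] with q hq
  have h4 := hq.1 q.2 hq.2.2
  rw [← dist_eq_norm] at h4
  calc dist (ψ q.1 q.2) (φ x) ≤ dist (ψ q.1 q.2) (φ q.2) + dist (φ q.2) (φ x) := dist_triangle _ _ _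
    _ < ε / 2 + ε / 2 := add_lt_add h4 hq.2.1
    _ = ε := add_halves ε

theorem LimS.jc_exp (h : LimS 𝒰 K φ g₀ z₀ r ψ g) (hφ : Continuous φ) (x : ℂ) :
    Jc 𝒰 (fun n z => Complex.exp (ψ n z)) (fun z => Complex.exp (φ z)) x :=
  (Complex.continuous_exp.tendsto _).comp (h.jc_ψ hφ x)

/-- an eventually true property of `(n, y)` near `x` holds on a ball for most `n` -/
theorem exists_ball {P : ℕ → ℂ → Prop} {x : ℂ} (h : ∀ᶠ q : ℕ × ℂ in (𝒰 : Filter ℕ) ×ˢ 𝓝 x, P q.1 q.2) :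
    ∃ s : ℝ, 0 < s ∧ ∀ᶠ n in (𝒰 : Filter ℕ), ∀ y ∈ ball x s, P n y := by
  obtain ⟨pa, ha, pb, hb, h1⟩ := eventually_prod_iff.1 h
  obtain ⟨s, hs, h2⟩ := Metric.eventually_nhds_iff_ball.1 hb
  exact ⟨s, hs, ha.mono fun n hn y hy => h1 hn (h2 y hy)⟩

/-- off the bad points `g n` is holomorphic without the values `0`, `1` -/
theorem LimS.evO (h : LimS 𝒰 K φ g₀ z₀ r ψ g) {B₀ : Set ℂ} (hB : B₀.Finite) (hO : ∀ ψ g z, K ψ g z → OmitsAt B₀ ψ g z) (hφ : Continuous φ) :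
    EvO 𝒰 g {z | Complex.exp (φ z) ∉ B₀} := by
  intro z hz
  have h1 : ∀ᶠ q : ℕ × ℂ in (𝒰 : Filter ℕ) ×ˢ 𝓝 z, Complex.exp (ψ q.1 q.2) ∉ B₀ := (h.jc_exp hφ z).eventually (hB.isClosed.isOpen_compl.mem_nhds hz)
  obtain ⟨s, hs, h2⟩ := exists_ball (𝒰 := 𝒰) (P := fun n y => Complex.exp (ψ n y) ∉ B₀) (x := z) h1
  refine ⟨min s 1, lt_min hs one_pos, ?_⟩
  have hsub : ball z (min s 1) ⊆ ball (0 : ℂ) (‖z‖ + 1) := by
    intro y hy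
    rw [mem_ball_iff_norm] at hy
    rw [mem_ball_zero_iff]
    have h3 : ‖y - z‖ < 1 := hy.trans_le (min_le_right _ _)
    have h4 : ‖y‖ ≤ ‖y - z‖ + ‖z‖ := by
      have h5 := norm_add_le (y - z) z
      rwa [sub_add_cancel] at h5
    linarith
  filter_upwards [h2, h.nf (‖z‖ + 1), h.prop (‖z‖ + 1)] with n hn1 hn2 hn3
  have key : ∀ y ∈ ball z (min s 1), AnalyticAt ℂ (g n) y ∧ g n y ≠ 0 ∧ g n y ≠ 1 := by
    intro y hy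
    obtain ⟨w, hw0, hw1, hw⟩ := hO _ _ _ (hn3 y (hsub hy)) (hn1 y (ball_subset_ball (min_le_left _ _) hy))
    obtain ⟨h5, h6⟩ := nf_value (hn2 y (hsub hy)) hw
    rw [h6]
    exact ⟨h5, hw0, hw1⟩
  exact ⟨fun y hy => (key y hy).1.differentiableAt.differentiableWithinAt, fun y hy => (key y hy).2⟩

/-- **The limit.** -/
theorem LimS.exists_G (h : LimS 𝒰 K φ g₀ z₀ r ψ g) (hS : Schottky) {B₀ : Set ℂ} (hB : B₀.Finite) (hO : ∀ ψ g z, K ψ g z → OmitsAt B₀ ψ g z)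
    (hφ : Continuous φ) (hr : 0 < r) (hg₀ : DifferentiableOn ℂ g₀ (ball z₀ r)) (hc : IsPreconnected {z | Complex.exp (φ z) ∉ B₀})
    (hd : Dense {z | Complex.exp (φ z) ∉ B₀}) :
    ∃ G : ℂ → ℂ, DifferentiableOn ℂ G {z | Complex.exp (φ z) ∉ B₀} ∧ (∀ x, Complex.exp (φ x) ∉ B₀ → Jc 𝒰 g G x) ∧
      (∀ z ∈ ball z₀ r, Complex.exp (φ z) ∉ B₀ → G z = g₀ z) ∧
      (Om G {z | Complex.exp (φ z) ∉ B₀} ∨ (∀ z, Complex.exp (φ z) ∉ B₀ → G z = 0) ∨ ∀ z, Complex.exp (φ z) ∉ B₀ → G z = 1) := by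
  have hΩ : IsOpen {z | Complex.exp (φ z) ∉ B₀} := hB.isClosed.isOpen_compl.preimage (Complex.continuous_exp.comp hφ)
  have hev := h.evO hB hO hφ
  have hlim : ∀ z ∈ ball z₀ r, Complex.exp (φ z) ∉ B₀ → Tendsto (fun n => g n z) 𝒰 (𝓝 (g₀ z)) := by
    intro z hz hzB
    rw [Metric.tendsto_nhds]
    intro ε hε
    obtain ⟨s, hs, h1⟩ := hev z hzB
    filter_upwards [h1, h.conv₀ z hz (ε / 2) (half_pos hε)] with n hn1 hn2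
    have h2 : ContinuousAt (fun w => ‖g n w - g₀ w‖) z :=
      (((hn1.1.differentiableAt (ball_mem_nhds z hs)).continuousAt).sub ((hg₀.differentiableAt (isOpen_ball.mem_nhds hz)).continuousAt)).norm
    have h3 : ‖g n z - g₀ z‖ ≤ ε / 2 := le_of_tendsto (h2.tendsto.mono_left nhdsWithin_le_nhds) (hn2.mono fun w hw => hw.le)
    rw [dist_eq_norm]
    linarith
  obtain ⟨z₁, hz₁, hz₁B⟩ := hd.inter_open_nonempty (ball z₀ r) isOpen_ball ⟨z₀, mem_ball_self hr⟩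
  have hM : ∀ᶠ n in (𝒰 : Filter ℕ), ‖g n z₁‖ ≤ ‖g₀ z₁‖ + 1 := by
    filter_upwards [(Metric.tendsto_nhds.1 (hlim z₁ hz₁ hz₁B)) 1 one_pos] with n hn
    rw [dist_eq_norm] at hn
    have h5 := norm_add_le (g n z₁ - g₀ z₁) (g₀ z₁)
    rw [sub_add_cancel] at h5
    linarith
  obtain ⟨G, hG, hGt, h1⟩ := montel hS hΩ hc hev hz₁B hM
  exact ⟨G, hG, fun x hx => jc_of_tlu hΩ hG.continuousOn hGt hx,
    fun z hz hzB => tendsto_nhds_unique (hGt.tendsto_at hzB) (hlim z hz hzB), h1⟩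

end Pool.Agent.H41.LR
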