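import Pool.Agent.H41.LR.Tr

/-!
# LR MainN: case (N)
-/

set_option autoImplicit false

open Topology Filter Metric MvPolynomial

noncomputable section

namespace Pool.Agent.H41.LR

open Pool.Agent.H62.LR (BaseD Tm)
open Pool.Agent.H87.LU (HP)
open Pool.Agent.H46.LR (OmitsAt OmitsSecAt FinAt Approx Algebraic MainN MainI)

/-- the output of the dynamical part, for all data (period `2 π i`) -/
def Output : Prop := ∀ (B : Set ℂ) (δ W : ℝ) (𝓛 : Set (ℂ → ℂ)) (C A : Set ℂ), BaseD (2 * Real.pi) B δ W 𝓛 C A →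
  ((C = ∅ ∧ ∃ L ∈ 𝓛, ∃ b₀ ∈ B, AnalyticAt ℂ L b₀ ∧ L b₀ = 1) ∨ (𝓛 = ∅ ∧ C.Nonempty)) → Out (2 * Real.pi) B 𝓛 C A

/-- a nonconstant rational function takes one of the values `0`, `1`, `∞` on `ℂ^*` -/
theorem exists_val {p q : Polynomial ℂ} (hpq : ∀ t : ℂ, p ≠ Polynomial.C t * q) :
    ∃ c : ℂ, c ≠ 0 ∧ (p.eval c = 0 ∨ q.eval c = 0 ∨ p.eval c = q.eval c) := by
  by_contra hcon
  push Not at hcon
  have hqe : ∀ z, q.eval (Complex.exp z) ≠ 0 := fun z => (hcon _ (Complex.exp_ne_zero z)).2.1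
  have h1 : Differentiable ℂ (Ls p q) := by
    intro z
    exact ((an_poly p z).div (an_poly q z) (hqe z)).differentiableAt
  have h2 : ∀ z, Ls p q z ≠ 0 ∧ Ls p q z ≠ 1 := by
    intro z
    obtain ⟨h3, h4, h5⟩ := hcon _ (Complex.exp_ne_zero z)
    refine ⟨div_ne_zero h3 h4, fun h6 => h5 ?_⟩
    exact (div_eq_one_iff_eq h4).1 h6
  have h3 : ∀ x : ℂ, x ≠ 0 → p.eval x = (Polynomial.C (Ls p q 0) * q).eval x := by
    intro x hx
    rw [Polynomial.eval_mul, Polynomial.eval_C, little_picard h1 h2 0 (Complex.log x)]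
    show p.eval x = p.eval (Complex.exp (Complex.log x)) / q.eval (Complex.exp (Complex.log x)) * q.eval x
    rw [Complex.exp_log hx, div_mul_cancel₀ _ ((hcon x hx).2.1)]
  apply hpq (Ls p q 0)
  refine Polynomial.eq_of_infinite_eval_eq _ _ ?_
  have h4 : ({0}ᶜ : Set ℂ).Infinite := (Set.finite_singleton (0 : ℂ)).infinite_compl
  exact h4.mono fun x hx => h3 x hx

/-- the relations for a section `p / q` in lowest terms, with one of the values `0`, `1`, `∞` at `c` -/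
theorem finRelN (hout : Output) {p q : Polynomial ℂ} (hp : p ≠ 0) (hq : q ≠ 0) (hco : IsCoprime p q) (hne : p ≠ q) {c : ℂ} (hc : c ≠ 0)
    (hcv : p.eval c = 0 ∨ q.eval c = 0 ∨ p.eval c = q.eval c) {B₁ : Set ℂ} (hB : B₁.Finite)
    (hroot : ∀ x : ℂ, x ≠ 0 → (p.eval x = 0 ∨ q.eval x = 0 ∨ p.eval x = q.eval x) → x ∈ B₁) :
    ∃ Ψ : Set (MvPolynomial (Fin 2) ℂ), Ψ.Finite ∧ (0 : MvPolynomial (Fin 2) ℂ) ∉ Ψ ∧
      ∀ ρ : ℝ, FinRel (Bp B₁) (Tm (Bp B₁) {Ls p q} ∅ {0, 1} (HP 1 ρ)) ρ Ψ := by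
  have hcB : Complex.log c ∈ Bp B₁ := by
    show Complex.exp (Complex.log c) ∈ B₁
    rw [Complex.exp_log hc]
    exact hroot c hc hcv
  have hpqc : ¬ (p.eval c = 0 ∧ q.eval c = 0) := by
    rintro ⟨h1, h2⟩
    obtain ⟨a, b, hab⟩ := hco
    have h3 := congrArg (Polynomial.eval c) hab
    rw [Polynomial.eval_add, Polynomial.eval_mul, Polynomial.eval_mul, h1, h2, mul_zero, mul_zero, add_zero, Polynomial.eval_one] at h3
    exact zero_ne_one h3
  have hgood : ∀ z, z ∉ Bp B₁ → p.eval (Complex.exp z) ≠ 0 ∧ q.eval (Complex.exp z) ≠ 0 ∧ p.eval (Complex.exp z) ≠ q.eval (Complex.exp z) := by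
    intro z hz
    have h3 : ¬ (p.eval (Complex.exp z) = 0 ∨ q.eval (Complex.exp z) = 0 ∨ p.eval (Complex.exp z) = q.eval (Complex.exp z)) :=
      fun h4 => hz (hroot _ (Complex.exp_ne_zero z) h4)
    push Not at h3
    exact h3
  by_cases h1 : p.eval c = q.eval c
  · -- the value `1`
    have hqc : q.eval c ≠ 0 := fun h2 => hpqc ⟨by rw [h1, h2], h2⟩
    obtain ⟨δ, W, hbase⟩ := baseN hp hq hB hroot
    refine exists_finRel hbase (hout _ _ _ _ _ _ hbase (Or.inl ⟨rfl, Ls p q, rfl, Complex.log c, hcB, ?_, ?_⟩))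
    · refine (an_poly p _).div (an_poly q _) ?_
      show q.eval (Complex.exp (Complex.log c)) ≠ 0
      rw [Complex.exp_log hc]
      exact hqc
    · show p.eval (Complex.exp (Complex.log c)) / q.eval (Complex.exp (Complex.log c)) = 1
      rw [Complex.exp_log hc, h1, div_self hqc]
  by_cases h2 : p.eval c = 0
  · -- the value `0`
    have hqc : q.eval c ≠ 0 := fun h3 => hpqc ⟨h2, h3⟩
    have hroot' : ∀ x : ℂ, x ≠ 0 → ((q - p).eval x = 0 ∨ q.eval x = 0 ∨ (q - p).eval x = q.eval x) → x ∈ B₁ := by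
      intro x hx h3
      apply hroot x hx
      rw [Polynomial.eval_sub] at h3
      rcases h3 with h4 | h4 | h4
      · exact Or.inr (Or.inr (sub_eq_zero.1 h4).symm)
      · exact Or.inr (Or.inl h4)
      · left
        linear_combination -h4
    obtain ⟨δ, W, hbase⟩ := baseN (p := q - p) (q := q) (sub_ne_zero.2 (Ne.symm hne)) hq hB hroot'
    obtain ⟨Ψ, hΨ, hΨ0, hrel⟩ := exists_finRel hbase (hout _ _ _ _ _ _ hbase (Or.inl ⟨rfl, Ls (q - p) q, rfl, Complex.log c, hcB, by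
      refine (an_poly (q - p) _).div (an_poly q _) ?_
      show q.eval (Complex.exp (Complex.log c)) ≠ 0
      rw [Complex.exp_log hc]
      exact hqc, by
      show (q - p).eval (Complex.exp (Complex.log c)) / q.eval (Complex.exp (Complex.log c)) = 1
      rw [Complex.exp_log hc, Polynomial.eval_sub, h2, sub_zero, div_self hqc]⟩))
    choose! F hF0 hF using sub_one
    refine ⟨F '' Ψ, hΨ.image _, ?_, ?_⟩
    · rintro ⟨Φ, hΦ, h3⟩
      refine hF0 Φ (fun h4 => hΨ0 ?_) h3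
      rw [← h4]
      exact hΦ
    · intro ρ f hf
      obtain ⟨Φ, hΦ, h3⟩ := hrel ρ (fun z => 1 - f z) ⟨fun z hz => (MeromorphicAt.const 1 z).sub (hf.1 z hz), fun z hz hzB => by
        obtain ⟨h4, h5, h6, h7⟩ := hf.2.1 z hz hzB
        refine ⟨analyticAt_const.sub h4, fun h8 => h6 (sub_eq_zero.1 h8).symm, fun h8 => h5 ?_, ?_⟩
        · have h8' : 1 - f z = 1 := h8
          linear_combination -h8'
        · intro L hL
          rw [Set.mem_singleton_iff] at hL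
          subst hL
          intro h8
          have h8' : 1 - f z = (q - p).eval (Complex.exp z) / q.eval (Complex.exp z) := h8
          apply h7 _ (Set.mem_singleton _)
          show f z = p.eval (Complex.exp z) / q.eval (Complex.exp z)
          obtain ⟨h9, h10, h11⟩ := hgood z hzB
          rw [Polynomial.eval_sub, sub_div, div_self h10] at h8'
          linear_combination -h8', fun b hb hbC => absurd hbC (Set.notMem_empty b)⟩
      exact ⟨F Φ, ⟨Φ, hΦ, rfl⟩, fun z hz hzB => hF Φ (fun h4 => hΨ0 (by rw [← h4]; exact hΦ)) _ _ (h3 z hz hzB)⟩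
  · -- the value `∞`
    have hqc : q.eval c = 0 := by
      rcases hcv with h3 | h3 | h3
      · exact absurd h3 h2
      · exact h3
      · exact absurd h3 h1
    have hroot' : ∀ x : ℂ, x ≠ 0 → ((p - q).eval x = 0 ∨ p.eval x = 0 ∨ (p - q).eval x = p.eval x) → x ∈ B₁ := by
      intro x hx h3
      apply hroot x hx
      rw [Polynomial.eval_sub] at h3
      rcases h3 with h4 | h4 | h4
      · exact Or.inr (Or.inr (sub_eq_zero.1 h4))
      · exact Or.inl h4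
      · right
        left
        linear_combination -h4
    obtain ⟨δ, W, hbase⟩ := baseN (p := p - q) (q := p) (sub_ne_zero.2 hne) hp hB hroot'
    obtain ⟨Ψ, hΨ, hΨ0, hrel⟩ := exists_finRel hbase (hout _ _ _ _ _ _ hbase (Or.inl ⟨rfl, Ls (p - q) p, rfl, Complex.log c, hcB, by
      refine (an_poly (p - q) _).div (an_poly p _) ?_
      show p.eval (Complex.exp (Complex.log c)) ≠ 0
      rw [Complex.exp_log hc]
      exact h2, by
      show (p - q).eval (Complex.exp (Complex.log c)) / p.eval (Complex.exp (Complex.log c)) = 1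
      rw [Complex.exp_log hc, Polynomial.eval_sub, hqc, sub_zero, div_self h2]⟩))
    choose! F hF0 hF using sub_inv
    refine ⟨F '' Ψ, hΨ.image _, ?_, ?_⟩
    · rintro ⟨Φ, hΦ, h3⟩
      refine hF0 Φ (fun h4 => hΨ0 ?_) h3
      rw [← h4]
      exact hΦ
    · intro ρ f hf
      obtain ⟨Φ, hΦ, h3⟩ := hrel ρ (fun z => 1 - (f z)⁻¹) ⟨fun z hz => (MeromorphicAt.const 1 z).sub (hf.1 z hz).inv, fun z hz hzB => by
        obtain ⟨h4, h5, h6, h7⟩ := hf.2.1 z hz hzB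
        refine ⟨analyticAt_const.sub (h4.inv h5), fun h8 => h6 (inv_eq_one.1 (sub_eq_zero.1 h8).symm), fun h8 => inv_ne_zero h5 ?_, ?_⟩
        · have h8' : 1 - (f z)⁻¹ = 1 := h8
          linear_combination -h8'
        · intro L hL
          rw [Set.mem_singleton_iff] at hL
          subst hL
          intro h8
          have h8' : 1 - (f z)⁻¹ = (p - q).eval (Complex.exp z) / p.eval (Complex.exp z) := h8
          apply h7 _ (Set.mem_singleton _)
          show f z = p.eval (Complex.exp z) / q.eval (Complex.exp z)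
          obtain ⟨h9, h10, h11⟩ := hgood z hzB
          rw [Polynomial.eval_sub, sub_div, div_self h9] at h8'
          have h12 : (f z)⁻¹ = q.eval (Complex.exp z) / p.eval (Complex.exp z) := by linear_combination -h8'
          rw [← inv_inv (f z), h12, inv_div], fun b hb hbC => absurd hbC (Set.notMem_empty b)⟩
      exact ⟨F Φ, ⟨Φ, hΦ, rfl⟩, fun z hz hzB => hF Φ (fun h4 => hΨ0 (by rw [← h4]; exact hΦ)) _ _ (hf.2.1 z hz hzB).2.1 (h3 z hz hzB)⟩

/-- the relation of the section `p / q` -/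
def secRel (p q : Polynomial ℂ) : MvPolynomial (Fin 2) ℂ :=
  Polynomial.aeval (X 0 : MvPolynomial (Fin 2) ℂ) q * X 1 - Polynomial.aeval (X 0 : MvPolynomial (Fin 2) ℂ) p

theorem eval_aeval_X (p : Polynomial ℂ) (x y : ℂ) : eval ![x, y] (Polynomial.aeval (X 0 : MvPolynomial (Fin 2) ℂ) p) = p.eval x := by
  induction p using Polynomial.induction_on' with
  | add p q hp hq => rw [map_add, map_add, hp, hq, Polynomial.eval_add]
  | monomial n a =>
    rw [Polynomial.aeval_monomial, map_mul, map_pow, eval_X, Polynomial.eval_monomial, MvPolynomial.algebraMap_eq, eval_C]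
    rfl

theorem eval_secRel (p q : Polynomial ℂ) (x y : ℂ) : eval ![x, y] (secRel p q) = q.eval x * y - p.eval x := by
  unfold secRel
  rw [map_sub, map_mul, eval_aeval_X, eval_aeval_X, eval_X]
  rfl

theorem secRel_ne {p q : Polynomial ℂ} (hq : q ≠ 0) : secRel p q ≠ 0 := by
  intro h
  apply hq
  apply Polynomial.funext
  intro x
  have h0 := eval_secRel p q x 0
  have h1 := eval_secRel p q x 1
  rw [h, map_zero] at h0 h1
  rw [Polynomial.eval_zero]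
  linear_combination h0 - h1

/-- enumeration -/
theorem exists_enum {α : Type} {Ψ : Set α} (h : Ψ.Finite) : ∃ (k : ℕ) (F : Fin k → α), Set.range F = Ψ := by
  obtain ⟨n, f, -, hf⟩ := h.fin_param
  exact ⟨n, f, hf⟩

/-- the property of the pairs -/
def KN (B₀ : Set ℂ) (p q : Polynomial ℂ) (ψ g : ℂ → ℂ) (z : ℂ) : Prop := OmitsAt B₀ ψ g z ∧ OmitsSecAt B₀ p q ψ g z

theorem KN_congr {B₀ : Set ℂ} {p q : Polynomial ℂ} (ψ g g' : ℂ → ℂ) (z : ℂ) (he : g =ᶠ[𝓝[≠] z] g') (h : KN B₀ p q ψ g z) : KN B₀ p q ψ g' z := by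
  obtain ⟨h1, h2⟩ := h
  refine ⟨fun h3 => ?_, fun h3 w hw => h2 h3 w (hw.congr' he.symm)⟩
  obtain ⟨w, hw0, hw1, hw⟩ := h1 h3
  exact ⟨w, hw0, hw1, hw.congr' he⟩

/-- lowest terms -/
theorem lowest {p q : Polynomial ℂ} (hq : q ≠ 0) : ∃ d p₁ q₁ : Polynomial ℂ, d ≠ 0 ∧ p = d * p₁ ∧ q = d * q₁ ∧ IsCoprime p₁ q₁ := by
  obtain ⟨d, hd⟩ := (IsPrincipalIdealRing.principal (Ideal.span ({p, q} : Set (Polynomial ℂ)))).principal
  have hp : p ∈ Ideal.span {d} := by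
    have h1 : p ∈ Ideal.span ({p, q} : Set (Polynomial ℂ)) := Ideal.subset_span (Or.inl rfl)
    rw [hd] at h1
    exact h1
  have hq' : q ∈ Ideal.span {d} := by
    have h1 : q ∈ Ideal.span ({p, q} : Set (Polynomial ℂ)) := Ideal.subset_span (Or.inr rfl)
    rw [hd] at h1
    exact h1
  obtain ⟨p₁, hp₁⟩ := Ideal.mem_span_singleton.1 hp
  obtain ⟨q₁, hq₁⟩ := Ideal.mem_span_singleton.1 hq'
  have hd0 : d ≠ 0 := by
    intro h
    rw [h, zero_mul] at hq₁
    exact hq hq₁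
  have hdm : d ∈ Ideal.span ({p, q} : Set (Polynomial ℂ)) := by
    rw [hd]
    exact Submodule.mem_span_singleton_self d
  obtain ⟨a, b, hab⟩ := Ideal.mem_span_pair.1 hdm
  refine ⟨d, p₁, q₁, hd0, hp₁, hq₁, a, b, ?_⟩
  have h1 : d * (a * p₁ + b * q₁) = d * 1 := by
    calc d * (a * p₁ + b * q₁) = a * (d * p₁) + b * (d * q₁) := by ring
      _ = a * p + b * q := by rw [← hp₁, ← hq₁]
      _ = d * 1 := by rw [hab, mul_one]
  exact mul_left_cancel₀ hd0 h1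

theorem finite_roots {P : Polynomial ℂ} (hP : P ≠ 0) : {x | P.eval x = 0}.Finite := by
  refine (P.rootSet_finite ℂ).subset fun x hx => ?_
  rw [Polynomial.mem_rootSet]
  refine ⟨hP, ?_⟩
  rw [Polynomial.coe_aeval_eq_eval]
  exact hx

/-- all relations -/
theorem allRelN (hout : Output) {p q : Polynomial ℂ} (hq : q ≠ 0) (hpq : ∀ t : ℂ, p ≠ Polynomial.C t * q) {B₀ : Set ℂ} (hB₀ : B₀.Finite) :
    ∃ (B₁ : Set ℂ) (Ψ : Set (MvPolynomial (Fin 2) ℂ)), B₁.Finite ∧ B₀ ⊆ B₁ ∧ Ψ.Finite ∧ (0 : MvPolynomial (Fin 2) ℂ) ∉ Ψ ∧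
      ∀ (ρ : ℝ) (f : ℂ → ℂ), (∀ ζ ∈ HP 1 ρ, MeromorphicAt f ζ) → (∀ ζ ∈ HP 1 ρ, ζ ∉ Bp B₁ → AnalyticAt ℂ f ζ ∧ f ζ ≠ 0 ∧ f ζ ≠ 1 ∧
        f ζ * q.eval (Complex.exp ζ) ≠ p.eval (Complex.exp ζ)) → ∃ Φ ∈ Ψ, ∀ z ∈ HP 1 ρ, z ∉ Bp B₁ → eval ![Complex.exp z, f z] Φ = 0 := by
  have hp : p ≠ 0 := by
    have h1 := hpq 0
    rwa [Polynomial.C_0, zero_mul] at h1
  have hne : p ≠ q := by
    have h1 := hpq 1
    rwa [Polynomial.C_1, one_mul] at h1
  obtain ⟨d, p₁, q₁, hd, hpe, hqe, hco⟩ := lowest (p := p) hq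
  have hp₁ : p₁ ≠ 0 := by
    intro h
    rw [h, mul_zero] at hpe
    exact hp hpe
  have hq₁ : q₁ ≠ 0 := by
    intro h
    rw [h, mul_zero] at hqe
    exact hq hqe
  have hne₁ : p₁ ≠ q₁ := by
    intro h
    rw [h, ← hqe] at hpe
    exact hne hpe
  have hpq₁ : ∀ t : ℂ, p₁ ≠ Polynomial.C t * q₁ := by
    intro t h
    apply hpq t
    rw [hpe, hqe, h]
    ring
  obtain ⟨c, hc, hcv⟩ := exists_val hpq₁
  obtain ⟨B₁, hB₁⟩ : ∃ B₁ : Set ℂ, B₁ = B₀ ∪ ({x | p.eval x = 0} ∪ ({x | q.eval x = 0} ∪ {x | (p - q).eval x = 0})) := ⟨_, rfl⟩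
  have hB : B₁.Finite := by
    rw [hB₁]
    exact hB₀.union ((finite_roots hp).union ((finite_roots hq).union (finite_roots (sub_ne_zero.2 hne))))
  have hsub : B₀ ⊆ B₁ := by
    rw [hB₁]
    exact Set.subset_union_left
  have hroot : ∀ x : ℂ, x ≠ 0 → (p₁.eval x = 0 ∨ q₁.eval x = 0 ∨ p₁.eval x = q₁.eval x) → x ∈ B₁ := by
    rw [hB₁]
    rintro x - (h1 | h1 | h1)
    · right
      left
      show p.eval x = 0
      rw [hpe, Polynomial.eval_mul, h1, mul_zero]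
    · right
      right
      left
      show q.eval x = 0
      rw [hqe, Polynomial.eval_mul, h1, mul_zero]
    · right
      right
      right
      show (p - q).eval x = 0
      rw [hpe, hqe, Polynomial.eval_sub, Polynomial.eval_mul, Polynomial.eval_mul, h1, sub_self]
  obtain ⟨Ψ, hΨ, hΨ0, hrel⟩ := finRelN hout hp₁ hq₁ hco hne₁ hc hcv hB hroot
  refine ⟨B₁, Ψ, hB, hsub, hΨ, hΨ0, fun ρ f hf1 hf2 => hrel ρ f ⟨hf1, fun ζ hζ hζB => ?_, fun b _ hbC => absurd hbC (Set.notMem_empty b)⟩⟩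
  obtain ⟨h1, h2, h3, h4⟩ := hf2 ζ hζ hζB
  refine ⟨h1, h2, h3, fun L hL => ?_⟩
  rw [Set.mem_singleton_iff] at hL
  subst hL
  intro h5
  apply h4
  have h5' : f ζ = p₁.eval (Complex.exp ζ) / q₁.eval (Complex.exp ζ) := h5
  have hq₁0 : q₁.eval (Complex.exp ζ) ≠ 0 := fun h4 => hζB (hroot _ (Complex.exp_ne_zero ζ) (Or.inr (Or.inl h4)))
  rw [h5', hpe, hqe, Polynomial.eval_mul, Polynomial.eval_mul]
  field_simp

/-- the difference to the section -/
def Tf (p q : Polynomial ℂ) (ψ g : ℂ → ℂ) (z : ℂ) : ℂ := g z * q.eval (Complex.exp (ψ z)) - p.eval (Complex.exp (ψ z))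

theorem Tf_jc {p q : Polynomial ℂ} {𝒰 : Ultrafilter ℕ} {ψ g : ℕ → ℂ → ℂ} {φ G : ℂ → ℂ} {x : ℂ} (h1 : Jc 𝒰 (fun n z => Complex.exp (ψ n z)) (fun z => Complex.exp (φ z)) x)
    (hG : Jc 𝒰 g G x) : Jc 𝒰 (fun n => Tf p q (ψ n) (g n)) (Tf p q φ G) x := by
  have h2 : Jc 𝒰 (fun n z => q.eval (Complex.exp (ψ n z))) (fun z => q.eval (Complex.exp (φ z))) x := (q.continuous.tendsto _).comp h1
  have h3 : Jc 𝒰 (fun n z => p.eval (Complex.exp (ψ n z))) (fun z => p.eval (Complex.exp (φ z))) x := (p.continuous.tendsto _).comp h1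
  exact (Tendsto.mul hG h2).sub h3

theorem Tf_diff {p q : Polynomial ℂ} {ψ g : ℂ → ℂ} {U : Set ℂ} (hψ : DifferentiableOn ℂ ψ U) (hg : DifferentiableOn ℂ g U) : DifferentiableOn ℂ (Tf p q ψ g) U := by
  refine (hg.mul ?_).sub ?_
  · exact q.differentiable.comp_differentiableOn hψ.cexp
  · exact p.differentiable.comp_differentiableOn hψ.cexp

theorem Tf_evD {B₀ B₁ : Set ℂ} (hB : B₁.Finite) (hsub : B₀ ⊆ B₁) {p q : Polynomial ℂ} {𝒰 : Ultrafilter ℕ} {φ g₀ : ℂ → ℂ} {z₀ : ℂ} {r : ℝ} {ψ g : ℕ → ℂ → ℂ}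
    (hL : LimS 𝒰 (KN B₀ p q) φ g₀ z₀ r ψ g) (hφ : Continuous φ) : EvD 𝒰 (fun n => Tf p q (ψ n) (g n)) (Og φ B₁) := by
  intro z hz
  obtain ⟨s, hs, h1⟩ := hL.evO hB (fun ψ g z h1 h2 => h1.1 fun h3 => h2 (hsub h3)) hφ z hz
  have h2 : ∀ᶠ y : ℕ × ℂ in (𝒰 : Filter ℕ) ×ˢ 𝓝 z, Complex.exp (ψ y.1 y.2) ∉ B₁ :=
    (hL.jc_exp hφ z).eventually (hB.isClosed.isOpen_compl.mem_nhds hz)
  obtain ⟨t, ht, h3⟩ := exists_ball (𝒰 := 𝒰) (P := fun n y => Complex.exp (ψ n y) ∉ B₁) (x := z) h2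
  have hu0 : 0 < min (min s t) 1 := lt_min (lt_min hs ht) one_pos
  have hus : ball z (min (min s t) 1) ⊆ ball z s := ball_subset_ball ((min_le_left _ _).trans (min_le_left _ _))
  have hut : ball z (min (min s t) 1) ⊆ ball z t := ball_subset_ball ((min_le_left _ _).trans (min_le_right _ _))
  have huR : ball z (min (min s t) 1) ⊆ ball (0 : ℂ) (‖z‖ + 1) := by
    refine ball_subset_ball' ?_
    rw [dist_zero_right]
    have := min_le_right (min s t) 1
    linarith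
  refine ⟨min (min s t) 1, hu0, ?_⟩
  filter_upwards [h1, h3, hL.diff (‖z‖ + 1), hL.prop (‖z‖ + 1)] with n hn1 hn2 hn3 hn5
  refine ⟨Tf_diff (hn3.mono huR) (hn1.1.mono hus), fun w hw h4 => ?_⟩
  have h5 := (hn5 w (huR hw)).2 (fun h6 => hn2 w (hut hw) (hsub h6)) (g n w) (by
    have h6 := (hn1.1.differentiableAt (isOpen_ball.mem_nhds (hus hw))).continuousAt
    exact h6.tendsto.mono_left nhdsWithin_le_nhds)
  exact h5 (sub_eq_zero.1 h4)

theorem X1_ne : (X 1 : MvPolynomial (Fin 2) ℂ) ≠ 0 := by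
  intro h
  have h1 := congrArg (eval ![(0 : ℂ), 1]) h
  rw [eval_X, map_zero] at h1
  exact one_ne_zero h1

theorem X1_sub_ne : (X 1 - 1 : MvPolynomial (Fin 2) ℂ) ≠ 0 := by
  intro h
  have h1 := congrArg (eval ![(0 : ℂ), 0]) h
  rw [map_sub, eval_X, map_one, map_zero] at h1
  have h2 : (0 : ℂ) - 1 = 0 := h1
  norm_num at h2

/-- the limits are algebraic -/
theorem limN {B₀ B₁ : Set ℂ} (hB : B₁.Finite) (hsub : B₀ ⊆ B₁) {p q : Polynomial ℂ} {Ψ : Set (MvPolynomial (Fin 2) ℂ)}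
    (hrel : ∀ (ρ : ℝ) (f : ℂ → ℂ), (∀ ζ ∈ HP 1 ρ, MeromorphicAt f ζ) → (∀ ζ ∈ HP 1 ρ, ζ ∉ Bp B₁ → AnalyticAt ℂ f ζ ∧ f ζ ≠ 0 ∧ f ζ ≠ 1 ∧
        f ζ * q.eval (Complex.exp ζ) ≠ p.eval (Complex.exp ζ)) → ∃ Φ ∈ Ψ, ∀ z ∈ HP 1 ρ, z ∉ Bp B₁ → eval ![Complex.exp z, f z] Φ = 0)
    {φ g₀ : ℂ → ℂ} {z₀ : ℂ} {r : ℝ} (hr : 0 < r) (hg₀ : DifferentiableOn ℂ g₀ (ball z₀ r)) (happ : Approx (KN B₀ p q) φ g₀ z₀ r)
    {a b c : ℂ} (hab : a ≠ 0 ∨ b ≠ 0) (hφ : ∀ z, φ z = a * z ^ 2 + b * z + c) :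
    (∀ z ∈ ball z₀ r, eval ![Complex.exp (φ z), g₀ z] (X 1) = 0) ∨ (∀ z ∈ ball z₀ r, eval ![Complex.exp (φ z), g₀ z] (X 1 - 1) = 0) ∨
      (∀ z ∈ ball z₀ r, eval ![Complex.exp (φ z), g₀ z] (secRel p q) = 0) ∨ ∃ Φ ∈ Ψ, ∀ z ∈ ball z₀ r, eval ![Complex.exp (φ z), g₀ z] Φ = 0 := by
  have hφe : φ = fun z => a * z ^ 2 + b * z + c := funext hφ
  have hφd : Differentiable ℂ φ := by
    rw [hφe]
    fun_prop
  have hcount := countable_Og (c := c) hab hφ hB
  have hpre : IsPreconnected (Og φ B₁) := by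
    have h1 := preconn_of_countable hcount
    rwa [compl_compl] at h1
  have hden : Dense (Og φ B₁) := by
    have h1 := dense_of_countable hcount
    rwa [compl_compl] at h1
  obtain ⟨ψ, g, hL⟩ := exists_limS KN_congr happ
  obtain ⟨G, hG, hGJ, hGg, hcase⟩ := hL.exists_G schottky hB (fun ψ g z h1 h2 => h1.1 fun h3 => h2 (hsub h3)) hφd.continuous hr hg₀ hpre hden
  have hΩ : IsOpen (Og φ B₁) := isOpen_Og hφd.continuous hB
  have fin : ∀ Φ : MvPolynomial (Fin 2) ℂ, (∀ z ∈ Og φ B₁, eval ![Complex.exp (φ z), G z] Φ = 0) → ∀ z ∈ ball z₀ r, eval ![Complex.exp (φ z), g₀ z] Φ = 0 := by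
    intro Φ h1
    refine rel_ball hφd.continuous hg₀ hden Φ fun z hz hzO => ?_
    rw [← hGg z hz hzO]
    exact h1 z hzO
  rcases hcase with hOm | h0 | h1
  · rcases hurJ hΩ hpre (Tf_diff (p := p) (q := q) hφd.differentiableOn hG) (fun x hx => Tf_jc (hL.jc_exp hφd.continuous x) (hGJ x hx))
      (Tf_evD hB hsub hL hφd.continuous) with h1 | h1
    · right
      right
      left
      refine fin (secRel p q) fun z hz => ?_
      rw [eval_secRel]
      have h2 : G z * q.eval (Complex.exp (φ z)) - p.eval (Complex.exp (φ z)) = 0 := h1 z hz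
      linear_combination h2
    · obtain ⟨ρ, χ, hχ, hinv⟩ := exists_branch (c := c) hab
      have hinv' : ∀ ζ ∈ HP 1 ρ, φ (χ ζ) = ζ := fun ζ hζ => by rw [hφ]; exact hinv ζ hζ
      obtain ⟨hm1, hm2⟩ := branch_mem hφd.continuous hB hG hOm hχ hinv'
      obtain ⟨Φ, hΦ, h2⟩ := hrel ρ (fun ζ => G (χ ζ)) hm1 (fun ζ hζ hζB => ⟨(hm2 ζ hζ hζB).1, (hm2 ζ hζ hζB).2.1, (hm2 ζ hζ hζB).2.2, by
        intro h3
        have hχO : χ ζ ∈ Og φ B₁ := by
          show Complex.exp (φ (χ ζ)) ∉ B₁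
          rw [hinv' ζ hζ]
          exact hζB
        apply h1 (χ ζ) hχO
        show G (χ ζ) * q.eval (Complex.exp (φ (χ ζ))) - p.eval (Complex.exp (φ (χ ζ))) = 0
        rw [hinv' ζ hζ]
        exact sub_eq_zero.2 h3⟩)
      obtain ⟨ζ₀, hζ₀, hζ₀B⟩ := exists_good hB ρ
      right
      right
      right
      exact ⟨Φ, hΦ, fin Φ (transfer hφd hB hG hpre hχ hinv' Φ hζ₀ hζ₀B h2)⟩
  · left
    refine fin (X 1) fun z hz => ?_
    rw [eval_X]
    exact h0 z hz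
  · right
    left
    refine fin (X 1 - 1) fun z hz => ?_
    rw [map_sub, eval_X, map_one]
    show G z - 1 = 0
    rw [h1 z hz, sub_self]

/-- **Case (N).** -/
theorem mainN_of (hout : Output) : MainN := by
  intro B₀ p q hB₀ hq hpq
  obtain ⟨B₁, Ψ, hB, hsub, hΨ, hΨ0, hrel⟩ := allRelN hout hq hpq hB₀
  obtain ⟨k, F, hF⟩ := exists_enum hΨ
  refine ⟨k + 3, Fin.append F ![X 1, X 1 - 1, secRel p q], ?_, ?_⟩
  · intro i
    refine Fin.addCases (fun j => ?_) (fun j => ?_) i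
    · rw [Fin.append_left]
      intro h
      apply hΨ0
      rw [← h, ← hF]
      exact Set.mem_range_self j
    · rw [Fin.append_right]
      fin_cases j
      · exact X1_ne
      · exact X1_sub_ne
      · exact secRel_ne hq
  · intro φ g₀ z₀ r hr hg₀ happ
    constructor
    · intro a b c hab hφ
      rcases limN hB hsub hrel hr hg₀ happ hab hφ with h | h | h | ⟨Φ, hΦ, h⟩
      · refine ⟨Fin.natAdd k 0, ?_⟩
        rw [Fin.append_right]
        exact h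
      · refine ⟨Fin.natAdd k 1, ?_⟩
        rw [Fin.append_right]
        exact h
      · refine ⟨Fin.natAdd k 2, ?_⟩
        rw [Fin.append_right]
        exact h
      · rw [← hF] at hΦ
        obtain ⟨i, rfl⟩ := hΦ
        refine ⟨Fin.castAdd 3 i, ?_⟩
        rw [Fin.append_left]
        exact h
    · intro c hc hφ
      exact const_case hB₀ (K := KN B₀ p q) KN_congr (fun ψ g z h => h.1) hr hg₀ happ hc hφ

end Pool.Agent.H41.LR
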