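import Pool.Agent.H7.Per.Main

/-!
# LR Map: meromorphic functions as holomorphic maps into the projective line
-/

set_option autoImplicit false

open Topology Filter Metric

noncomputable section

namespace Pool.Agent.H41.LR

open Pool.Agent.H17 (PN VanishesAt HolomorphicInto vanishesAt_mk_iff)

theorem vne (x : ℂ) : (![1, x] : Fin 2 → ℂ) ≠ 0 := fun h => one_ne_zero (congrFun h 0)

/-- the point `[1 : x]` -/
def aff (x : ℂ) : PN 1 := Projectivization.mk ℂ ![1, x] (vne x)

theorem mk_eq {u v : Fin 2 → ℂ} (hu : u ≠ 0) (hv : v ≠ 0) (h : u 0 * v 1 = u 1 * v 0) :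
    Projectivization.mk ℂ u hu = Projectivization.mk ℂ v hv := by
  rw [Projectivization.mk_eq_mk_iff']
  by_cases h0 : v 0 = 0
  · have h1 : v 1 ≠ 0 := by
      intro h1
      apply hv
      funext i
      fin_cases i
      · exact h0
      · exact h1
    refine ⟨u 1 / v 1, ?_⟩
    funext i
    fin_cases i
    · show u 1 / v 1 * v 0 = u 0
      rw [h0, mul_zero] at h
      rw [h0, mul_zero]
      exact ((mul_eq_zero.1 h).resolve_right h1).symm
    · show u 1 / v 1 * v 1 = u 1
      field_simp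
  · refine ⟨u 0 / v 0, ?_⟩
    funext i
    fin_cases i
    · show u 0 / v 0 * v 0 = u 0
      field_simp
    · show u 0 / v 0 * v 1 = u 1
      rw [div_mul_eq_mul_div, div_eq_iff h0]
      exact h

theorem eq_of_mk {u v : Fin 2 → ℂ} (hu : u ≠ 0) (hv : v ≠ 0)
    (h : Projectivization.mk ℂ u hu = Projectivization.mk ℂ v hv) : u 0 * v 1 = u 1 * v 0 := by
  rw [Projectivization.mk_eq_mk_iff'] at h
  obtain ⟨a, rfl⟩ := h
  show a * v 0 * v 1 = a * v 1 * v 0
  ring

/-- A local lift of a meromorphic function. -/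
theorem local_lift {f : ℂ → ℂ} {z₀ : ℂ} (hf : MeromorphicAt f z₀) : ∃ φ : ℂ → Fin 2 → ℂ, AnalyticAt ℂ φ z₀ ∧ φ z₀ ≠ 0 ∧
    ∀ᶠ w in 𝓝[≠] z₀, φ w 0 * f w = φ w 1 := by
  by_cases h : meromorphicOrderAt f z₀ = ⊤
  · refine ⟨fun _ => ![1, 0], analyticAt_const, vne 0, ?_⟩
    filter_upwards [meromorphicOrderAt_eq_top_iff.1 h] with w hw
    show 1 * f w = 0
    rw [hw, mul_zero]
  · obtain ⟨n, hn⟩ := WithTop.ne_top_iff_exists.1 h
    obtain ⟨g, hg, hg0, he⟩ := (meromorphicOrderAt_eq_int_iff hf).1 hn.symm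
    have hz : AnalyticAt ℂ (fun z : ℂ => z - z₀) z₀ := analyticAt_id.sub analyticAt_const
    rcases le_total 0 n with h0 | h0
    · obtain ⟨k, rfl⟩ := Int.eq_ofNat_of_zero_le h0
      refine ⟨fun w => ![1, (w - z₀) ^ k * g w], ?_, vne _, ?_⟩
      · rw [analyticAt_pi_iff]
        intro i
        fin_cases i
        · exact analyticAt_const
        · exact (hz.pow k).mul hg
      · filter_upwards [he] with w hw
        show 1 * f w = (w - z₀) ^ k * g w
        rw [hw, one_mul, smul_eq_mul]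
        rfl
    · obtain ⟨k, hk⟩ := Int.eq_ofNat_of_zero_le (neg_nonneg.2 h0)
      have hn' : n = -(k : ℤ) := by rw [← hk, neg_neg]
      subst hn'
      refine ⟨fun w => ![(w - z₀) ^ k, g w], ?_, ?_, ?_⟩
      · rw [analyticAt_pi_iff]
        intro i
        fin_cases i
        · exact hz.pow k
        · exact hg
      · intro h1
        exact hg0 (congrFun h1 1)
      · have hne : ∀ᶠ w in 𝓝[≠] z₀, w ≠ z₀ := self_mem_nhdsWithin
        filter_upwards [he, hne] with w hw hwz
        show (w - z₀) ^ k * f w = g w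
        rw [hw, smul_eq_mul, ← mul_assoc]
        have h2 : (w - z₀) ^ k * (w - z₀) ^ (-(k : ℤ)) = 1 := by
          rw [zpow_neg, zpow_natCast]
          exact mul_inv_cancel₀ (pow_ne_zero _ (sub_ne_zero.2 hwz))
        rw [h2, one_mul]

/-- **Meromorphic functions are holomorphic maps into the projective line.** -/
theorem exists_map {f : ℂ → ℂ} (hf : ∀ z, MeromorphicAt f z) : ∃ F : ℂ → PN 1, HolomorphicInto F Set.univ ∧
    (∀ z, AnalyticAt ℂ f z → F z = aff (f z)) := by
  choose φ hφ hφ0 he using fun z => local_lift (hf z)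
  set F : ℂ → PN 1 := fun z => Projectivization.mk ℂ (φ z z) (hφ0 z) with hF
  have hA : ∀ z, AnalyticAt ℂ f z → F z = aff (f z) := by
    intro z hz
    refine mk_eq _ _ ?_
    show φ z z 0 * f z = φ z z 1 * 1
    rw [mul_one]
    have h0 : ContinuousAt (fun w => φ z w 0 * f w) z := by
      have h1 : ContinuousAt (fun w => φ z w 0) z := ((analyticAt_pi_iff).1 (hφ z) 0).continuousAt
      exact h1.mul hz.continuousAt
    have h1 : ContinuousAt (fun w => φ z w 1) z := ((analyticAt_pi_iff).1 (hφ z) 1).continuousAt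
    have h2 : Tendsto (fun w => φ z w 0 * f w) (𝓝[≠] z) (𝓝 (φ z z 0 * f z)) := h0.tendsto.mono_left nhdsWithin_le_nhds
    have h3 : Tendsto (fun w => φ z w 1) (𝓝[≠] z) (𝓝 (φ z z 1)) := h1.tendsto.mono_left nhdsWithin_le_nhds
    exact tendsto_nhds_unique h2 (h3.congr' ((he z).mono fun w hw => hw.symm))
  refine ⟨F, ?_, hA⟩
  intro z _
  refine ⟨φ z, hφ z, ?_⟩
  have h1 : ∀ᶠ w in 𝓝[≠] z, ∃ h : φ z w ≠ 0, F w = Projectivization.mk ℂ (φ z w) h := by
    have h2 : ∀ᶠ w in 𝓝[≠] z, φ z w ≠ 0 := ((hφ z).continuousAt.eventually_ne (hφ0 z)).filter_mono nhdsWithin_le_nhds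
    filter_upwards [(hf z).eventually_analyticAt, he z, h2] with w h3 h4 h5
    refine ⟨h5, ?_⟩
    rw [hA w h3]
    refine mk_eq _ _ ?_
    show 1 * φ z w 1 = f w * φ z w 0
    rw [one_mul, mul_comm, h4]
  have h2 : ∃ h : φ z z ≠ 0, F z = Projectivization.mk ℂ (φ z z) h := ⟨hφ0 z, rfl⟩
  have h3 := eventually_nhdsWithin_iff.1 h1
  filter_upwards [h3] with w hw
  by_cases hwz : w = z
  · rw [hwz]
    exact h2
  · exact hw hwz

end Pool.Agent.H41.LR
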