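import Pool.Agent.H41.LR.Defs
import Pool.Agent.H62.Log.Hurwitz

/-!
# LR Mon: Montel's theorem for functions without the values `0`, `1`, along an ultrafilter
-/

set_option autoImplicit false

open Topology Filter Metric

noncomputable section

namespace Pool.Agent.H41.LR

/-- `g n` is holomorphic on a neighbourhood of every point of `Ω`, for most `n` -/
def EvD (𝒰 : Ultrafilter ℕ) (g : ℕ → ℂ → ℂ) (Ω : Set ℂ) : Prop :=
  ∀ z ∈ Ω, ∃ r : ℝ, 0 < r ∧ ∀ᶠ n in (𝒰 : Filter ℕ), DifferentiableOn ℂ (g n) (ball z r) ∧ ∀ w ∈ ball z r, g n w ≠ 0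

/-- the same, and `g n` omits `0`, `1` -/
def EvO (𝒰 : Ultrafilter ℕ) (g : ℕ → ℂ → ℂ) (Ω : Set ℂ) : Prop :=
  ∀ z ∈ Ω, ∃ r : ℝ, 0 < r ∧ ∀ᶠ n in (𝒰 : Filter ℕ), DifferentiableOn ℂ (g n) (ball z r) ∧ Om (g n) (ball z r)

theorem EvO.evD {𝒰 : Ultrafilter ℕ} {g : ℕ → ℂ → ℂ} {Ω : Set ℂ} (h : EvO 𝒰 g Ω) : EvD 𝒰 g Ω := by
  intro z hz
  obtain ⟨r, hr, h1⟩ := h z hz
  exact ⟨r, hr, h1.mono fun n hn => ⟨hn.1, fun w hw => (hn.2 w hw).1⟩⟩

theorem EvO.evD_one {𝒰 : Ultrafilter ℕ} {g : ℕ → ℂ → ℂ} {Ω : Set ℂ} (h : EvO 𝒰 g Ω) : EvD 𝒰 (fun n z => 1 - g n z) Ω := by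
  intro z hz
  obtain ⟨r, hr, h1⟩ := h z hz
  exact ⟨r, hr, h1.mono fun n hn => ⟨hn.1.const_sub 1, fun w hw => (hn.2.one_sub w hw).1⟩⟩

/-- a set which is open, with open complement in a preconnected set -/
theorem all_of_clopen {Ω A : Set ℂ} (hc : IsPreconnected Ω) (h1 : ∀ z ∈ Ω, z ∈ A → A ∈ 𝓝 z) (h2 : ∀ z ∈ Ω, z ∉ A → Aᶜ ∈ 𝓝 z)
    {z₀ : ℂ} (hz₀ : z₀ ∈ Ω) (hA : z₀ ∈ A) : Ω ⊆ A := by
  have h3 := hc (interior A) (interior Aᶜ) isOpen_interior isOpen_interior (by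
    intro z hz
    by_cases h : z ∈ A
    · exact Or.inl (mem_interior_iff_mem_nhds.2 (h1 z hz h))
    · exact Or.inr (mem_interior_iff_mem_nhds.2 (h2 z hz h))) ⟨z₀, hz₀, mem_interior_iff_mem_nhds.2 (h1 z₀ hz₀ hA)⟩
  intro z hz
  by_contra h
  obtain ⟨w, -, hw1, hw2⟩ := h3 ⟨z, hz, mem_interior_iff_mem_nhds.2 (h2 z hz h)⟩
  exact (interior_subset hw2) (interior_subset hw1)

/-- **Hurwitz** on connected open sets -/
theorem hur {𝒰 : Ultrafilter ℕ} {φ : ℕ → ℂ → ℂ} {ψ : ℂ → ℂ} {Ω : Set ℂ} (hΩ : IsOpen Ω) (hc : IsPreconnected Ω)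
    (hψ : DifferentiableOn ℂ ψ Ω) (h : TendstoLocallyUniformlyOn φ ψ (𝒰 : Filter ℕ) Ω) (hE : EvD 𝒰 φ Ω) :
    (∀ z ∈ Ω, ψ z = 0) ∨ ∀ z ∈ Ω, ψ z ≠ 0 := by
  have hloc : ∀ z ∈ Ω, ∃ r : ℝ, 0 < r ∧ ball z r ⊆ Ω ∧ ((∀ w ∈ ball z r, ψ w = 0) ∨ ∀ w ∈ ball z r, ψ w ≠ 0) := by
    intro z hz
    obtain ⟨r, hr, h1⟩ := hE z hz
    obtain ⟨s, hs, hsΩ⟩ := Metric.isOpen_iff.1 hΩ z hz
    have hsub : ball z (min r s) ⊆ ball z r := ball_subset_ball (min_le_left _ _)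
    have hsub' : ball z (min r s) ⊆ Ω := (ball_subset_ball (min_le_right _ _)).trans hsΩ
    refine ⟨min r s, lt_min hr hs, hsub', ?_⟩
    refine Pool.Agent.H62.Log.hurwitz 𝒰 (φ := φ) ?_ ?_ (hψ.mono hsub') ?_
    · exact h1.mono fun n hn => hn.1.mono hsub
    · exact h1.mono fun n hn w hw => hn.2 w (hsub hw)
    · intro w w₀ hw₀ hw
      have h2 := (h.mono hsub')
      refine h2.tendsto_comp ((hψ.mono hsub').continuousOn w₀ hw₀) hw₀ ?_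
      rw [isOpen_ball.nhdsWithin_eq hw₀]
      exact hw
  by_cases hex : ∃ z₀ ∈ Ω, ψ z₀ = 0
  · obtain ⟨z₀, hz₀, h0⟩ := hex
    left
    refine all_of_clopen (A := {z | ψ z = 0}) hc ?_ ?_ hz₀ h0
    · intro z hz hzA
      obtain ⟨r, hr, -, h1 | h1⟩ := hloc z hz
      · exact mem_of_superset (ball_mem_nhds z hr) h1
      · exact absurd hzA (h1 z (mem_ball_self hr))
    · intro z hz hzA
      exact ((hψ.differentiableAt (hΩ.mem_nhds hz)).continuousAt).eventually_ne hzA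
  · right
    push Not at hex
    exact hex

/-- local boundedness from boundedness at one point -/
theorem EvO.locBdd (hS : Schottky) {𝒰 : Ultrafilter ℕ} {g : ℕ → ℂ → ℂ} {Ω : Set ℂ} (h : EvO 𝒰 g Ω) {z : ℂ} (hz : z ∈ Ω) {M : ℝ}
    (hM : ∀ᶠ n in (𝒰 : Filter ℕ), ‖g n z‖ ≤ M) : ∃ (r S : ℝ), 0 < r ∧
      ∀ᶠ n in (𝒰 : Filter ℕ), DifferentiableOn ℂ (g n) (ball z r) ∧ Om (g n) (ball z r) ∧ ∀ w ∈ ball z r, ‖g n w‖ ≤ S := by
  obtain ⟨r, hr, h1⟩ := h z hz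
  obtain ⟨S, hS⟩ := hS M
  refine ⟨r / 2, S, by positivity, ?_⟩
  have hsub : ball z (r / 2) ⊆ ball z r := ball_subset_ball (by linarith)
  filter_upwards [h1, hM] with n hn hn'
  exact ⟨hn.1.mono hsub, hn.2.mono hsub, fun w hw => hS (g n) z r hr hn.1 hn.2 hn' w (ball_subset_closedBall hw)⟩

theorem EvO.inv {𝒰 : Ultrafilter ℕ} {g : ℕ → ℂ → ℂ} {Ω : Set ℂ} (h : EvO 𝒰 g Ω) : EvO 𝒰 (fun n z => (g n z)⁻¹) Ω := by
  intro z hz
  obtain ⟨r, hr, h1⟩ := h z hz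
  exact ⟨r, hr, h1.mono fun n hn => ⟨hn.2.diff_inv hn.1, hn.2.inv⟩⟩

/-- **Montel's theorem** for functions without the values `0`, `1`. -/
theorem montel (hS : Schottky) {𝒰 : Ultrafilter ℕ} {g : ℕ → ℂ → ℂ} {Ω : Set ℂ} (hΩ : IsOpen Ω) (hc : IsPreconnected Ω) (h : EvO 𝒰 g Ω)
    {z₀ : ℂ} (hz₀ : z₀ ∈ Ω) {M : ℝ} (hM : ∀ᶠ n in (𝒰 : Filter ℕ), ‖g n z₀‖ ≤ M) :
    ∃ G : ℂ → ℂ, DifferentiableOn ℂ G Ω ∧ TendstoLocallyUniformlyOn g G (𝒰 : Filter ℕ) Ω ∧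
      (Om G Ω ∨ (∀ z ∈ Ω, G z = 0) ∨ ∀ z ∈ Ω, G z = 1) := by
  have hbd : Ω ⊆ {z | ∃ M : ℝ, ∀ᶠ n in (𝒰 : Filter ℕ), ‖g n z‖ ≤ M} := by
    refine all_of_clopen hc ?_ ?_ hz₀ ⟨M, hM⟩
    · rintro z hz ⟨M', hM'⟩
      obtain ⟨r, S, hr, h1⟩ := h.locBdd hS hz hM'
      refine mem_of_superset (ball_mem_nhds z hr) fun w hw => ⟨S, ?_⟩
      exact h1.mono fun n hn => hn.2.2 w hw
    · intro z hz hzA
      have h1 : ∀ M' : ℝ, ∀ᶠ n in (𝒰 : Filter ℕ), M' < ‖g n z‖ := by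
        intro M'
        by_contra h2
        apply hzA
        refine ⟨M', ?_⟩
        rw [Ultrafilter.eventually_not.symm] at h2
        exact h2.mono fun n hn => not_lt.1 hn
      have h2 : ∀ᶠ n in (𝒰 : Filter ℕ), ‖(g n z)⁻¹‖ ≤ 1 := by
        filter_upwards [h1 1] with n hn
        rw [norm_inv]
        exact inv_le_one_of_one_le₀ hn.le
      obtain ⟨r, S, hr, h3⟩ := h.inv.locBdd hS hz h2
      obtain ⟨H, hH, hlim⟩ := Pool.Agent.H17.montel_ultrafilter 𝒰 (F := fun n z => (g n z)⁻¹) (a := z) (r := r) (B := S)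
        (h3.mono fun n hn => hn.1) (h3.mono fun n hn => hn.2.2)
      have h0 : H z = 0 := by
        have h4 : Tendsto (fun n => (g n z)⁻¹) (𝒰 : Filter ℕ) (𝓝 (H z)) := hlim.tendsto_at (mem_ball_self hr)
        have h5 : Tendsto (fun n => (g n z)⁻¹) (𝒰 : Filter ℕ) (𝓝 0) := by
          rw [tendsto_zero_iff_norm_tendsto_zero]
          refine Metric.tendsto_nhds.2 fun ε hε => ?_
          filter_upwards [h1 ε⁻¹] with n hn
          rw [Real.dist_eq, sub_zero, abs_norm, norm_inv]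
          exact inv_lt_of_inv_lt₀ hε hn
        exact tendsto_nhds_unique h4 h5
      have h6 : (∀ w ∈ ball z r, H w = 0) ∨ ∀ w ∈ ball z r, H w ≠ 0 := by
        refine hur isOpen_ball (convex_ball z r).isPreconnected hH hlim ?_
        intro w hw
        obtain ⟨s, hs, hsr⟩ := Metric.isOpen_iff.1 isOpen_ball w hw
        exact ⟨s, hs, h3.mono fun n hn => ⟨hn.1.mono hsr, fun x hx => (hn.2.1 x (hsr hx)).1⟩⟩
      rcases h6 with h6 | h6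
      · refine mem_of_superset (ball_mem_nhds z hr) ?_
        rintro w hw ⟨M', hM'⟩
        have h7 : Tendsto (fun n => (g n w)⁻¹) (𝒰 : Filter ℕ) (𝓝 (H w)) := hlim.tendsto_at hw
        rw [h6 w hw] at h7
        have h8 : ∀ᶠ n in (𝒰 : Filter ℕ), ‖(g n w)⁻¹‖ < (|M'| + 1)⁻¹ := by
          have h9 := (tendsto_zero_iff_norm_tendsto_zero.1 h7).eventually (gt_mem_nhds (show (0 : ℝ) < (|M'| + 1)⁻¹ by positivity))
          exact h9
        obtain ⟨n, hn1, hn2, hn3⟩ := (h8.and (hM'.and h3)).exists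
        have h10 : 0 < ‖g n w‖ := norm_pos_iff.2 fun h11 => (hn3.2.1 w hw).1 (by
          show (g n w)⁻¹ = 0
          rw [h11, inv_zero])
        rw [norm_inv, inv_lt_inv₀ h10 (by positivity)] at hn1
        have := le_abs_self M'
        linarith
      · exact absurd h0 (h6 z (mem_ball_self hr))
  have hloc : ∀ z ∈ Ω, ∃ (r : ℝ) (H : ℂ → ℂ), 0 < r ∧ ball z r ⊆ Ω ∧ DifferentiableOn ℂ H (ball z r) ∧
      TendstoLocallyUniformlyOn g H (𝒰 : Filter ℕ) (ball z r) := by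
    intro z hz
    obtain ⟨M', hM'⟩ := hbd hz
    obtain ⟨r, S, hr, h1⟩ := h.locBdd hS hz hM'
    obtain ⟨s, hs, hsΩ⟩ := Metric.isOpen_iff.1 hΩ z hz
    have hsub : ball z (min r s) ⊆ ball z r := ball_subset_ball (min_le_left _ _)
    obtain ⟨H, hH, hlim⟩ := Pool.Agent.H17.montel_ultrafilter 𝒰 (F := g) (a := z) (r := min r s) (B := S)
      (h1.mono fun n hn => hn.1.mono hsub) (h1.mono fun n hn w hw => hn.2.2 w (hsub hw))
    exact ⟨min r s, H, lt_min hr hs, (ball_subset_ball (min_le_right _ _)).trans hsΩ, hH, hlim⟩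
  have hlim : ∀ z : ℂ, ∃ l : ℂ, z ∈ Ω → Tendsto (fun n => g n z) (𝒰 : Filter ℕ) (𝓝 l) := by
    intro z
    by_cases hz : z ∈ Ω
    · obtain ⟨r, H, hr, -, -, h1⟩ := hloc z hz
      exact ⟨H z, fun _ => h1.tendsto_at (mem_ball_self hr)⟩
    · exact ⟨0, fun h => absurd h hz⟩
  choose G hG using hlim
  have hGH : ∀ z ∈ Ω, ∃ r : ℝ, 0 < r ∧ ball z r ⊆ Ω ∧ DifferentiableOn ℂ G (ball z r) ∧
      TendstoLocallyUniformlyOn g G (𝒰 : Filter ℕ) (ball z r) := by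
    intro z hz
    obtain ⟨r, H, hr, hsub, hH, h1⟩ := hloc z hz
    have heq : Set.EqOn H G (ball z r) := fun w hw => tendsto_nhds_unique (h1.tendsto_at hw) (hG w (hsub hw))
    exact ⟨r, hr, hsub, hH.congr fun w hw => (heq hw).symm, h1.congr_right heq⟩
  have hGd : DifferentiableOn ℂ G Ω := by
    intro z hz
    obtain ⟨r, hr, hsub, hd, -⟩ := hGH z hz
    exact (hd.differentiableAt (ball_mem_nhds z hr)).differentiableWithinAt
  have hGt : TendstoLocallyUniformlyOn g G (𝒰 : Filter ℕ) Ω := by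
    intro u hu z hz
    obtain ⟨r, hr, hsub, -, ht⟩ := hGH z hz
    obtain ⟨t, ht1, ht2⟩ := ht u hu z (mem_ball_self hr)
    refine ⟨t, ?_, ht2⟩
    rw [isOpen_ball.nhdsWithin_eq (mem_ball_self hr)] at ht1
    exact mem_nhdsWithin_of_mem_nhds ht1
  refine ⟨G, hGd, hGt, ?_⟩
  rcases hur hΩ hc hGd hGt h.evD with h1 | h1
  · exact Or.inr (Or.inl h1)
  · have h2 : TendstoLocallyUniformlyOn (fun n z => 1 - g n z) (fun z => 1 - G z) (𝒰 : Filter ℕ) Ω := by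
      have h3 : TendstoLocallyUniformlyOn (fun (_ : ℕ) (_ : ℂ) => (1 : ℂ)) (fun _ => 1) (𝒰 : Filter ℕ) Ω := by
        intro u hu z _
        exact ⟨Set.univ, univ_mem, Eventually.of_forall fun _ _ _ => refl_mem_uniformity hu⟩
      exact h3.sub hGt
    rcases hur hΩ hc (hGd.const_sub 1) h2 h.evD_one with h3 | h3
    · right
      right
      intro z hz
      exact (sub_eq_zero.1 (h3 z hz)).symm
    · left
      intro z hz
      exact ⟨h1 z hz, fun h4 => h3 z hz (by rw [h4, sub_self])⟩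

end Pool.Agent.H41.LR
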