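import Pool.Agent.H41.LR.Defs

/-!
# LR Pic: functions without the values `0`, `1` on a punctured disc are meromorphic at the centre
-/

set_option autoImplicit false

open Topology Filter Metric

noncomputable section

namespace Pool.Agent.H41.LR

/-- On small circles `f` or `1 / f` is bounded by a universal constant. -/
theorem circle_or (hS : Schottky) : ∃ S : ℝ, ∀ (f : ℂ → ℂ) (b : ℂ) (r : ℝ), 0 < r → DifferentiableOn ℂ f (ball b r \ {b}) → Om f (ball b r \ {b}) →
    ∀ ρ : ℝ, 0 < ρ → ρ * Real.exp 14 < r → (∀ w ∈ sphere b ρ, ‖f w‖ ≤ S) ∨ (∀ w ∈ sphere b ρ, ‖(f w)⁻¹‖ ≤ S) := by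
  obtain ⟨S, hS⟩ := hS 1
  refine ⟨S, ?_⟩
  have key : ∀ (f : ℂ → ℂ) (b : ℂ) (r : ℝ), 0 < r → DifferentiableOn ℂ f (ball b r \ {b}) → Om f (ball b r \ {b}) →
      ∀ ρ : ℝ, 0 < ρ → ρ * Real.exp 14 < r → ‖f (b + ρ)‖ ≤ 1 → ∀ w ∈ sphere b ρ, ‖f w‖ ≤ S := by
    intro f b r hr hf hO ρ hρ hρr h1 w hw
    set e : ℂ → ℂ := fun ζ => b + Complex.exp ζ with he
    have hmap : ∀ ζ ∈ ball ((Real.log ρ : ℝ) : ℂ) 14, e ζ ∈ ball b r \ {b} := by
      intro ζ hζ
      refine ⟨?_, ?_⟩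
      · rw [mem_ball_iff_norm, he]
        show ‖b + Complex.exp ζ - b‖ < r
        rw [add_sub_cancel_left, Complex.norm_exp]
        have h2 : ζ.re < Real.log ρ + 14 := by
          rw [mem_ball_iff_norm] at hζ
          have h3 := (Complex.abs_re_le_norm (ζ - ((Real.log ρ : ℝ) : ℂ))).trans_lt hζ
          rw [Complex.sub_re, Complex.ofReal_re] at h3
          linarith [(abs_lt.1 h3).2]
        calc Real.exp ζ.re < Real.exp (Real.log ρ + 14) := Real.exp_lt_exp.2 h2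
          _ = ρ * Real.exp 14 := by rw [Real.exp_add, Real.exp_log hρ]
          _ < r := hρr
      · intro h2
        have h3 : b + Complex.exp ζ = b := h2
        rw [add_eq_left] at h3
        exact Complex.exp_ne_zero _ h3
    have hd : DifferentiableOn ℂ (fun ζ => f (e ζ)) (ball ((Real.log ρ : ℝ) : ℂ) 14) :=
      hf.comp ((differentiable_const b).add Complex.differentiable_exp).differentiableOn hmap
    have hO' : Om (fun ζ => f (e ζ)) (ball ((Real.log ρ : ℝ) : ℂ) 14) := fun ζ hζ => hO _ (hmap ζ hζ)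
    have h0 : ‖f (e ((Real.log ρ : ℝ) : ℂ))‖ ≤ 1 := by
      have h2 : e ((Real.log ρ : ℝ) : ℂ) = b + ρ := by
        show b + Complex.exp ((Real.log ρ : ℝ) : ℂ) = b + ρ
        rw [← Complex.ofReal_exp, Real.exp_log hρ]
      rw [h2]
      exact h1
    have h2 := hS (fun ζ => f (e ζ)) ((Real.log ρ : ℝ) : ℂ) 14 (by norm_num) hd hO' h0
    rw [mem_sphere_iff_norm] at hw
    have hwb : w - b ≠ 0 := by
      intro h3
      rw [h3, norm_zero] at hw
      linarith
    have h3 : e (Complex.log (w - b)) = w := by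
      show b + Complex.exp (Complex.log (w - b)) = w
      rw [Complex.exp_log hwb]
      ring
    have h4 := h2 (Complex.log (w - b)) (by
      rw [mem_closedBall, dist_eq_norm]
      have h5 : Complex.log (w - b) - ((Real.log ρ : ℝ) : ℂ) = ((Complex.arg (w - b) : ℝ) : ℂ) * Complex.I := by
        apply Complex.ext
        · rw [Complex.sub_re, Complex.log_re, hw, Complex.ofReal_re, sub_self]
          simp
        · rw [Complex.sub_im, Complex.log_im, Complex.ofReal_im, sub_zero]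
          simp
      rw [h5, norm_mul, Complex.norm_I, mul_one, Complex.norm_real, Real.norm_eq_abs]
      have h6 := Complex.abs_arg_le_pi (w - b)
      have h7 := Real.pi_lt_d2
      linarith)
    rw [← h3]
    exact h4
  intro f b r hr hf hO ρ hρ hρr
  by_cases h : ‖f (b + ρ)‖ ≤ 1
  · exact Or.inl (key f b r hr hf hO ρ hρ hρr h)
  · right
    push Not at h
    refine key (fun w => (f w)⁻¹) b r hr (hO.diff_inv hf) hO.inv ρ hρ hρr ?_
    show ‖(f (b + ρ))⁻¹‖ ≤ 1
    rw [norm_inv]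
    exact inv_le_one_of_one_le₀ h.le

/-- A bounded holomorphic function on a punctured disc is meromorphic. -/
theorem mero_of_bdd {f : ℂ → ℂ} {b : ℂ} {r S : ℝ} (hr : 0 < r) (hf : DifferentiableOn ℂ f (ball b r \ {b}))
    (hb : ∀ w ∈ ball b r \ {b}, ‖f w‖ ≤ S) : MeromorphicAt f b := by
  have h1 := Complex.differentiableOn_update_limUnder_of_bddAbove (ball_mem_nhds b hr) hf ⟨S, by
    rintro _ ⟨w, hw, rfl⟩
    exact hb w hw⟩
  have h2 : AnalyticAt ℂ (Function.update f b (limUnder (𝓝[≠] b) f)) b := h1.analyticAt (ball_mem_nhds b hr)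
  refine h2.meromorphicAt.congr ?_
  have h3 : ∀ᶠ w in 𝓝[≠] b, w ≠ b := self_mem_nhdsWithin
  filter_upwards [h3] with w hw
  exact Function.update_of_ne hw _ _

/-- the maximum principle on a ring -/
theorem ring_bdd {f : ℂ → ℂ} {b : ℂ} {r S ρ₁ ρ₂ : ℝ} (hf : DifferentiableOn ℂ f (ball b r \ {b})) (h1 : 0 < ρ₁) (h2 : ρ₂ < r)
    (hb1 : ∀ w ∈ sphere b ρ₁, ‖f w‖ ≤ S) (hb2 : ∀ w ∈ sphere b ρ₂, ‖f w‖ ≤ S) {z : ℂ} (hz1 : ρ₁ ≤ ‖z - b‖) (hz2 : ‖z - b‖ ≤ ρ₂) :
    ‖f z‖ ≤ S := by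
  rcases hz1.eq_or_lt with he | hl
  · exact hb1 z (by rw [mem_sphere_iff_norm]; exact he.symm)
  rcases hz2.eq_or_lt with he | hl'
  · exact hb2 z (by rw [mem_sphere_iff_norm]; exact he)
  set U : Set ℂ := {w | ρ₁ < ‖w - b‖ ∧ ‖w - b‖ < ρ₂} with hU
  have hcont : Continuous fun w : ℂ => ‖w - b‖ := (continuous_id.sub continuous_const).norm
  have hcl : closure U ⊆ {w | ρ₁ ≤ ‖w - b‖ ∧ ‖w - b‖ ≤ ρ₂} := by
    refine closure_minimal (fun w hw => ⟨hw.1.le, hw.2.le⟩) ?_
    exact (isClosed_le continuous_const hcont).inter (isClosed_le hcont continuous_const)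
  have hUo : IsOpen U := (isOpen_lt continuous_const hcont).inter (isOpen_lt hcont continuous_const)
  have hUb : Bornology.IsBounded U := by
    refine (isBounded_ball (x := b) (r := ρ₂)).subset ?_
    intro w hw
    rw [mem_ball_iff_norm]
    exact hw.2
  have hd : DiffContOnCl ℂ f U := by
    refine DifferentiableOn.diffContOnCl (hf.mono fun w hw => ?_)
    obtain ⟨h3, h4⟩ := hcl hw
    refine ⟨by rw [mem_ball_iff_norm]; linarith, ?_⟩
    intro h5
    rw [Set.mem_singleton_iff] at h5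
    rw [h5, sub_self, norm_zero] at h3
    linarith
  refine Complex.norm_le_of_forall_mem_frontier_norm_le hUb hd ?_ (subset_closure ⟨hl, hl'⟩)
  intro w hw
  rw [frontier, hUo.interior_eq] at hw
  obtain ⟨h3, h4⟩ := hcl hw.1
  have h5 : ¬ (ρ₁ < ‖w - b‖ ∧ ‖w - b‖ < ρ₂) := hw.2
  rcases h3.eq_or_lt with h6 | h6
  · exact hb1 w (by rw [mem_sphere_iff_norm]; exact h6.symm)
  · rcases h4.eq_or_lt with h7 | h7
    · exact hb2 w (by rw [mem_sphere_iff_norm]; exact h7)
    · exact absurd ⟨h6, h7⟩ h5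

/-- **Picard's theorem**: a function without the values `0`, `1` on a punctured disc is meromorphic at the centre. -/
theorem picard (hS : Schottky) {f : ℂ → ℂ} {b : ℂ} {r : ℝ} (hr : 0 < r) (hf : DifferentiableOn ℂ f (ball b r \ {b}))
    (hO : Om f (ball b r \ {b})) : MeromorphicAt f b := by
  obtain ⟨S, hS⟩ := circle_or hS
  have hE : 0 < Real.exp 14 := Real.exp_pos _
  have hE1 : 1 ≤ Real.exp 14 := Real.one_le_exp (by norm_num)
  set r' : ℝ := r / (2 * Real.exp 14) with hr'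
  have hr'0 : 0 < r' := by positivity
  have hr'e : ∀ ρ, ρ < r' → ρ * Real.exp 14 < r := by
    intro ρ hρ
    have h1 : ρ * Real.exp 14 < r' * Real.exp 14 := mul_lt_mul_of_pos_right hρ hE
    have h2 : r' * Real.exp 14 = r / 2 := by
      rw [hr']
      field_simp
    linarith
  have hr'r : r' < r := by
    rw [hr', div_lt_iff₀ (by positivity)]
    nlinarith
  by_cases hA : ∀ ρ₀ : ℝ, 0 < ρ₀ → ∃ ρ, 0 < ρ ∧ ρ < ρ₀ ∧ ∀ w ∈ sphere b ρ, ‖f w‖ ≤ S
  · obtain ⟨ρ₂, h20, h2r, hb2⟩ := hA r' hr'0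
    refine mero_of_bdd (r := ρ₂) (S := S) h20 (hf.mono fun w hw => ⟨ball_subset_ball (by linarith) hw.1, hw.2⟩) ?_
    intro w hw
    have hw0 : 0 < ‖w - b‖ := norm_pos_iff.2 (sub_ne_zero.2 hw.2)
    obtain ⟨ρ₁, h10, h1r, hb1⟩ := hA ‖w - b‖ hw0
    have hw2 := hw.1
    rw [mem_ball_iff_norm] at hw2
    exact ring_bdd hf h10 (by linarith) hb1 hb2 h1r.le hw2.le
  · push Not at hA
    obtain ⟨ρ₀, hρ₀, hA⟩ := hA
    set ρ' : ℝ := min ρ₀ r' with hρ'
    have hρ'0 : 0 < ρ' := lt_min hρ₀ hr'0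
    have h1 : MeromorphicAt (fun w => (f w)⁻¹) b := by
      refine mero_of_bdd (r := ρ') (S := S) hρ'0 ((hO.diff_inv hf).mono fun w hw => ⟨ball_subset_ball ?_ hw.1, hw.2⟩) ?_
      · exact (min_le_right _ _).trans hr'r.le
      · intro w hw
        have hw0 : 0 < ‖w - b‖ := norm_pos_iff.2 (sub_ne_zero.2 hw.2)
        have hw2 := hw.1
        rw [mem_ball_iff_norm] at hw2
        rcases hS f b r hr hf hO ‖w - b‖ hw0 (hr'e _ (hw2.trans_le (min_le_right _ _))) with h3 | h3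
        · obtain ⟨w', hw', hlt⟩ := hA ‖w - b‖ hw0 (hw2.trans_le (min_le_left _ _))
          exact absurd (h3 w' hw') (not_le.2 hlt)
        · exact h3 w (by rw [mem_sphere_iff_norm])
    have h2 := h1.inv
    refine h2.congr ?_
    filter_upwards with w
    show ((f w)⁻¹)⁻¹ = f w
    exact inv_inv _

end Pool.Agent.H41.LR
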