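import Pool.Agent.H41.LR.Map
import Pool.Agent.H41.LR.Dep
import Pool.Agent.H41.LR.Defs

/-!
# LR Ratl: periodic meromorphic functions without the values `0`, `1` over the ends are rational in the exponential
-/

set_option autoImplicit false

open Topology Filter Metric

noncomputable section

namespace Pool.Agent.H41.LR

open Pool.Agent.H17 (PN VanishesAt HolomorphicInto vanishesAt_mk_iff)
open Pool.Agent.H36.BP (EN wd)
open Pool.Agent.H62.EF (MN pr)
open Pool.Agent.H7.Per (prP per)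

/-- the vector `(1, w)` -/
def w1 (w : ℂ) : EN 1 := WithLp.toLp 2 ![1, w]

theorem w1_ne (w : ℂ) : w1 w ≠ 0 := by
  intro h
  have h1 : w1 w 0 = (0 : EN 1) 0 := by rw [h]
  exact one_ne_zero h1

theorem norm_w1 (w : ℂ) : ‖w1 w‖ ^ 2 = 1 + ‖w‖ ^ 2 := by
  rw [EuclideanSpace.norm_sq_eq, Fin.sum_univ_two]
  show ‖(1 : ℂ)‖ ^ 2 + ‖w‖ ^ 2 = _
  rw [norm_one, one_pow]

theorem one_le_w1 (w : ℂ) : 1 ≤ ‖w1 w‖ := by
  have h1 := norm_w1 w
  nlinarith [norm_nonneg (w1 w), sq_nonneg ‖w‖]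

theorem norm_le_w1 (w : ℂ) : ‖w‖ ≤ ‖w1 w‖ := by
  have h1 := norm_w1 w
  nlinarith [norm_nonneg (w1 w), norm_nonneg w]

theorem wd_w1 (a b : ℂ) : wd (w1 a) (w1 b) = ‖a - b‖ := by
  have h1 := Pool.Agent.H62.EF.wd_sq (w1 a) (w1 b)
  have h2 : (inner ℂ (w1 a) (w1 b) : ℂ) = 1 + (starRingEnd ℂ) a * b := by
    rw [PiLp.inner_apply, Fin.sum_univ_two]
    show (inner ℂ (1 : ℂ) (1 : ℂ) : ℂ) + inner ℂ a b = _
    rw [RCLike.inner_apply, RCLike.inner_apply, map_one, mul_one]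
    ring
  rw [norm_w1, norm_w1, h2] at h1
  have h3 : wd (w1 a) (w1 b) ^ 2 = ‖a - b‖ ^ 2 := by
    rw [h1, ← Complex.normSq_eq_norm_sq, ← Complex.normSq_eq_norm_sq, ← Complex.normSq_eq_norm_sq, ← Complex.normSq_eq_norm_sq]
    simp only [Complex.normSq_apply, Complex.add_re, Complex.add_im, Complex.mul_re, Complex.mul_im, Complex.conj_re, Complex.conj_im,
      Complex.one_re, Complex.one_im, Complex.sub_re, Complex.sub_im]
    ring
  have h4 : 0 ≤ wd (w1 a) (w1 b) := Real.sqrt_nonneg _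
  exact (pow_left_inj₀ h4 (norm_nonneg _) two_ne_zero).1 h3

theorem dist_w1 (a b : ℂ) : dist (pr (w1 a)) (pr (w1 b)) = Real.sqrt 2 * (‖a - b‖ / (‖w1 a‖ * ‖w1 b‖)) := by
  rw [Pool.Agent.H62.EF.dist_pr (w1_ne a) (w1_ne b), wd_w1]

theorem dist_w1_le (a b : ℂ) : dist (pr (w1 a)) (pr (w1 b)) ≤ 2 * ‖a - b‖ := by
  rw [dist_w1]
  have h1 : 1 ≤ ‖w1 a‖ * ‖w1 b‖ := one_le_mul_of_one_le_of_one_le (one_le_w1 a) (one_le_w1 b)
  have h2 : Real.sqrt 2 ≤ 2 := by
    rw [Real.sqrt_le_left (by norm_num)]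
    norm_num
  have h3 : ‖a - b‖ / (‖w1 a‖ * ‖w1 b‖) ≤ ‖a - b‖ := div_le_self (norm_nonneg _) h1
  exact mul_le_mul h2 h3 (by positivity) (by norm_num)

theorem dist_w1_inv {a b : ℂ} (ha : a ≠ 0) (hb : b ≠ 0) : dist (pr (w1 a)) (pr (w1 b)) ≤ 2 * ‖a⁻¹ - b⁻¹‖ := by
  rw [dist_w1]
  have ha0 : 0 < ‖a‖ := norm_pos_iff.2 ha
  have hb0 : 0 < ‖b‖ := norm_pos_iff.2 hb
  have h1 : ‖a‖ * ‖b‖ ≤ ‖w1 a‖ * ‖w1 b‖ := mul_le_mul (norm_le_w1 a) (norm_le_w1 b) hb0.le (norm_nonneg _)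
  have h2 : Real.sqrt 2 ≤ 2 := by
    rw [Real.sqrt_le_left (by norm_num)]
    norm_num
  have h3 : ‖a⁻¹ - b⁻¹‖ = ‖a - b‖ / (‖a‖ * ‖b‖) := by
    rw [inv_sub_inv ha hb, norm_div, norm_mul, norm_sub_rev]
  rw [h3]
  refine mul_le_mul h2 ?_ (by positivity) (by norm_num)
  exact div_le_div_of_nonneg_left (norm_nonneg _) (by positivity) h1

/-- Functions without the values `0`, `1` on large discs have small oscillation. -/
theorem osc (hS : Schottky) {ε L : ℝ} (hε : 0 < ε) (hL : 0 < L) : ∃ R : ℝ, 0 < R ∧ ∀ (f : ℂ → ℂ) (z : ℂ), DifferentiableOn ℂ f (ball z R) →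
    Om f (ball z R) → ∀ w, ‖w - z‖ ≤ L → dist (pr (w1 (f z))) (pr (w1 (f w))) ≤ ε := by
  obtain ⟨S, hS⟩ := hS 1
  set T : ℝ := |S| + 1 with hT
  have hT0 : 0 < T := by positivity
  set R : ℝ := 8 * L + 16 * T * L / ε with hR
  have hR0 : 0 < R := by positivity
  have key : ∀ (f : ℂ → ℂ) (z : ℂ), DifferentiableOn ℂ f (ball z R) → Om f (ball z R) → ‖f z‖ ≤ 1 → ∀ w, ‖w - z‖ ≤ L → ‖f w - f z‖ ≤ ε / 2 := by
    intro f z hf hO h1 w hw
    have h2 : ∀ x ∈ ball z (R / 2), ‖f x‖ ≤ T := by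
      intro x hx
      have h3 := hS f z R hR0 hf hO h1 x (ball_subset_closedBall hx)
      have := le_abs_self S
      linarith
    have hwR : ‖w - z‖ < R / 4 := by
      have h4 : 0 < 16 * T * L / ε := by positivity
      have h5 : 2 * L ≤ R / 4 - 0 := by linarith
      linarith
    have h3 := Pool.Agent.H17.lipschitz_of_bounded (F := f) (a := z) (r := R / 2) (B := T) (hf.mono (ball_subset_ball (by linarith))) h2
      (z₀ := z) (ρ := R / 4) (by positivity) (by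
        have : 2 * (R / 4) = R / 2 := by ring
        rw [this]) (mem_ball_self (by positivity)) (w := w) (by rw [mem_ball_iff_norm]; exact hwR)
    refine h3.trans ?_
    have h4 : T / (R / 4 / 2) * ‖w - z‖ ≤ T / (R / 4 / 2) * L := mul_le_mul_of_nonneg_left hw (by positivity)
    refine h4.trans ?_
    have h5 : T / (R / 4 / 2) * L = 8 * T * L / R := by
      field_simp
      ring
    rw [h5, div_le_iff₀ hR0]
    have h6 : ε / 2 * R = 4 * L * ε + 8 * T * L := by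
      rw [hR]
      field_simp
      ring
    rw [h6]
    nlinarith [mul_pos hL hε]
  refine ⟨R, hR0, ?_⟩
  intro f z hf hO w hw
  have hzb : z ∈ ball z R := mem_ball_self hR0
  have hwb : w ∈ ball z R := by
    rw [mem_ball_iff_norm]
    have h4 : 0 < 16 * T * L / ε := by positivity
    linarith
  by_cases h : ‖f z‖ ≤ 1
  · refine (dist_w1_le _ _).trans ?_
    have h1 := key f z hf hO h w hw
    rw [norm_sub_rev] at h1
    linarith
  · push Not at h
    refine (dist_w1_inv (hO z hzb).1 (hO w hwb).1).trans ?_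
    have h1 := key (fun x => (f x)⁻¹) z (hO.diff_inv hf) hO.inv (by
      show ‖(f z)⁻¹‖ ≤ 1
      rw [norm_inv]
      exact inv_le_one_of_one_le₀ h.le) w hw
    have h2 : ‖(f w)⁻¹ - (f z)⁻¹‖ ≤ ε / 2 := h1
    rw [norm_sub_rev] at h2
    linarith

theorem prP_aff (w : ℂ) : prP (aff w) = pr (w1 w) := Pool.Agent.H7.Per.prP_mk rfl

theorem prP_inj {x y : PN 1} (h : prP x = prP y) : x = y := by
  have h1 : pr (WithLp.toLp 2 x.rep : EN 1) = pr (WithLp.toLp 2 y.rep) := h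
  rw [Pool.Agent.H62.EF.pr_eq_iff (Pool.Agent.H7.Per.toLp_ne x.rep_nonzero) (Pool.Agent.H7.Per.toLp_ne y.rep_nonzero)] at h1
  obtain ⟨c, hc, h2⟩ := h1
  rw [← x.mk_rep, ← y.mk_rep, Projectivization.mk_eq_mk_iff']
  refine ⟨c, ?_⟩
  have h3 := congrArg WithLp.ofLp h2
  exact h3.symm

/-- **Rationality.** -/
theorem ratl (hS : Schottky) {f : ℂ → ℂ} (hf : ∀ z, MeromorphicAt f z) {k : ℕ} (hk : 0 < k)
    (hper : ∀ z₀, ∀ᶠ z in 𝓝[≠] z₀, f (z + (per k : ℂ) * Complex.I) = f z) {W : ℝ}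
    (hW : ∀ z : ℂ, W < |z.re| → AnalyticAt ℂ f z ∧ f z ≠ 0 ∧ f z ≠ 1) :
    ∃ P Q : Polynomial ℂ, ∀ z, AnalyticAt ℂ f z → Q.eval (Complex.exp (z / k)) ≠ 0 ∧ f z * Q.eval (Complex.exp (z / k)) = P.eval (Complex.exp (z / k)) := by
  obtain ⟨F, hF, hFa⟩ := exists_map hf
  set T : ℂ := (per k : ℂ) * Complex.I with hT
  have hFper : ∀ z, F (z + T) = F z := by
    intro z₀
    apply prP_inj
    have h1 : ContinuousAt (fun z => prP (F (z + T))) z₀ := by
      have h2 := Pool.Agent.H7.Per.continuousAt_prP hF (Set.mem_univ (z₀ + T))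
      exact ContinuousAt.comp (g := fun z => prP (F z)) (f := fun z => z + T) h2 (continuous_id.add continuous_const).continuousAt
    have h2 : ContinuousAt (fun z => prP (F z)) z₀ := Pool.Agent.H7.Per.continuousAt_prP hF (Set.mem_univ z₀)
    have h3 : ∀ᶠ z in 𝓝[≠] z₀, prP (F (z + T)) = prP (F z) := by
      have h4 : ∀ᶠ z in 𝓝[≠] z₀, AnalyticAt ℂ f (z + T) := by
        have h5 := (hf (z₀ + T)).eventually_analyticAt
        have h6 : Tendsto (fun z : ℂ => z + T) (𝓝[≠] z₀) (𝓝[≠] (z₀ + T)) := by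
          refine tendsto_nhdsWithin_iff.2 ⟨((continuous_id.add continuous_const).tendsto z₀).mono_left nhdsWithin_le_nhds, ?_⟩
          filter_upwards [self_mem_nhdsWithin] with z hz h7
          exact hz (add_right_cancel h7)
        exact h6.eventually h5
      filter_upwards [hper z₀, h4, (hf z₀).eventually_analyticAt] with z h5 h6 h7
      rw [hFa _ h6, hFa _ h7, h5]
    exact tendsto_nhds_unique (h1.tendsto.mono_left nhdsWithin_le_nhds)
      ((h2.tendsto.mono_left nhdsWithin_le_nhds).congr' (h3.mono fun z hz => hz.symm))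
  obtain ⟨q, hq⟩ := Pool.Agent.H7.Per.exists_rational hF hk hFper (by
    intro ε hε
    obtain ⟨R, hR, hosc⟩ := osc hS hε (Pool.Agent.H7.Per.per_pos hk)
    refine ⟨|W| + R + 1, fun z z' h1 h2 h3 => ?_⟩
    have hWb : ∀ x ∈ ball z R, W < |x.re| := by
      intro x hx
      rw [mem_ball_iff_norm] at hx
      have h4 := (Complex.abs_re_le_norm (x - z)).trans_lt hx
      rw [Complex.sub_re] at h4
      have h5 := abs_sub_abs_le_abs_sub z.re x.re
      rw [abs_sub_comm] at h5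
      have h6 := le_abs_self W
      linarith
    have hz' : ‖z' - z‖ ≤ per k := by
      have h4 : z' - z = ((z'.im - z.im : ℝ) : ℂ) * Complex.I := by
        apply Complex.ext
        · rw [Complex.sub_re, h2, sub_self]
          simp
        · rw [Complex.sub_im]
          simp
      rw [h4, norm_mul, Complex.norm_I, mul_one, Complex.norm_real, Real.norm_eq_abs]
      exact h3
    have hzW : W < |z.re| := hWb z (mem_ball_self hR)
    have hz'W : W < |z'.re| := by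
      rw [h2]
      exact hzW
    rw [hFa z (hW z hzW).1, hFa z' (hW z' hz'W).1, prP_aff, prP_aff]
    exact hosc f z (fun x hx => ((hW x (hWb x hx)).1.differentiableAt).differentiableWithinAt) (fun x hx => (hW x (hWb x hx)).2) z' hz')
  refine ⟨q 1, q 0, fun z hz => ?_⟩
  obtain ⟨h1, h2⟩ := hq z
  rw [hFa z hz] at h2
  have h3 := eq_of_mk _ _ h2
  have h4 : (1 : ℂ) * (q 1).eval (Complex.exp (z / k)) = f z * (q 0).eval (Complex.exp (z / k)) := h3
  rw [one_mul] at h4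
  refine ⟨?_, h4.symm⟩
  intro h5
  apply h1
  funext i
  fin_cases i
  · exact h5
  · show (q 1).eval (Complex.exp (z / k)) = 0
    rw [h4, h5, mul_zero]

/-- **Algebraicity.** -/
theorem exists_rel (hS : Schottky) {f : ℂ → ℂ} (hf : ∀ z, MeromorphicAt f z) {k : ℕ} (hk : 0 < k)
    (hper : ∀ z₀, ∀ᶠ z in 𝓝[≠] z₀, f (z + (per k : ℂ) * Complex.I) = f z) {W : ℝ}
    (hW : ∀ z : ℂ, W < |z.re| → AnalyticAt ℂ f z ∧ f z ≠ 0 ∧ f z ≠ 1) :
    ∃ Φ : MvPolynomial (Fin 2) ℂ, Φ ≠ 0 ∧ ∀ z, AnalyticAt ℂ f z → MvPolynomial.eval ![Complex.exp z, f z] Φ = 0 := by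
  obtain ⟨P, Q, hPQ⟩ := ratl hS hf hk hper hW
  obtain ⟨Φ, hΦ, h1⟩ := exists_dep P Q hk
  refine ⟨Φ, hΦ, fun z hz => ?_⟩
  obtain ⟨h2, h3⟩ := hPQ z hz
  have h4 := h1 _ h2
  have hkc : (k : ℂ) ≠ 0 := by exact_mod_cast hk.ne'
  have h5 : Complex.exp (z / k) ^ k = Complex.exp z := by
    rw [← Complex.exp_nat_mul, mul_div_cancel₀ _ hkc]
  have h6 : P.eval (Complex.exp (z / k)) / Q.eval (Complex.exp (z / k)) = f z := by
    rw [← h3, mul_div_cancel_right₀ _ h2]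
  rw [h5, h6] at h4
  exact h4

end Pool.Agent.H41.LR
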