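import Pool.Agent.H41.LR.Sch
import Pool.Agent.H62.LR.Landau

/-!
# LR Schottky: Schottky's theorem
-/

set_option autoImplicit false

open Topology Filter Metric

noncomputable section

namespace Pool.Agent.H41.LR

/-- **Schottky's theorem.** -/
theorem schottky : Schottky := schottky_of Pool.Agent.H62.LR.local_bound Pool.Agent.H62.LR.harnack3

/-- **Picard's little theorem.** -/
theorem little_picard {f : ℂ → ℂ} (hf : Differentiable ℂ f) (hO : ∀ z, f z ≠ 0 ∧ f z ≠ 1) (z w : ℂ) : f z = f w := by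
  obtain ⟨S, hS⟩ := schottky ‖f 0‖
  refine hf.apply_eq_apply_of_bounded ?_ z w
  refine (isBounded_iff_forall_norm_le).2 ⟨S, ?_⟩
  rintro _ ⟨x, rfl⟩
  refine hS f 0 (2 * (‖x‖ + 1)) (by positivity) hf.differentiableOn (fun y _ => hO y) le_rfl x ?_
  rw [mem_closedBall_zero_iff]
  linarith

end Pool.Agent.H41.LR
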