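import Pool.Agent.H41.LR.Bd
import Pool.Agent.H41.LR.Ratl
import Pool.Agent.H41.LR.Schottky

/-!
# LR Rel: algebraic relations for the members of `Tm` on half planes
-/

set_option autoImplicit false

open Topology Filter Metric MvPolynomial

noncomputable section

namespace Pool.Agent.H41.LR

open Pool.Agent.H62.LR (BaseD Tm)
open Pool.Agent.H87.LU (HP)
open Pool.Agent.H7.Per (per)

/-- the output of the dynamical part -/
def Out (p : ℝ) (B : Set ℂ) (𝓛 : Set (ℂ → ℂ)) (C A : Set ℂ) : Prop :=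
  ∃ (q : ℕ) (𝓕 : Set (ℂ → ℂ)), 1 ≤ q ∧ 𝓕.Finite ∧ 𝓕 ⊆ Tm B 𝓛 C A Set.univ ∧
      (∀ f ∈ Tm B 𝓛 C A Set.univ, ∃ g ∈ 𝓕, ∀ z, z ∉ B → f z = g z) ∧
      (∀ σ ρ : ℝ, σ = 1 ∨ σ = -1 → ∀ f ∈ Tm B 𝓛 C A (HP σ ρ), ∃ g ∈ 𝓕, ∀ z ∈ HP σ ρ, z ∉ B → f z = g z) ∧
      ∀ f ∈ 𝓕, ∀ z, z ∉ B → f (z + p * q * Complex.I) = f z

/-- finitely many relations -/
def FinRel (B : Set ℂ) (𝓣 : Set (ℂ → ℂ)) (ρ : ℝ) (Ψ : Set (MvPolynomial (Fin 2) ℂ)) : Prop :=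
  ∀ f ∈ 𝓣, ∃ Φ ∈ Ψ, ∀ z ∈ HP 1 ρ, z ∉ B → eval ![Complex.exp z, f z] Φ = 0

/-- the bad points are isolated -/
theorem ev_notMem {p : ℝ} {B : Set ℂ} {δ W : ℝ} {𝓛 : Set (ℂ → ℂ)} {C A : Set ℂ} (h : BaseD p B δ W 𝓛 C A) (z₀ : ℂ) : ∀ᶠ z in 𝓝[≠] z₀, z ∉ B := by
  have hδ := h.δ_pos
  by_cases hz₀ : ∃ b ∈ B, b ∈ ball z₀ δ
  · obtain ⟨b, hb, hb1⟩ := hz₀
    rw [mem_ball_iff_norm] at hb1
    have h1 : ∀ᶠ z in 𝓝[≠] z₀, z ≠ b := by
      by_cases h2 : z₀ = b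
      · rw [← h2]
        exact self_mem_nhdsWithin
      · exact nhdsWithin_le_nhds (isOpen_ne.mem_nhds h2)
    have h2 : ∀ᶠ z in 𝓝[≠] z₀, z ∈ ball z₀ δ := nhdsWithin_le_nhds (ball_mem_nhds z₀ hδ)
    filter_upwards [h1, h2] with z hz1 hz2 hz3
    rw [mem_ball_iff_norm] at hz2
    have h4 := h.B_sep z hz3 b hb hz1
    have h5 : ‖z - b‖ ≤ ‖z - z₀‖ + ‖b - z₀‖ := by
      have h6 := norm_sub_le (z - z₀) (b - z₀)
      rwa [sub_sub_sub_cancel_right] at h6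
    linarith
  · push Not at hz₀
    have h2 : ∀ᶠ z in 𝓝[≠] z₀, z ∈ ball z₀ δ := nhdsWithin_le_nhds (ball_mem_nhds z₀ hδ)
    filter_upwards [h2] with z hz1 hz2
    exact hz₀ z hz2 hz1

/-- **Relations.** -/
theorem exists_finRel {B : Set ℂ} {δ W : ℝ} {𝓛 : Set (ℂ → ℂ)} {C A : Set ℂ} (h : BaseD (2 * Real.pi) B δ W 𝓛 C A)
    (hout : Out (2 * Real.pi) B 𝓛 C A) : ∃ Ψ : Set (MvPolynomial (Fin 2) ℂ), Ψ.Finite ∧ (0 : MvPolynomial (Fin 2) ℂ) ∉ Ψ ∧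
      ∀ ρ : ℝ, FinRel B (Tm B 𝓛 C A (HP 1 ρ)) ρ Ψ := by
  obtain ⟨q, 𝓕, hq, hfin, hsub, -, hHP, hper⟩ := hout
  have hrel : ∀ f : ℂ → ℂ, f ∈ 𝓕 → ∃ Φ : MvPolynomial (Fin 2) ℂ, Φ ≠ 0 ∧ ∀ z, AnalyticAt ℂ f z → eval ![Complex.exp z, f z] Φ = 0 := by
    intro f hf
    have hT := hsub hf
    refine exists_rel schottky (fun z => hT.1 z (Set.mem_univ z)) (k := q) hq ?_ (W := W) ?_
    · intro z₀
      filter_upwards [ev_notMem h z₀] with z hz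
      have h1 := hper f hf z hz
      have h2 : ((per q : ℝ) : ℂ) * Complex.I = ((2 * Real.pi : ℝ) : ℂ) * q * Complex.I := by
        unfold per
        push_cast
        ring
      rw [h2]
      exact h1
    · intro z hz
      have hzB : z ∉ B := by
        intro hb
        have h1 := h.B_re z hb
        have h2 := h.δ_pos
        linarith
      obtain ⟨h1, h2, h3, -⟩ := hT.2.1 z (Set.mem_univ z) hzB
      exact ⟨h1, h2, h3⟩
  choose! Φ hΦ0 hΦ using hrel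
  refine ⟨Φ '' 𝓕, hfin.image _, ?_, ?_⟩
  · rintro ⟨f, hf, h1⟩
    exact hΦ0 f hf h1
  · intro ρ f hf
    obtain ⟨g, hg, h1⟩ := hHP 1 ρ (Or.inl rfl) f hf
    refine ⟨Φ g, ⟨g, hg, rfl⟩, fun z hz hzB => ?_⟩
    rw [h1 z hz hzB]
    exact hΦ g hg z ((hsub hg).2.1 z (Set.mem_univ z) hzB).1

/-- the substitution `y ↦ 1 - y` -/
theorem sub_one (Φ : MvPolynomial (Fin 2) ℂ) (hΦ : Φ ≠ 0) : ∃ Φ' : MvPolynomial (Fin 2) ℂ, Φ' ≠ 0 ∧ ∀ x y : ℂ, eval ![x, 1 - y] Φ = 0 → eval ![x, y] Φ' = 0 := by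
  have key : ∀ x y : ℂ, eval ![x, y] (bind₁ ![X 0, 1 - X 1] Φ) = eval ![x, 1 - y] Φ := by
    intro x y
    rw [← MvPolynomial.coe_aeval_eq_eval, ← MvPolynomial.coe_aeval_eq_eval, RingHom.coe_coe, RingHom.coe_coe, aeval_bind₁]
    congr 1
    have h1 : (fun i : Fin 2 => (aeval (![x, y] : Fin 2 → ℂ)) ((![X 0, 1 - X 1] : Fin 2 → MvPolynomial (Fin 2) ℂ) i)) = ![x, 1 - y] := by
      funext i
      fin_cases i
      · simp
      · simp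
    rw [h1]
  refine ⟨bind₁ ![X 0, 1 - X 1] Φ, ?_, fun x y h => by rw [key, h]⟩
  intro h0
  apply hΦ
  apply MvPolynomial.funext
  intro v
  have h1 := key (v 0) (1 - v 1)
  rw [h0, map_zero, sub_sub_cancel] at h1
  have h2 : v = ![v 0, v 1] := by
    funext i
    fin_cases i
    · rfl
    · rfl
  rw [h2, ← h1, map_zero]

/-- the substitution `y ↦ 1 - 1 / y` -/
theorem sub_inv (Φ : MvPolynomial (Fin 2) ℂ) (hΦ : Φ ≠ 0) : ∃ Φ' : MvPolynomial (Fin 2) ℂ, Φ' ≠ 0 ∧ ∀ x y : ℂ, y ≠ 0 → eval ![x, 1 - y⁻¹] Φ = 0 →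
    eval ![x, y] Φ' = 0 := by
  have hex : ∀ Φ : MvPolynomial (Fin 2) ℂ, ∃ (Φ' : MvPolynomial (Fin 2) ℂ) (d : ℕ), ∀ x y : ℂ, y ≠ 0 → eval ![x, y] Φ' = y ^ d * eval ![x, 1 - y⁻¹] Φ := by
    intro Φ
    induction Φ using MvPolynomial.induction_on with
    | C a =>
      refine ⟨C a, 0, fun x y _ => ?_⟩
      rw [eval_C, eval_C, pow_zero, one_mul]
    | add P Q hP hQ =>
      obtain ⟨P', d, hP'⟩ := hP
      obtain ⟨Q', e, hQ'⟩ := hQ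
      refine ⟨P' * X 1 ^ e + Q' * X 1 ^ d, d + e, fun x y hy => ?_⟩
      rw [map_add, map_mul, map_mul, map_pow, map_pow, eval_X, hP' x y hy, hQ' x y hy, map_add]
      show y ^ d * (eval ![x, 1 - y⁻¹] P) * y ^ e + y ^ e * (eval ![x, 1 - y⁻¹] Q) * y ^ d = _
      ring
    | mul_X P i hP =>
      obtain ⟨P', d, hP'⟩ := hP
      fin_cases i
      · refine ⟨P' * X 0, d, fun x y hy => ?_⟩
        show eval ![x, y] (P' * X 0) = y ^ d * eval ![x, 1 - y⁻¹] (P * X 0)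
        rw [map_mul, map_mul, eval_X, eval_X, hP' x y hy]
        show y ^ d * (eval ![x, 1 - y⁻¹] P) * x = y ^ d * ((eval ![x, 1 - y⁻¹] P) * x)
        ring
      · refine ⟨P' * (X 1 - 1), d + 1, fun x y hy => ?_⟩
        show eval ![x, y] (P' * (X 1 - 1)) = y ^ (d + 1) * eval ![x, 1 - y⁻¹] (P * X 1)
        rw [map_mul, map_mul, map_sub, map_one, eval_X, eval_X, hP' x y hy]
        show y ^ d * (eval ![x, 1 - y⁻¹] P) * (y - 1) = y ^ (d + 1) * ((eval ![x, 1 - y⁻¹] P) * (1 - y⁻¹))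
        have h1 : y * (1 - y⁻¹) = y - 1 := by
          rw [mul_sub, mul_one, mul_inv_cancel₀ hy]
        rw [← h1, pow_succ]
        ring
  obtain ⟨Φ', d, h⟩ := hex Φ
  refine ⟨Φ', ?_, fun x y hy h1 => by rw [h x y hy, h1, mul_zero]⟩
  intro h0
  have h1 : Φ * (X 1 - 1) = 0 := by
    apply MvPolynomial.funext
    intro v
    rw [map_mul, map_sub, map_one, eval_X, map_zero]
    by_cases hv : v 1 = 1
    · rw [hv, sub_self, mul_zero]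
    · have hv1 : 1 - v 1 ≠ 0 := fun h2 => hv (sub_eq_zero.1 h2).symm
      have h2 := h (v 0) (1 - v 1)⁻¹ (inv_ne_zero hv1)
      rw [h0, map_zero, inv_inv, sub_sub_cancel] at h2
      have h3 : v = ![v 0, v 1] := by
        funext i
        fin_cases i
        · rfl
        · rfl
      have h4 : eval ![v 0, v 1] Φ = 0 := by
        rcases mul_eq_zero.1 h2.symm with h5 | h5
        · exact absurd h5 (pow_ne_zero _ (inv_ne_zero hv1))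
        · exact h5
      rw [h3, h4, zero_mul]
  rcases mul_eq_zero.1 h1 with h2 | h2
  · exact hΦ h2
  · have h3 := congrArg (eval ![(0 : ℂ), 0]) h2
    rw [map_sub, map_one, eval_X, map_zero] at h3
    have h4 : (0 : ℂ) - 1 = 0 := h3
    norm_num at h4

end Pool.Agent.H41.LR
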