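import Pool.Agent.H41.LR.Mon

/-!
# LR Sch: Schottky's theorem from the local statements
-/

set_option autoImplicit false

open Topology Filter Metric

noncomputable section

namespace Pool.Agent.H41.LR

/-- bounded at the centre: bounded on a smaller ball (statement) -/
def LocalBound : Prop := ∀ M : ℝ, ∃ c : ℝ, 0 < c ∧ c ≤ 1 ∧ ∀ (X : ℂ → ℂ) (z : ℂ) (R : ℝ), 0 < R → DifferentiableOn ℂ X (ball z R) →
    (∀ w ∈ ball z R, X w ≠ 0 ∧ X w ≠ 1) → ‖X z‖ ≤ M → ∀ w ∈ ball z (c * R), ‖X w‖ ≤ M + 1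

/-- small at the centre: small on a smaller ball (statement) -/
def Harnack3 : Prop := ∃ c : ℝ, 0 < c ∧ c ≤ 1 ∧ ∀ (X : ℂ → ℂ) (z : ℂ) (R : ℝ), 0 < R → DifferentiableOn ℂ X (ball z R) →
    (∀ w ∈ ball z R, X w ≠ 0 ∧ X w ≠ 1) → ‖X z‖ ≤ 1 / 2 → ∀ w ∈ ball z (c * R), ‖X w‖ ^ 3 ≤ ‖X z‖

/-- **Schottky's theorem** -/
theorem schottky_of (hL : LocalBound) (hH : Harnack3) : Schottky := by
  intro M
  by_contra hcon
  push Not at hcon
  -- normalised counterexamples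
  have hex : ∀ n : ℕ, ∃ (f : ℂ → ℂ) (w : ℂ), DifferentiableOn ℂ f (ball 0 1) ∧ Om f (ball 0 1) ∧ ‖f 0‖ ≤ M ∧ ‖w‖ ≤ 1 / 2 ∧ (n : ℝ) < ‖f w‖ := by
    intro n
    obtain ⟨f, z, r, hr, hd, hO, h0, w, hw, hn⟩ := hcon n
    have hmap : ∀ ζ ∈ ball (0 : ℂ) 1, z + r * ζ ∈ ball z r := by
      intro ζ hζ
      rw [mem_ball_zero_iff] at hζ
      rw [mem_ball_iff_norm, add_sub_cancel_left, norm_mul, Complex.norm_real, Real.norm_eq_abs, abs_of_pos hr]
      nlinarith
    have hrc : (r : ℂ) ≠ 0 := by exact_mod_cast hr.ne'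
    refine ⟨fun ζ => f (z + r * ζ), (w - z) / r, ?_, fun ζ hζ => hO _ (hmap ζ hζ), ?_, ?_, ?_⟩
    · exact hd.comp ((differentiable_const z).add ((differentiable_const (r : ℂ)).mul differentiable_id)).differentiableOn hmap
    · show ‖f (z + r * 0)‖ ≤ M
      rw [mul_zero, add_zero]
      exact h0
    · rw [norm_div, Complex.norm_real, Real.norm_eq_abs, abs_of_pos hr, div_le_iff₀ hr]
      rw [mem_closedBall_iff_norm] at hw
      linarith
    · show (n : ℝ) < ‖f (z + r * ((w - z) / r))‖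
      rw [mul_div_cancel₀ _ hrc]
      have h1 : z + (w - z) = w := by ring
      rw [h1]
      exact hn
  choose f w hd hO h0 hw hn using hex
  set 𝒰 : Ultrafilter ℕ := hyperfilter ℕ with h𝒰
  have hbd : ball (0 : ℂ) 1 ⊆ {z | ∃ M : ℝ, ∀ᶠ n in (𝒰 : Filter ℕ), ‖f n z‖ ≤ M} := by
    refine all_of_clopen (z₀ := 0) (convex_ball (0 : ℂ) 1).isPreconnected ?_ ?_ (mem_ball_self one_pos) ⟨M, Eventually.of_forall h0⟩
    · rintro z hz ⟨M', hM'⟩
      obtain ⟨c, hc, hc1, hLc⟩ := hL M'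
      have hR : 0 < 1 - ‖z‖ := by
        rw [mem_ball_zero_iff] at hz
        linarith
      have hsub : ball z (1 - ‖z‖) ⊆ ball (0 : ℂ) 1 := by
        refine ball_subset_ball' ?_
        rw [dist_zero_right]
        linarith
      refine mem_of_superset (ball_mem_nhds z (mul_pos hc hR)) fun x hx => ⟨M' + 1, ?_⟩
      filter_upwards [hM'] with n h1
      exact hLc (f n) z _ hR ((hd n).mono hsub) (fun y hy => hO n y (hsub hy)) h1 x hx
    · intro z hz hzA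
      obtain ⟨c, hc, hc1, hHc⟩ := hH
      have hR : 0 < 1 - ‖z‖ := by
        rw [mem_ball_zero_iff] at hz
        linarith
      have hsub : ball z (1 - ‖z‖) ⊆ ball (0 : ℂ) 1 := by
        refine ball_subset_ball' ?_
        rw [dist_zero_right]
        linarith
      have hbig : ∀ M' : ℝ, ∀ᶠ n in (𝒰 : Filter ℕ), M' < ‖f n z‖ := by
        intro M'
        by_contra h2
        apply hzA
        refine ⟨M', ?_⟩
        rw [Ultrafilter.eventually_not.symm] at h2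
        exact h2.mono fun n hn => not_lt.1 hn
      have hsub2 : ball z (c * (1 - ‖z‖)) ⊆ ball z (1 - ‖z‖) := ball_subset_ball (by nlinarith)
      refine mem_of_superset (ball_mem_nhds z (mul_pos hc hR)) ?_
      rintro x hx ⟨M', hM'⟩
      obtain ⟨n, h1, h2⟩ := ((hbig (max 2 (|M'| + 1) ^ 3)).and hM').exists
      have hm2 : (2 : ℝ) ≤ max 2 (|M'| + 1) := le_max_left _ _
      have hm3 : |M'| + 1 ≤ max 2 (|M'| + 1) := le_max_right _ _
      have hz0 : 0 < ‖f n z‖ := norm_pos_iff.2 (hO n z hz).1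
      have hx0 : 0 < ‖f n x‖ := norm_pos_iff.2 (hO n x (hsub (hsub2 hx))).1
      have h3 : ‖(f n z)⁻¹‖ ≤ 1 / 2 := by
        rw [norm_inv, one_div]
        refine inv_anti₀ two_pos ?_
        have h4 : (2 : ℝ) ≤ max 2 (|M'| + 1) ^ 3 := by nlinarith [mul_self_nonneg (max 2 (|M'| + 1))]
        linarith
      have h5 := hHc (fun y => (f n y)⁻¹) z _ hR (((hO n).mono hsub).diff_inv ((hd n).mono hsub)) ((hO n).mono hsub).inv h3 x hx
      have h6 : ‖(f n x)⁻¹‖ ^ 3 ≤ ‖(f n z)⁻¹‖ := h5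
      rw [norm_inv, norm_inv] at h6
      have h7 : ‖f n z‖ ≤ ‖f n x‖ ^ 3 := by
        rw [inv_pow] at h6
        exact (inv_le_inv₀ (by positivity) hz0).1 h6
      have h8 : ‖f n x‖ ^ 3 ≤ (max 2 (|M'| + 1)) ^ 3 := by
        refine pow_le_pow_left₀ hx0.le ?_ 3
        have := le_abs_self M'
        linarith
      linarith
  have hwm : ∀ᶠ n in (𝒰 : Filter ℕ), w n ∈ closedBall (0 : ℂ) (1 / 2) := Eventually.of_forall fun n => by
    rw [mem_closedBall_zero_iff]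
    exact hw n
  obtain ⟨a, ha, hlim⟩ := (isCompact_closedBall (0 : ℂ) (1 / 2)).ultrafilter_le_nhds (𝒰.map w) (by
    rw [le_principal_iff]
    exact hwm)
  have ha1 : a ∈ ball (0 : ℂ) 1 := by
    rw [mem_closedBall_zero_iff] at ha
    rw [mem_ball_zero_iff]
    linarith
  obtain ⟨M', hM'⟩ := hbd ha1
  obtain ⟨c, hc, hc1, hLc⟩ := hL M'
  have hR : 0 < 1 - ‖a‖ := by
    rw [mem_ball_zero_iff] at ha1
    linarith
  have hsub : ball a (1 - ‖a‖) ⊆ ball (0 : ℂ) 1 := by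
    refine ball_subset_ball' ?_
    rw [dist_zero_right]
    linarith
  have h1 : ∀ᶠ n in (𝒰 : Filter ℕ), w n ∈ ball a (c * (1 - ‖a‖)) := hlim (ball_mem_nhds a (mul_pos hc hR))
  have h2 : ∀ᶠ n in (𝒰 : Filter ℕ), ‖f n (w n)‖ ≤ M' + 1 := by
    filter_upwards [h1, hM'] with n h3 h4
    exact hLc (f n) a _ hR ((hd n).mono hsub) (fun y hy => hO n y (hsub hy)) h4 (w n) h3
  obtain ⟨N, hN⟩ := exists_nat_gt (M' + 1)
  have h3 : ∀ᶠ n in (𝒰 : Filter ℕ), N ≤ n := by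
    have h4 : ∀ᶠ n in (cofinite : Filter ℕ), N ≤ n := by
      rw [Nat.cofinite_eq_atTop]
      exact eventually_ge_atTop N
    exact h4.filter_mono (hyperfilter_le_cofinite)
  obtain ⟨n, h4, h5⟩ := (h2.and h3).exists
  have h6 := hn n
  have h7 : (N : ℝ) ≤ n := by exact_mod_cast h5
  linarith

end Pool.Agent.H41.LR
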