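import Pool.Agent.H41.LR.Rel
import Pool.Agent.H41.LR.Lim
import Pool.Agent.H41.LR.Br
import Pool.Agent.H41.LR.Pic

/-!
# LR Tr: from half planes to the limits
-/

set_option autoImplicit false

open Topology Filter Metric MvPolynomial

noncomputable section

namespace Pool.Agent.H41.LR

open Pool.Agent.H62.LR (BaseD Tm)
open Pool.Agent.H87.LU (HP)
open Pool.Agent.H46.LR (OmitsAt OmitsSecAt FinAt Approx Algebraic MainN MainI)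

/-- the good points for `φ` -/
def Og (φ : ℂ → ℂ) (B₁ : Set ℂ) : Set ℂ := {z | Complex.exp (φ z) ∉ B₁}

theorem isOpen_Og {φ : ℂ → ℂ} (hφ : Continuous φ) {B₁ : Set ℂ} (hB : B₁.Finite) : IsOpen (Og φ B₁) :=
  hB.isClosed.isOpen_compl.preimage (Complex.continuous_exp.comp hφ)

theorem Og_compl {φ : ℂ → ℂ} {B₁ : Set ℂ} : (Og φ B₁)ᶜ = {z | φ z ∈ Bp B₁} := by
  ext z
  show ¬ (Complex.exp (φ z) ∉ B₁) ↔ Complex.exp (φ z) ∈ B₁
  exact not_not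

theorem countable_Og {φ : ℂ → ℂ} {a b c : ℂ} (hab : a ≠ 0 ∨ b ≠ 0) (hφ : ∀ z, φ z = a * z ^ 2 + b * z + c) {B₁ : Set ℂ} (hB : B₁.Finite) :
    ((Og φ B₁)ᶜ).Countable := by
  rw [Og_compl]
  have h1 := countable_quad (c := c) hab (countable_bad hB)
  refine h1.mono ?_
  intro z hz
  have h2 : φ z ∈ Bp B₁ := hz
  rw [hφ z] at h2
  exact h2

/-- a continuous relation on the good points of a ball holds on the ball -/
theorem rel_ball {φ g₀ : ℂ → ℂ} {z₀ : ℂ} {r : ℝ} (hφ : Continuous φ) (hg₀ : DifferentiableOn ℂ g₀ (ball z₀ r)) {B₁ : Set ℂ} (hd : Dense (Og φ B₁))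
    (Φ : MvPolynomial (Fin 2) ℂ) (h : ∀ z ∈ ball z₀ r, z ∈ Og φ B₁ → eval ![Complex.exp (φ z), g₀ z] Φ = 0) :
    ∀ z ∈ ball z₀ r, eval ![Complex.exp (φ z), g₀ z] Φ = 0 := by
  intro z hz
  have hcont : ContinuousAt (fun z => eval ![Complex.exp (φ z), g₀ z] Φ) z := by
    have h1 : ContinuousAt (fun z => (![Complex.exp (φ z), g₀ z] : Fin 2 → ℂ)) z := by
      rw [continuousAt_pi]
      intro i
      fin_cases i
      · exact (Complex.continuous_exp.comp hφ).continuousAt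
      · exact (hg₀.differentiableAt (isOpen_ball.mem_nhds hz)).continuousAt
    exact (MvPolynomial.continuous_eval Φ).continuousAt.comp h1
  have : (𝓝[Og φ B₁] z).NeBot := mem_closure_iff_nhdsWithin_neBot.1 (hd z)
  have h2 : ∀ᶠ w in 𝓝[Og φ B₁] z, eval ![Complex.exp (φ w), g₀ w] Φ = 0 := by
    filter_upwards [self_mem_nhdsWithin, nhdsWithin_le_nhds (isOpen_ball.mem_nhds hz)] with w hw1 hw2
    exact h w hw2 hw1
  exact tendsto_nhds_unique (hcont.tendsto.mono_left nhdsWithin_le_nhds) (tendsto_const_nhds.congr' (h2.mono fun w hw => hw.symm))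

/-- **Transfer** of a relation from the half plane. -/
theorem transfer {φ G : ℂ → ℂ} (hφ : Differentiable ℂ φ) {B₁ : Set ℂ} (hB : B₁.Finite) (hG : DifferentiableOn ℂ G (Og φ B₁))
    (hc : IsPreconnected (Og φ B₁)) {ρ : ℝ} {ψ : ℂ → ℂ} (hψ : DifferentiableOn ℂ ψ (HP 1 ρ)) (hinv : ∀ ζ ∈ HP 1 ρ, φ (ψ ζ) = ζ)
    (Φ : MvPolynomial (Fin 2) ℂ) {ζ₀ : ℂ} (hζ₀ : ζ₀ ∈ HP 1 ρ) (hζ₀B : ζ₀ ∉ Bp B₁)
    (h : ∀ ζ ∈ HP 1 ρ, ζ ∉ Bp B₁ → eval ![Complex.exp ζ, G (ψ ζ)] Φ = 0) :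
    ∀ z ∈ Og φ B₁, eval ![Complex.exp (φ z), G z] Φ = 0 := by
  set T : ℂ → ℂ := fun z => eval ![Complex.exp (φ z), G z] Φ with hT
  have hΩ := isOpen_Og hφ.continuous hB
  have hTa : AnalyticOnNhd ℂ T (Og φ B₁) := by
    intro z hz
    have h1 : AnalyticAt ℂ (fun z => (![Complex.exp (φ z), G z] : Fin 2 → ℂ)) z := by
      rw [analyticAt_pi_iff]
      intro i
      fin_cases i
      · exact (Complex.differentiable_exp.comp hφ).analyticAt z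
      · exact hG.analyticAt (hΩ.mem_nhds hz)
    have h2 : AnalyticAt ℂ (fun v : Fin 2 → ℂ => eval v Φ) (![Complex.exp (φ z), G z] : Fin 2 → ℂ) := by
      have h3 := AnalyticOnNhd.eval_mvPolynomial (𝕜 := ℂ) Φ
      exact h3 _ (Set.mem_univ _)
    exact AnalyticAt.comp (g := fun v : Fin 2 → ℂ => eval v Φ) (f := fun z => (![Complex.exp (φ z), G z] : Fin 2 → ℂ)) h2 h1
  set z₁ : ℂ := ψ ζ₀ with hz₁
  have hφz₁ : φ z₁ = ζ₀ := hinv ζ₀ hζ₀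
  have hz₁Ω : z₁ ∈ Og φ B₁ := by
    show Complex.exp (φ z₁) ∉ B₁
    rw [hφz₁]
    exact hζ₀B
  rcases (hTa z₁ hz₁Ω).eventually_eq_zero_or_eventually_ne_zero with h1 | h1
  · intro z hz
    exact hTa.eqOn_zero_of_preconnected_of_eventuallyEq_zero hc hz₁Ω h1 hz
  · exfalso
    have hψc : ContinuousAt ψ ζ₀ := (hψ.differentiableAt ((isOpen_HP1 ρ).mem_nhds hζ₀)).continuousAt
    have h2 : Tendsto ψ (𝓝[≠] ζ₀) (𝓝[≠] z₁) := by
      refine tendsto_nhdsWithin_iff.2 ⟨hψc.tendsto.mono_left nhdsWithin_le_nhds, ?_⟩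
      filter_upwards [self_mem_nhdsWithin, nhdsWithin_le_nhds ((isOpen_HP1 ρ).mem_nhds hζ₀)] with ζ h3 h4 h5
      apply h3
      have h6 : ψ ζ = z₁ := h5
      show ζ = ζ₀
      rw [← hinv ζ h4, h6, hφz₁]
    have h3 : ∀ᶠ ζ in 𝓝[≠] ζ₀, T (ψ ζ) ≠ 0 := h2.eventually h1
    have hBo : IsOpen (Bp B₁)ᶜ := hB.isClosed.isOpen_compl.preimage Complex.continuous_exp
    have h4 : ∀ᶠ ζ in 𝓝[≠] ζ₀, ζ ∈ HP 1 ρ := nhdsWithin_le_nhds ((isOpen_HP1 ρ).mem_nhds hζ₀)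
    have h5 : ∀ᶠ ζ in 𝓝[≠] ζ₀, ζ ∉ Bp B₁ := nhdsWithin_le_nhds (hBo.mem_nhds hζ₀B)
    obtain ⟨ζ, h6, h7, h8⟩ := (h3.and (h4.and h5)).exists
    apply h6
    show eval ![Complex.exp (φ (ψ ζ)), G (ψ ζ)] Φ = 0
    rw [hinv ζ h7]
    exact h ζ h7 h8

/-- there are good points in a half plane -/
theorem exists_good {B₁ : Set ℂ} (hB : B₁.Finite) (ρ : ℝ) : ∃ ζ₀ ∈ HP 1 ρ, ζ₀ ∉ Bp B₁ := by
  have h1 : Dense (Bp B₁)ᶜ := dense_of_countable (countable_bad hB)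
  obtain ⟨ζ, h2, h3⟩ := h1.inter_open_nonempty (HP 1 ρ) (isOpen_HP1 ρ) ⟨((ρ + 1 : ℝ) : ℂ) * Complex.I, by
    show ρ < 1 * (((ρ + 1 : ℝ) : ℂ) * Complex.I).im
    rw [Complex.im_ofReal_mul, Complex.I_im]
    linarith⟩
  exact ⟨ζ, h2, h3⟩

/-- composition with the branch: the part of `Tm` off `B` -/
theorem branch_mem {φ G : ℂ → ℂ} (hφ : Continuous φ) {B₁ : Set ℂ} (hB : B₁.Finite) (hG : DifferentiableOn ℂ G (Og φ B₁)) (hO : Om G (Og φ B₁)) {ρ : ℝ} {ψ : ℂ → ℂ}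
    (hψ : DifferentiableOn ℂ ψ (HP 1 ρ)) (hinv : ∀ ζ ∈ HP 1 ρ, φ (ψ ζ) = ζ) :
    (∀ ζ ∈ HP 1 ρ, MeromorphicAt (fun ζ => G (ψ ζ)) ζ) ∧ ∀ ζ ∈ HP 1 ρ, ζ ∉ Bp B₁ → AnalyticAt ℂ (fun ζ => G (ψ ζ)) ζ ∧ G (ψ ζ) ≠ 0 ∧ G (ψ ζ) ≠ 1 := by
  have hΩ := isOpen_Og hφ hB
  have hmem : ∀ ζ ∈ HP 1 ρ, ζ ∉ Bp B₁ → ψ ζ ∈ Og φ B₁ := by
    intro ζ h1 h2
    show Complex.exp (φ (ψ ζ)) ∉ B₁
    rw [hinv ζ h1]
    exact h2
  have hgood : ∀ ζ ∈ HP 1 ρ, ζ ∉ Bp B₁ → AnalyticAt ℂ (fun ζ => G (ψ ζ)) ζ ∧ G (ψ ζ) ≠ 0 ∧ G (ψ ζ) ≠ 1 := by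
    intro ζ h1 h2
    refine ⟨?_, hO _ (hmem ζ h1 h2)⟩
    exact AnalyticAt.comp (g := G) (f := ψ) (hG.analyticAt (hΩ.mem_nhds (hmem ζ h1 h2))) (hψ.analyticAt ((isOpen_HP1 ρ).mem_nhds h1))
  refine ⟨?_, hgood⟩
  intro ζ h1
  by_cases h2 : ζ ∈ Bp B₁
  · obtain ⟨δ, hδ, -, hsep⟩ := exists_sep hB
    obtain ⟨s, hs, hsub⟩ := Metric.isOpen_iff.1 (isOpen_HP1 ρ) ζ h1
    have hball : ∀ w ∈ ball ζ (min s δ) \ {ζ}, w ∈ HP 1 ρ ∧ w ∉ Bp B₁ := by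
      intro w hw
      refine ⟨hsub (ball_subset_ball (min_le_left _ _) hw.1), fun h3 => ?_⟩
      have h4 := hsep w ζ h3 h2 hw.2
      have h5 := hw.1
      rw [mem_ball_iff_norm] at h5
      have h6 := min_le_right s δ
      linarith
    refine picard schottky (r := min s δ) (lt_min hs hδ) ?_ ?_
    · intro w hw
      obtain ⟨h3, h4⟩ := hball w hw
      exact ((hgood w h3 h4).1.differentiableAt).differentiableWithinAt
    · intro w hw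
      obtain ⟨h3, h4⟩ := hball w hw
      exact (hgood w h3 h4).2
  · exact (hgood ζ h1 h2).1.meromorphicAt

/-- **Bad constants.** -/
theorem const_case {B₀ : Set ℂ} (hB : B₀.Finite) {K : (ℂ → ℂ) → (ℂ → ℂ) → ℂ → Prop} (hK : ∀ ψ g g' z, g =ᶠ[𝓝[≠] z] g' → K ψ g z → K ψ g' z)
    (hO : ∀ ψ g z, K ψ g z → OmitsAt B₀ ψ g z) {φ g₀ : ℂ → ℂ} {z₀ : ℂ} {r : ℝ} (hr : 0 < r) (hg₀ : DifferentiableOn ℂ g₀ (ball z₀ r))
    (h : Approx K φ g₀ z₀ r) {c : ℂ} (hc : Complex.exp c ∉ B₀) (hφ : ∀ z, φ z = c) : ∀ z ∈ ball z₀ r, g₀ z = g₀ z₀ := by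
  obtain ⟨ψ, g, hL⟩ := exists_limS hK h
  have hφ' : φ = fun _ => c := funext hφ
  have huniv : {z : ℂ | Complex.exp (φ z) ∉ B₀} = Set.univ := by
    rw [hφ']
    exact Set.eq_univ_of_forall fun _ => hc
  have hcont : Continuous φ := by
    rw [hφ']
    exact continuous_const
  obtain ⟨G, hG, -, hGg, hcase⟩ := hL.exists_G schottky hB hO hcont hr hg₀ (by rw [huniv]; exact isPreconnected_univ)
    (by rw [huniv]; exact dense_univ)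
  have hmem : ∀ z : ℂ, Complex.exp (φ z) ∉ B₀ := by
    intro z
    rw [hφ z]
    exact hc
  have hconst : ∀ z w : ℂ, G z = G w := by
    rcases hcase with h1 | h1 | h1
    · refine little_picard ?_ (fun z => h1 z (hmem z))
      rw [huniv] at hG
      exact differentiableOn_univ.1 hG
    · intro z w
      rw [h1 z (hmem z), h1 w (hmem w)]
    · intro z w
      rw [h1 z (hmem z), h1 w (hmem w)]
  intro z hz
  rw [← hGg z hz (hmem z), ← hGg z₀ (mem_ball_self hr) (hmem z₀)]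
  exact hconst z z₀

end Pool.Agent.H41.LR
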